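import Mathlib
import Pool.Agent.Lib.MP_1ef7cf_nt.ZetaSum

section

/-!
# Comparison of a sum over a lattice with an integral
-/

open MeasureTheory Module Submodule ZSpan

namespace Pool.Agent.STc

section compare

variable {E : Type*} [NormedAddCommGroup E] [NormedSpace ℝ E] [FiniteDimensional ℝ E]
  [MeasurableSpace E] [BorelSpace E] {L : Submodule ℤ E} [DiscreteTopology L] [IsZLattice ℝ L]
  {ι : Type*} [Fintype ι] (b : Basis ι ℤ L) (μ : Measure E) [μ.IsAddHaarMeasure]

include b in
/-- Comparison of the sum of a nonnegative function over a translate of a lattice with its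
integral. -/
theorem lattice_compare {f : E → ℝ} (hf0 : ∀ x, 0 ≤ f x) (hfm : Measurable f) (a : E)
    {g : L → ℝ} (hg : Summable g)
    (hfg : ∀ (l : L), ∀ y ∈ fundamentalDomain (b.ofZLatticeBasis ℝ), |f (a + l) - f (a + l + y)| ≤ g l)
    (hs : Summable fun l : L => f (a + l)) :
    Integrable f μ ∧
    |μ.real (fundamentalDomain (b.ofZLatticeBasis ℝ)) * ∑' l : L, f (a + l) - ∫ x, f x ∂μ| ≤
      μ.real (fundamentalDomain (b.ofZLatticeBasis ℝ)) * ∑' l, g l := by
  set D := fundamentalDomain (b.ofZLatticeBasis ℝ) with hD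
  have hfd : IsAddFundamentalDomain L D μ := ZLattice.isAddFundamentalDomain b μ
  have hDm : MeasurableSet D := fundamentalDomain_measurableSet _
  have hDf : μ D < ⊤ := (fundamentalDomain_isBounded _).measure_lt_top
  have hcount : Countable L := inferInstance
  have hinv : VAddInvariantMeasure L E μ := inferInstanceAs <| VAddInvariantMeasure L.toAddSubgroup E μ
  have hadd : MeasurePreserving (fun x : E => a + x) μ μ := measurePreserving_add_left μ a
  have hemb : MeasurableEmbedding (fun x : E => a + x) := measurableEmbedding_addLeft a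
  have hfm' : Measurable (fun x => f (a + x)) := hfm.comp (measurable_const_add a)
  have hg0 : ∀ l, 0 ≤ g l := by
    intro l
    have h0 : (0 : E) ∈ D := by
      rw [hD, ZSpan.mem_fundamentalDomain]
      intro i
      simp
    exact (abs_nonneg _).trans (hfg l 0 h0)
  -- integrability
  have hint : Integrable (fun x => f (a + x)) μ := by
    refine ⟨hfm'.aestronglyMeasurable, ?_⟩
    rw [hasFiniteIntegral_iff_ofReal (Filter.Eventually.of_forall fun x => hf0 _)]
    rw [hfd.lintegral_eq_tsum'' (fun x => ENNReal.ofReal (f (a + x)))]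
    have h1 : ∀ l : L, ∫⁻ x in D, ENNReal.ofReal (f (a + (l +ᵥ x))) ∂μ ≤
        ENNReal.ofReal (f (a + l) + g l) * μ D := by
      intro l
      rw [← setLIntegral_const]
      refine setLIntegral_mono measurable_const fun y hy => ?_
      apply ENNReal.ofReal_le_ofReal
      have h2 := hfg l y hy
      have h3 : a + (l +ᵥ y) = a + l + y := by
        rw [Submodule.vadd_def, vadd_eq_add, add_assoc]
      rw [h3]
      linarith [(abs_le.1 h2).1]
    refine lt_of_le_of_lt (ENNReal.tsum_le_tsum h1) ?_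
    rw [ENNReal.tsum_mul_right]
    apply ENNReal.mul_lt_top _ hDf
    rw [← ENNReal.ofReal_tsum_of_nonneg (fun l => add_nonneg (hf0 _) (hg0 l)) (hs.add hg)]
    exact ENNReal.ofReal_lt_top
  have hint' : Integrable f μ := (hadd.integrable_comp_emb hemb).1 hint
  refine ⟨hint', ?_⟩
  have h4 : ∫ x, f x ∂μ = ∫ x, f (a + x) ∂μ := (hadd.integral_comp hemb f).symm
  rw [h4, hfd.integral_eq_tsum'' _ hint]
  have h5 : ∀ l : L, |μ.real D * f (a + l) - ∫ x in D, f (a + (l +ᵥ x)) ∂μ| ≤ μ.real D * g l := by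
    intro l
    have h6 : μ.real D * f (a + l) = ∫ x in D, f (a + l) ∂μ := by
      rw [setIntegral_const, smul_eq_mul]
    have hintl : IntegrableOn (fun x => f (a + (l +ᵥ x))) D μ := by
      have h7 : Integrable (fun x => f (a + ((l : E) + x))) μ :=
        ((measurePreserving_add_left μ (l : E)).integrable_comp_emb
          (measurableEmbedding_addLeft (l : E))).2 hint
      exact h7.integrableOn
    have hc : IntegrableOn (fun _ : E => f (a + l)) D μ :=
      integrableOn_const hDf.ne (by simp)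
    rw [h6, ← integral_sub hc hintl]
    have h8 : ‖∫ x in D, (f (a + l) - f (a + (l +ᵥ x))) ∂μ‖ ≤ g l * μ.real D := by
      apply norm_setIntegral_le_of_norm_le_const hDf
      intro y hy
      have h3 : a + (l +ᵥ y) = a + l + y := by
        rw [Submodule.vadd_def, vadd_eq_add, add_assoc]
      rw [h3]
      exact hfg l y hy
    rw [mul_comm (μ.real D)]
    exact h8
  have hsV : Summable fun l : L => μ.real D * f (a + l) := hs.mul_left _
  have hgV : Summable fun l : L => μ.real D * g l := hg.mul_left _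
  have hdiff : Summable fun l : L => μ.real D * f (a + l) - ∫ x in D, f (a + (l +ᵥ x)) ∂μ :=
    Summable.of_norm_bounded hgV h5
  have hintS : Summable fun l : L => ∫ x in D, f (a + (l +ᵥ x)) ∂μ := by
    refine (hsV.sub hdiff).congr fun l => ?_
    ring
  rw [← tsum_mul_left, ← tsum_mul_left, ← Summable.tsum_sub hsV hintS]
  exact (norm_tsum_le_tsum_norm (hdiff.norm)).trans (hdiff.norm.tsum_le_tsum h5 hgV)

end compare

end Pool.Agent.STc
end

section

/-!
# A Lipschitz partition of unity for the action of the units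
-/

open NumberField NumberField.mixedEmbedding NumberField.InfinitePlace NumberField.Units
  NumberField.Units.dirichletUnitTheorem Module

namespace Pool.Agent.STc

section tent

/-- The tent function. -/
noncomputable def tent (t : ℝ) : ℝ := max 0 (1 - |t|)

lemma tent_nonneg (t : ℝ) : 0 ≤ tent t := le_max_left _ _

lemma tent_le_one (t : ℝ) : tent t ≤ 1 := max_le zero_le_one (by linarith [abs_nonneg t])

lemma tent_eq_zero {t : ℝ} (h : 1 ≤ |t|) : tent t = 0 := max_eq_left (by linarith)

lemma abs_lt_of_tent {t : ℝ} (h : tent t ≠ 0) : |t| < 1 := by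
  by_contra hc
  exact h (tent_eq_zero (not_lt.1 hc))

lemma abs_tent_sub (s t : ℝ) : |tent s - tent t| ≤ |s - t| := by
  unfold tent
  have h1 : |max 0 (1 - |s|) - max 0 (1 - |t|)| ≤ |(1 - |s|) - (1 - |t|)| := by
    have := abs_max_sub_max_le_abs (1 - |s|) (1 - |t|) 0
    rwa [max_comm, max_comm (1 - |t|)] at this
  refine h1.trans ?_
  have h2 : (1 - |s|) - (1 - |t|) = -(|s| - |t|) := by ring
  rw [h2, abs_neg]
  exact abs_abs_sub_abs_le _ _

lemma continuous_tent : Continuous tent := by
  unfold tent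
  fun_prop

/-- The translates of the tent function form a partition of unity. -/
lemma hasSum_tent (t : ℝ) : HasSum (fun k : ℤ => tent (k + t)) 1 := by
  have h0 := Int.floor_le t
  have h1 := Int.lt_floor_add_one t
  have hne : (-⌊t⌋ : ℤ) ≠ -⌊t⌋ - 1 := by omega
  have h2 : HasSum (fun k : ℤ => tent (k + t))
      (∑ k ∈ ({-⌊t⌋, -⌊t⌋ - 1} : Finset ℤ), tent (k + t)) := by
    apply hasSum_sum_of_ne_finset_zero
    intro k hk
    rw [Finset.mem_insert, Finset.mem_singleton, not_or] at hk
    apply tent_eq_zero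
    rcases lt_or_gt_of_ne hk.1 with h | h
    · have h3 : k ≤ -⌊t⌋ - 2 := by omega
      have h4 : (k : ℝ) ≤ -⌊t⌋ - 2 := by exact_mod_cast h3
      rw [abs_of_nonpos (by linarith)]
      linarith
    · have h3 : -⌊t⌋ + 1 ≤ k := by omega
      have h4 : -(⌊t⌋ : ℝ) + 1 ≤ k := by exact_mod_cast h3
      rw [abs_of_nonneg (by linarith)]
      linarith
  rw [Finset.sum_pair hne] at h2
  convert h2 using 1
  unfold tent
  push_cast
  rw [abs_of_nonneg (by linarith), abs_of_nonpos (by linarith), max_eq_right (by linarith),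
    max_eq_right (by linarith)]
  ring

lemma hasSum_prod_tent {r : ℕ} (t : Fin r → ℝ) :
    HasSum (fun k : Fin r → ℤ => ∏ i, tent (k i + t i)) 1 := by
  classical
  let A : Fin r → Finset ℤ := fun i => {-⌊t i⌋, -⌊t i⌋ - 1}
  have hA : ∀ i, ∀ k ∉ A i, tent (k + t i) = 0 := by
    intro i k hk
    rw [Finset.mem_insert, Finset.mem_singleton, not_or] at hk
    have h0 := Int.floor_le (t i)
    have h1 := Int.lt_floor_add_one (t i)
    apply tent_eq_zero
    rcases lt_or_gt_of_ne hk.1 with h | h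
    · have h3 : k ≤ -⌊t i⌋ - 2 := by omega
      have h4 : (k : ℝ) ≤ -⌊t i⌋ - 2 := by exact_mod_cast h3
      rw [abs_of_nonpos (by linarith)]
      linarith
    · have h3 : -⌊t i⌋ + 1 ≤ k := by omega
      have h4 : -(⌊t i⌋ : ℝ) + 1 ≤ k := by exact_mod_cast h3
      rw [abs_of_nonneg (by linarith)]
      linarith
  have h2 : HasSum (fun k : Fin r → ℤ => ∏ i, tent (k i + t i))
      (∑ k ∈ Fintype.piFinset A, ∏ i, tent (k i + t i)) := by
    apply hasSum_sum_of_ne_finset_zero
    intro k hk
    rw [Fintype.mem_piFinset, not_forall] at hk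
    obtain ⟨i, hi⟩ := hk
    exact Finset.prod_eq_zero (Finset.mem_univ i) (hA i _ hi)
  rw [← Finset.prod_univ_sum A (fun i k => tent (k + t i))] at h2
  convert h2 using 1
  symm
  apply Finset.prod_eq_one
  intro i _
  have h3 := hasSum_tent (t i)
  exact (hasSum_sum_of_ne_finset_zero fun k hk => hA i k hk).unique h3

end tent

section phi

variable (F : Type*) [Field F] [NumberField F]

open scoped Classical in
/-- The real basis of the log space coming from a fundamental system of units. -/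
noncomputable def ub : Basis (Fin (rank F)) ℝ (logSpace F) :=
  (basisUnitLattice F).ofZLatticeBasis ℝ (unitLattice F)

variable {F}

/-- The coordinates of `logMap x`. -/
noncomputable def tc (x : mixedSpace F) (i : Fin (rank F)) : ℝ := (ub F).repr (logMap x) i

open Classical in
/-- The partition of unity. -/
noncomputable def phi (x : mixedSpace F) : ℝ :=
  if mixedEmbedding.norm x = 0 then 0 else ∏ i, tent (tc x i)

lemma phi_nonneg (x : mixedSpace F) : 0 ≤ phi x := by
  unfold phi
  split_ifs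
  · exact le_rfl
  · exact Finset.prod_nonneg fun i _ => tent_nonneg _

lemma phi_le_one (x : mixedSpace F) : phi x ≤ 1 := by
  unfold phi
  split_ifs
  · exact zero_le_one
  · exact Finset.prod_le_one (fun i _ => tent_nonneg _) fun i _ => tent_le_one _

lemma phi_ne_zero {x : mixedSpace F} (h : phi x ≠ 0) :
    mixedEmbedding.norm x ≠ 0 ∧ ∀ i, |tc x i| < 1 := by
  unfold phi at h
  split_ifs at h with h0
  · exact absurd rfl h
  · exact ⟨h0, fun i => abs_lt_of_tent fun hi => h (Finset.prod_eq_zero (Finset.mem_univ i) hi)⟩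

lemma phi_of_norm_ne {x : mixedSpace F} (h : mixedEmbedding.norm x ≠ 0) :
    phi x = ∏ i, tent (tc x i) := by
  unfold phi
  rw [if_neg h]

lemma phi_eq_of_normAtPlace_eq {x y : mixedSpace F}
    (h : ∀ w, normAtPlace w x = normAtPlace w y) : phi x = phi y := by
  unfold phi tc
  rw [logMap_eq_of_normAtPlace_eq h, norm_eq_of_normAtPlace_eq h]

open scoped Classical in
lemma ub_apply (i : Fin (rank F)) :
    ub F i = logEmbedding F (Additive.ofMul (fundSystem F i)) := by
  rw [logEmbedding_fundSystem]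
  exact Basis.ofZLatticeBasis_apply ℝ (unitLattice F) (basisUnitLattice F) i

lemma logEmbedding_mul_prod {ζ : (𝓞 F)ˣ} (hζ : ζ ∈ torsion F) (k : Fin (rank F) → ℤ) :
    logEmbedding F (Additive.ofMul (ζ * ∏ i, (fundSystem F i) ^ (k i))) =
      ∑ i, (k i : ℝ) • ub F i := by
  rw [ofMul_mul, map_add]
  have h1 : logEmbedding F (Additive.ofMul ζ) = 0 := logEmbedding_eq_zero_iff.2 hζ
  rw [h1, zero_add, ofMul_prod, map_sum]
  refine Finset.sum_congr rfl fun i _ => ?_
  rw [ofMul_zpow, map_zsmul, ub_apply]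
  exact (Int.cast_smul_eq_zsmul ℝ _ _).symm

lemma tc_unit_smul {x : mixedSpace F} (hx : mixedEmbedding.norm x ≠ 0) {ζ : (𝓞 F)ˣ}
    (hζ : ζ ∈ torsion F) (k : Fin (rank F) → ℤ) (i : Fin (rank F)) :
    tc ((ζ * ∏ i, (fundSystem F i) ^ (k i)) • x) i = k i + tc x i := by
  unfold tc
  rw [logMap_unit_smul _ hx, logEmbedding_mul_prod hζ, map_add, Finsupp.add_apply]
  congr 1
  rw [map_sum, Finsupp.finsetSum_apply]
  simp only [map_smul, Basis.repr_self, Finsupp.smul_apply, smul_eq_mul]
  rw [Finset.sum_eq_single i]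
  · simp
  · intro j _ hj
    simp [hj]
  · simp

/-- Units as pairs of a root of unity and exponents. -/
noncomputable def unitEquiv : torsion F × (Fin (rank F) → ℤ) ≃ (𝓞 F)ˣ :=
  Equiv.ofBijective (fun p => p.1 * ∏ i, (fundSystem F i) ^ (p.2 i)) (by
    constructor
    · intro p q h
      exact (exist_unique_eq_mul_prod F _).unique rfl h
    · intro u
      obtain ⟨p, hp, -⟩ := exist_unique_eq_mul_prod F u
      exact ⟨p, hp.symm⟩)

lemma unitEquiv_apply (p : torsion F × (Fin (rank F) → ℤ)) :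
    unitEquiv p = p.1 * ∏ i, (fundSystem F i) ^ (p.2 i) := Equiv.ofBijective_apply _ _ _

lemma phi_unitEquiv {x : mixedSpace F} (hx : mixedEmbedding.norm x ≠ 0)
    (p : torsion F × (Fin (rank F) → ℤ)) :
    phi (unitEquiv p • x) = ∏ i, tent (p.2 i + tc x i) := by
  have h2 : mixedEmbedding.norm (unitEquiv p • x) ≠ 0 := by rwa [norm_unit_smul]
  rw [phi_of_norm_ne h2, unitEquiv_apply]
  exact Finset.prod_congr rfl fun i _ => by rw [← tc_unit_smul hx p.1.2 p.2 i]

lemma hasSum_torsion : HasSum (fun _ : torsion F => (1 : ℝ)) (torsionOrder F) := by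
  have hft : Fintype (torsion F) := Fintype.ofFinite _
  have h4 := hasSum_fintype (fun _ : torsion F => (1 : ℝ))
  rw [Finset.sum_const, Finset.card_univ, nsmul_eq_mul, mul_one] at h4
  rwa [torsionOrder, Nat.card_eq_fintype_card]

lemma summable_phi_aux (x : mixedSpace F) :
    Summable fun p : torsion F × (Fin (rank F) → ℤ) => (1 : ℝ) * ∏ i, tent (p.2 i + tc x i) := by
  have h4 := hasSum_prod_tent (fun i => tc x i)
  have h7 : (0 : (Fin (rank F) → ℤ) → ℝ) ≤ fun k => ∏ i, tent (k i + tc x i) :=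
    fun k => Finset.prod_nonneg fun i _ => tent_nonneg _
  have h8 : (0 : torsion F → ℝ) ≤ fun _ => 1 := fun _ => zero_le_one
  exact Summable.mul_of_nonneg (f := fun _ : torsion F => (1 : ℝ))
    (g := fun k : Fin (rank F) → ℤ => ∏ i, tent (k i + tc x i))
    (hasSum_torsion (F := F)).summable h4.summable h8 h7

lemma hasSum_phi_aux (x : mixedSpace F) :
    HasSum (fun p : torsion F × (Fin (rank F) → ℤ) => ∏ i, tent (p.2 i + tc x i))
      (torsionOrder F : ℝ) := by
  have h4 := hasSum_prod_tent (fun i => tc x i)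
  have h5 := (hasSum_torsion (F := F)).mul h4 (summable_phi_aux x)
  rw [mul_one] at h5
  simpa only [one_mul] using h5

/-- The sum of `phi` over the orbit under the units. -/
theorem hasSum_phi {x : mixedSpace F} (hx : mixedEmbedding.norm x ≠ 0) :
    HasSum (fun u : (𝓞 F)ˣ => phi (u • x)) (torsionOrder F : ℝ) := by
  have h1 := hasSum_phi_aux x
  simp only [← phi_unitEquiv hx] at h1
  exact (unitEquiv (F := F)).hasSum_iff.1 h1

end phi

end Pool.Agent.STc
end

section

/-!
# Regularity of the partition of unity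
-/

open NumberField NumberField.mixedEmbedding NumberField.InfinitePlace NumberField.Units
  NumberField.Units.dirichletUnitTheorem Module MeasureTheory

namespace Pool.Agent.STc

section bal

variable (F : Type*) [Field F] [NumberField F]

lemma tc_sum (x : mixedSpace F) : logMap x = ∑ i, tc x i • ub F i := by
  unfold tc
  exact ((ub F).sum_repr (logMap x)).symm

lemma exists_logMap_le : ∃ B : ℝ, 0 ≤ B ∧ ∀ x : mixedSpace F, (∀ i, |tc x i| < 1) →
    ∀ w, |logMap x w| ≤ B := by
  classical
  refine ⟨∑ w, ∑ i, |ub F i w|, Finset.sum_nonneg fun w _ => Finset.sum_nonneg fun i _ =>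
    abs_nonneg _, ?_⟩
  intro x hx w
  have h1 : |logMap x w| ≤ ∑ i, |ub F i w| := by
    rw [tc_sum F x, Finset.sum_apply]
    refine (Finset.abs_sum_le_sum_abs _ _).trans (Finset.sum_le_sum fun i _ => ?_)
    rw [Pi.smul_apply, smul_eq_mul, abs_mul]
    exact mul_le_of_le_one_left (abs_nonneg _) (hx i).le
  refine h1.trans ?_
  exact Finset.single_le_sum (f := fun w => ∑ i, |ub F i w|)
    (fun w _ => Finset.sum_nonneg fun i _ => abs_nonneg _) (Finset.mem_univ w)

variable {F} in
lemma normAtPlace_ne_zero {x : mixedSpace F} (hx : mixedEmbedding.norm x ≠ 0)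
    (w : InfinitePlace F) : normAtPlace w x ≠ 0 :=
  mixedEmbedding.norm_ne_zero_iff.1 hx w

variable {F} in
lemma normAtPlace_pos {x : mixedSpace F} (hx : mixedEmbedding.norm x ≠ 0)
    (w : InfinitePlace F) : 0 < normAtPlace w x :=
  lt_of_le_of_ne (normAtPlace_nonneg w x) (normAtPlace_ne_zero hx w).symm

variable {F} in
lemma norm_pos' {x : mixedSpace F} (hx : mixedEmbedding.norm x ≠ 0) :
    0 < mixedEmbedding.norm x :=
  lt_of_le_of_ne (mixedEmbedding.norm_nonneg x) hx.symm

variable {F} in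
lemma log_norm {x : mixedSpace F} (hx : mixedEmbedding.norm x ≠ 0) :
    Real.log (mixedEmbedding.norm x) = ∑ w : InfinitePlace F, mult w * Real.log (normAtPlace w x) := by
  rw [mixedEmbedding.norm_apply, Real.log_prod]
  · refine Finset.sum_congr rfl fun w _ => ?_
    rw [Real.log_pow]
  · intro w _
    exact pow_ne_zero _ (normAtPlace_ne_zero hx w)

lemma exists_log_le : ∃ B : ℝ, 0 ≤ B ∧ ∀ x : mixedSpace F, phi x ≠ 0 →
    ∀ w, |Real.log (normAtPlace w x) - Real.log (mixedEmbedding.norm x) * (finrank ℚ F : ℝ)⁻¹| ≤ B := by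
  classical
  obtain ⟨B, hB0, hB⟩ := exists_logMap_le F
  refine ⟨Fintype.card {w : InfinitePlace F // w ≠ w₀} * B + B, by positivity, ?_⟩
  intro x hx w
  obtain ⟨hn, ht⟩ := phi_ne_zero hx
  have hd : (finrank ℚ F : ℝ) ≠ 0 := by
    have : 0 < finrank ℚ F := finrank_pos
    positivity
  set D : InfinitePlace F → ℝ := fun w =>
    Real.log (normAtPlace w x) - Real.log (mixedEmbedding.norm x) * (finrank ℚ F : ℝ)⁻¹ with hD
  have hm : ∀ w : InfinitePlace F, (1 : ℝ) ≤ mult w := by
    intro w
    exact one_le_mult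
  have hmD : ∀ w : {w : InfinitePlace F // w ≠ w₀}, |(mult w.1 : ℝ) * D w.1| ≤ B := by
    intro w
    have := hB x ht w
    rwa [logMap_apply] at this
  have h1 : ∀ w : InfinitePlace F, |D w| ≤ |(mult w : ℝ) * D w| := by
    intro w
    rw [abs_mul]
    have h2 : (1 : ℝ) ≤ |(mult w : ℝ)| := (hm w).trans (le_abs_self _)
    exact le_mul_of_one_le_left (abs_nonneg _) h2
  have hsum : ∑ w : InfinitePlace F, (mult w : ℝ) * D w = 0 := by
    simp only [hD, mul_sub]
    rw [Finset.sum_sub_distrib, ← log_norm hn, ← Finset.sum_mul]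
    have h3 : (∑ w : InfinitePlace F, (mult w : ℝ)) = finrank ℚ F := by
      exact_mod_cast sum_mult_eq (K := F)
    rw [h3]
    field_simp
    ring
  by_cases hw : w = w₀
  · have h4 : (mult w : ℝ) * D w = - ∑ w : {w : InfinitePlace F // w ≠ w₀}, (mult w.1 : ℝ) * D w.1 := by
      rw [Fintype.sum_eq_add_sum_subtype_ne _ w₀, ← hw] at hsum
      rw [← hw]
      linarith
    have h6 : |(mult w : ℝ) * D w| ≤ Fintype.card {w : InfinitePlace F // w ≠ w₀} * B := by
      rw [h4, abs_neg]
      refine (Finset.abs_sum_le_sum_abs _ _).trans ?_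
      refine (Finset.sum_le_sum fun i _ => hmD i).trans ?_
      rw [Finset.sum_const, Finset.card_univ, nsmul_eq_mul]
    exact (h1 w).trans (h6.trans (by linarith))
  · have h7 := hmD ⟨w, hw⟩
    have h8 : 0 ≤ (Fintype.card {w : InfinitePlace F // w ≠ w₀} : ℝ) * B := by positivity
    exact (h1 w).trans (h7.trans (by linarith))

open scoped Classical in
/-- On the support of `phi` all the absolute values are comparable with the norm. -/
lemma exists_bal : ∃ c : ℝ, 0 < c ∧ c ≤ 1 ∧ ∀ x : mixedSpace F, phi x ≠ 0 →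
    ∀ w, c * ‖x‖ ≤ normAtPlace w x := by
  obtain ⟨B, hB0, hB⟩ := exists_log_le F
  refine ⟨Real.exp (-(2 * B)), Real.exp_pos _, ?_, ?_⟩
  · rw [Real.exp_le_one_iff]; linarith
  intro x hx w
  obtain ⟨hn, -⟩ := phi_ne_zero hx
  rw [norm_eq_sup'_normAtPlace]
  obtain ⟨w', -, hw'⟩ := Finset.exists_mem_eq_sup' Finset.univ_nonempty (fun w => normAtPlace w x)
  rw [hw']
  have h1 := hB x hx w
  have h2 := hB x hx w'
  have h3 : Real.log (normAtPlace w' x) ≤ Real.log (normAtPlace w x) + 2 * B := by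
    have := abs_le.1 h1
    have := abs_le.1 h2
    linarith
  have h4 := Real.exp_le_exp.2 h3
  rw [Real.exp_log (normAtPlace_pos hn w'), Real.exp_add, Real.exp_log (normAtPlace_pos hn w)] at h4
  rw [Real.exp_neg, inv_mul_le_iff₀ (Real.exp_pos _), mul_comm]
  exact h4

/-- The coordinates are Lipschitz functions of the logarithms. -/
lemma exists_tc_sub : ∃ C : ℝ, 0 ≤ C ∧ ∀ x z : mixedSpace F, mixedEmbedding.norm x ≠ 0 →
    mixedEmbedding.norm z ≠ 0 → ∀ η : ℝ,
    (∀ w, |Real.log (normAtPlace w x) - Real.log (normAtPlace w z)| ≤ η) →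
    ∀ i, |tc x i - tc z i| ≤ C * η := by
  classical
  let T : Fin (rank F) → (logSpace F →L[ℝ] ℝ) := fun i => ((ub F).coord i).toContinuousLinearMap
  refine ⟨(∑ i, ‖T i‖) * 4, by positivity, ?_⟩
  intro x z hx hz η hη i
  have hη0 : 0 ≤ η := (abs_nonneg _).trans (hη w₀)
  have hd : (0 : ℝ) < finrank ℚ F := by
    have : 0 < finrank ℚ F := finrank_pos
    positivity
  have h1 : tc x i - tc z i = T i (logMap x - logMap z) := by
    simp only [T, LinearMap.coe_toContinuousLinearMap', Basis.coord_apply, map_sub]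
    rfl
  have hN : |Real.log (mixedEmbedding.norm x) - Real.log (mixedEmbedding.norm z)| ≤
      finrank ℚ F * η := by
    rw [log_norm hx, log_norm hz, ← Finset.sum_sub_distrib]
    refine (Finset.abs_sum_le_sum_abs _ _).trans ?_
    have h3 : (∑ w : InfinitePlace F, (mult w : ℝ)) = finrank ℚ F := by
      exact_mod_cast sum_mult_eq (K := F)
    rw [← h3, Finset.sum_mul]
    refine Finset.sum_le_sum fun w _ => ?_
    rw [← mul_sub, abs_mul, Nat.abs_cast]
    exact mul_le_mul_of_nonneg_left (hη w) (Nat.cast_nonneg _)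
  have h2 : ‖logMap x - logMap z‖ ≤ 4 * η := by
    rw [pi_norm_le_iff_of_nonneg (by positivity)]
    intro w
    rw [Pi.sub_apply, logMap_apply, logMap_apply, Real.norm_eq_abs, ← mul_sub, abs_mul, Nat.abs_cast]
    have h4 : (mult w.1 : ℝ) ≤ 2 := by
      have : mult w.1 ≤ 2 := by
        unfold mult; split_ifs <;> norm_num
      exact_mod_cast this
    have h5 : |Real.log (normAtPlace w.1 x) - Real.log (mixedEmbedding.norm x) * (finrank ℚ F : ℝ)⁻¹ -
        (Real.log (normAtPlace w.1 z) - Real.log (mixedEmbedding.norm z) * (finrank ℚ F : ℝ)⁻¹)| ≤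
        2 * η := by
      have h6 : Real.log (normAtPlace w.1 x) - Real.log (mixedEmbedding.norm x) * (finrank ℚ F : ℝ)⁻¹ -
        (Real.log (normAtPlace w.1 z) - Real.log (mixedEmbedding.norm z) * (finrank ℚ F : ℝ)⁻¹) =
        (Real.log (normAtPlace w.1 x) - Real.log (normAtPlace w.1 z)) -
        (Real.log (mixedEmbedding.norm x) - Real.log (mixedEmbedding.norm z)) *
          (finrank ℚ F : ℝ)⁻¹ := by ring
      rw [h6]
      refine (abs_sub _ _).trans ?_
      rw [abs_mul, abs_inv, Nat.abs_cast]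
      have h7 : |Real.log (mixedEmbedding.norm x) - Real.log (mixedEmbedding.norm z)| *
          (finrank ℚ F : ℝ)⁻¹ ≤ η := by
        rw [← div_eq_mul_inv, div_le_iff₀ hd, mul_comm]
        exact hN
      have := hη w.1
      linarith
    calc (mult w.1 : ℝ) * _ ≤ 2 * (2 * η) :=
        mul_le_mul h4 h5 (abs_nonneg _) (by norm_num)
      _ = 4 * η := by ring
  rw [h1]
  refine (ContinuousLinearMap.le_opNorm (T i) _).trans ?_
  have h8 : ‖T i‖ ≤ ∑ i, ‖T i‖ :=
    Finset.single_le_sum (f := fun i => ‖T i‖) (fun i _ => norm_nonneg _) (Finset.mem_univ i)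
  calc ‖T i‖ * ‖logMap x - logMap z‖ ≤ (∑ i, ‖T i‖) * (4 * η) :=
        mul_le_mul h8 h2 (norm_nonneg _) (by positivity)
    _ = (∑ i, ‖T i‖) * 4 * η := by ring

lemma abs_prod_sub_prod {ι : Type*} (s : Finset ι) (a b : ι → ℝ) (ha : ∀ i, 0 ≤ a i)
    (ha1 : ∀ i, a i ≤ 1) (hb : ∀ i, 0 ≤ b i) (hb1 : ∀ i, b i ≤ 1) :
    |∏ i ∈ s, a i - ∏ i ∈ s, b i| ≤ ∑ i ∈ s, |a i - b i| := by
  classical
  induction s using Finset.induction_on with
  | empty => simp
  | insert j s hj ih =>
    rw [Finset.prod_insert hj, Finset.prod_insert hj, Finset.sum_insert hj]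
    have h1 : a j * ∏ i ∈ s, a i - b j * ∏ i ∈ s, b i =
        (a j - b j) * ∏ i ∈ s, a i + b j * (∏ i ∈ s, a i - ∏ i ∈ s, b i) := by ring
    rw [h1]
    refine (abs_add_le _ _).trans ?_
    rw [abs_mul, abs_mul]
    have h2 : |∏ i ∈ s, a i| ≤ 1 := by
      rw [abs_of_nonneg (Finset.prod_nonneg fun i _ => ha i)]
      exact Finset.prod_le_one (fun i _ => ha i) fun i _ => ha1 i
    have h3 : |b j| ≤ 1 := by
      rw [abs_of_nonneg (hb j)]
      exact hb1 j
    have h4 : |a j - b j| * |∏ i ∈ s, a i| ≤ |a j - b j| :=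
      mul_le_of_le_one_right (abs_nonneg _) h2
    have h5 : |b j| * |∏ i ∈ s, a i - ∏ i ∈ s, b i| ≤ |∏ i ∈ s, a i - ∏ i ∈ s, b i| :=
      mul_le_of_le_one_left (abs_nonneg _) h3
    linarith

/-- `phi` is a Lipschitz function of the logarithms. -/
lemma exists_phi_sub : ∃ C : ℝ, 0 ≤ C ∧ ∀ x z : mixedSpace F, mixedEmbedding.norm x ≠ 0 →
    mixedEmbedding.norm z ≠ 0 → ∀ η : ℝ,
    (∀ w, |Real.log (normAtPlace w x) - Real.log (normAtPlace w z)| ≤ η) →
    |phi x - phi z| ≤ C * η := by
  obtain ⟨C, hC0, hC⟩ := exists_tc_sub F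
  refine ⟨rank F * C, by positivity, ?_⟩
  intro x z hx hz η hη
  rw [phi_of_norm_ne hx, phi_of_norm_ne hz]
  refine (abs_prod_sub_prod Finset.univ _ _ (fun i => tent_nonneg _) (fun i => tent_le_one _)
    (fun i => tent_nonneg _) (fun i => tent_le_one _)).trans ?_
  refine (Finset.sum_le_sum fun i _ => (abs_tent_sub _ _).trans (hC x z hx hz η hη i)).trans ?_
  rw [Finset.sum_const, Finset.card_univ, Fintype.card_fin, nsmul_eq_mul, mul_assoc]

end bal

end Pool.Agent.STc
end

section

/-!
# Regularity of the summand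
-/

open NumberField NumberField.mixedEmbedding NumberField.InfinitePlace NumberField.Units
  NumberField.Units.dirichletUnitTheorem Module MeasureTheory

namespace Pool.Agent.STc

section reg

variable {F : Type*} [Field F] [NumberField F]

open Classical in
/-- The summand. -/
noncomputable def fs (s : ℝ) (S : Set {w : InfinitePlace F // IsReal w}) (x : mixedSpace F) : ℝ :=
  if signSet x = S then phi x * (max 1 (mixedEmbedding.norm x)) ^ (-s) else 0

lemma one_le_max_norm (x : mixedSpace F) : 1 ≤ max 1 (mixedEmbedding.norm x) := le_max_left _ _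

lemma max_norm_rpow_le_one {s : ℝ} (hs : 0 ≤ s) (x : mixedSpace F) :
    (max 1 (mixedEmbedding.norm x)) ^ (-s) ≤ 1 :=
  Real.rpow_le_one_of_one_le_of_nonpos (one_le_max_norm x) (by linarith)

lemma max_norm_rpow_nonneg (s : ℝ) (x : mixedSpace F) :
    0 ≤ (max 1 (mixedEmbedding.norm x)) ^ (-s) :=
  Real.rpow_nonneg (zero_le_one.trans (one_le_max_norm x)) _

lemma fs_nonneg (s : ℝ) (S : Set {w : InfinitePlace F // IsReal w}) (x : mixedSpace F) :
    0 ≤ fs s S x := by
  unfold fs
  split_ifs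
  · exact mul_nonneg (phi_nonneg x) (max_norm_rpow_nonneg s x)
  · exact le_rfl

lemma fs_le_one {s : ℝ} (hs : 0 ≤ s) (S : Set {w : InfinitePlace F // IsReal w})
    (x : mixedSpace F) : fs s S x ≤ 1 := by
  unfold fs
  split_ifs
  · exact mul_le_one₀ (phi_le_one x) (max_norm_rpow_nonneg s x) (max_norm_rpow_le_one hs x)
  · exact zero_le_one

lemma fs_of_phi_eq_zero (s : ℝ) (S : Set {w : InfinitePlace F // IsReal w}) {x : mixedSpace F}
    (h : phi x = 0) : fs s S x = 0 := by
  unfold fs
  rw [h, zero_mul, ite_self]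

open scoped Classical in
lemma normAtPlace_le_norm (w : InfinitePlace F) (x : mixedSpace F) : normAtPlace w x ≤ ‖x‖ := by
  rw [norm_eq_sup'_normAtPlace]
  exact Finset.le_sup' (fun w => normAtPlace w x) (Finset.mem_univ w)

open scoped Classical in
lemma abs_normAtPlace_sub (w : InfinitePlace F) (x z : mixedSpace F) :
    |normAtPlace w x - normAtPlace w z| ≤ ‖x - z‖ := by
  rw [abs_le]
  constructor
  · have h1 : normAtPlace w (x + (-(x - z))) ≤ normAtPlace w x + normAtPlace w (-(x - z)) :=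
      normAtPlace_add_le w _ _
    rw [normAtPlace_neg] at h1
    have h2 : x + (-(x - z)) = z := by abel
    rw [h2] at h1
    have := normAtPlace_le_norm w (x - z)
    linarith
  · have h1 : normAtPlace w (z + (x - z)) ≤ normAtPlace w z + normAtPlace w (x - z) :=
      normAtPlace_add_le w _ _
    rw [add_sub_cancel] at h1
    have := normAtPlace_le_norm w (x - z)
    linarith

open scoped Classical in
lemma signSet_eq {x z : mixedSpace F} (h : ∀ w, ‖x - z‖ < normAtPlace w x) :
    signSet x = signSet z := by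
  ext w
  have h1 : |x.1 w - z.1 w| ≤ ‖x - z‖ := by
    have h2 := normAtPlace_le_norm w.1 (x - z)
    rw [normAtPlace_apply_of_isReal w.2] at h2
    exact h2
  have h3 := h w.1
  rw [normAtPlace_apply_of_isReal w.2, Real.norm_eq_abs] at h3
  have h4 : |x.1 w - z.1 w| < |x.1 w| := h1.trans_lt h3
  show x.1 w ≤ 0 ↔ z.1 w ≤ 0
  constructor
  · intro hx
    rw [abs_of_nonpos hx] at h4
    have := (abs_lt.1 h4).1
    linarith
  · intro hz
    by_contra hx
    rw [not_le] at hx
    rw [abs_of_pos hx] at h4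
    have := (abs_lt.1 h4).2
    linarith

lemma abs_log_sub {a b : ℝ} (ha : 0 < a) (h : |a - b| ≤ a / 2) :
    |Real.log a - Real.log b| ≤ 2 * |a - b| / a := by
  have hb : a / 2 ≤ b := by
    have := (abs_le.1 h).2
    linarith
  have hb0 : 0 < b := by linarith
  rw [← Real.log_div ha.ne' hb0.ne', abs_le]
  constructor
  · have h1 : Real.log (b / a) ≤ b / a - 1 := Real.log_le_sub_one_of_pos (by positivity)
    have h2 : Real.log (a / b) = - Real.log (b / a) := by
      rw [← Real.log_inv, inv_div]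
    rw [h2]
    have h3 : b / a - 1 = (b - a) / a := by field_simp
    have h4 : (b - a) / a ≤ 2 * |a - b| / a := by
      apply div_le_div_of_nonneg_right _ ha.le
      have := neg_le_abs (a - b)
      have := abs_nonneg (a - b)
      linarith
    linarith
  · have h1 : Real.log (a / b) ≤ a / b - 1 := Real.log_le_sub_one_of_pos (by positivity)
    have h3 : a / b - 1 = (a - b) / b := by field_simp
    have h4 : (a - b) / b ≤ |a - b| / b :=
      div_le_div_of_nonneg_right (le_abs_self _) hb0.le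
    have h5 : |a - b| / b ≤ 2 * |a - b| / a := by
      rw [div_le_div_iff₀ hb0 ha]
      nlinarith [abs_nonneg (a - b)]
    linarith

lemma abs_exp_sub (u v : ℝ) :
    |Real.exp u - Real.exp v| ≤ |u - v| * max (Real.exp u) (Real.exp v) := by
  wlog h : v ≤ u generalizing u v
  · have := this v u (le_of_not_ge h)
    rwa [abs_sub_comm, abs_sub_comm u v, max_comm]
  have h1 : Real.exp v ≤ Real.exp u := Real.exp_le_exp.2 h
  rw [abs_of_nonneg (by linarith), abs_of_nonneg (by linarith), max_eq_left h1]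
  have h2 : Real.exp v = Real.exp u * Real.exp (v - u) := by
    rw [← Real.exp_add]; congr 1; ring
  have h3 := Real.add_one_le_exp (v - u)
  rw [h2]
  nlinarith [Real.exp_pos u]

lemma pow_le_norm {x : mixedSpace F} {t : ℝ} (ht : 0 ≤ t) (h : ∀ w, t ≤ normAtPlace w x) :
    t ^ finrank ℚ F ≤ mixedEmbedding.norm x := by
  rw [mixedEmbedding.norm_apply, ← sum_mult_eq, ← Finset.prod_pow_eq_pow_sum]
  exact Finset.prod_le_prod (fun w _ => pow_nonneg ht _) fun w _ => pow_le_pow_left₀ ht (h w) _

lemma rpow_neg_le_inv {N : ℝ} (hN : 1 ≤ N) {s : ℝ} (hs : 1 ≤ s) : N ^ (-s) ≤ N⁻¹ := by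
  rw [← Real.rpow_neg_one]
  exact Real.rpow_le_rpow_of_exponent_le hN (by linarith)

variable (F)

open scoped Classical in
lemma reg1 (ρ : ℝ) (hρ : 0 ≤ ρ) : ∃ R C : ℝ, 1 ≤ R ∧ 0 ≤ C ∧ ∀ s, 1 ≤ s → s ≤ 2 →
    ∀ S, ∀ x z : mixedSpace F, phi x ≠ 0 → ‖x - z‖ ≤ ρ → R ≤ ‖x‖ →
    |fs s S x - fs s S z| ≤ C * (‖x‖ ^ (finrank ℚ F + 1))⁻¹ := by
  obtain ⟨c, hc0, hc1, hc⟩ := exists_bal F
  obtain ⟨C₁, hC₁, hphi⟩ := exists_phi_sub F
  set d := finrank ℚ F with hd
  refine ⟨(2 + 4 * ρ) / c, (C₁ + 2 * d) * (2 * ρ / c) * (2 / c) ^ d, ?_, by positivity, ?_⟩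
  · rw [le_div_iff₀ hc0]; linarith
  intro s hs1 hs2 S x z hx hxz hR
  have hR' : 2 + 4 * ρ ≤ c * ‖x‖ := by
    rw [div_le_iff₀ hc0] at hR
    linarith
  have hx0 : 0 < ‖x‖ := by
    by_contra hn
    have h0 : ‖x‖ = 0 := le_antisymm (not_lt.1 hn) (norm_nonneg x)
    rw [h0] at hR'
    linarith
  set t := c * ‖x‖ / 2 with ht
  have ht1 : 1 ≤ t := by rw [ht]; linarith
  have hxw := hc x hx
  have hbt : ∀ w, t ≤ normAtPlace w z := by
    intro w
    have h1 := abs_le.1 (abs_normAtPlace_sub w x z)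
    have h2 := hxw w
    rw [ht]
    linarith [h1.2]
  have hat : ∀ w, t ≤ normAtPlace w x := by
    intro w
    have h2 := hxw w
    rw [ht]
    linarith
  have hNx := pow_le_norm (by linarith) hat
  have hNz := pow_le_norm (by linarith) hbt
  have htd : 1 ≤ t ^ d := one_le_pow₀ ht1
  have hNx1 : 1 ≤ mixedEmbedding.norm x := htd.trans hNx
  have hNz1 : 1 ≤ mixedEmbedding.norm z := htd.trans hNz
  have hnx : mixedEmbedding.norm x ≠ 0 := by
    intro h; rw [h] at hNx1; linarith
  have hnz : mixedEmbedding.norm z ≠ 0 := by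
    intro h; rw [h] at hNz1; linarith
  have hsign : signSet x = signSet z := by
    apply signSet_eq
    intro w
    have h2 := hxw w
    linarith
  set η := 2 * ρ / (c * ‖x‖) with hη
  have hη0 : 0 ≤ η := by positivity
  have hlog : ∀ w, |Real.log (normAtPlace w x) - Real.log (normAtPlace w z)| ≤ η := by
    intro w
    have h2 := hxw w
    have h3 := abs_normAtPlace_sub w x z
    have ha : 0 < normAtPlace w x := by linarith
    have h4 : |normAtPlace w x - normAtPlace w z| ≤ normAtPlace w x / 2 := by linarith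
    refine (abs_log_sub ha h4).trans ?_
    rw [hη]
    apply div_le_div₀ (by positivity) (by linarith) (by positivity) h2
  have hA : |phi x - phi z| ≤ C₁ * η := hphi x z hnx hnz η hlog
  have hN : |Real.log (mixedEmbedding.norm x) - Real.log (mixedEmbedding.norm z)| ≤ d * η := by
    rw [log_norm hnx, log_norm hnz, ← Finset.sum_sub_distrib]
    refine (Finset.abs_sum_le_sum_abs _ _).trans ?_
    have h3 : (∑ w : InfinitePlace F, (mult w : ℝ)) = d := by
      exact_mod_cast sum_mult_eq (K := F)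
    rw [← h3, Finset.sum_mul]
    refine Finset.sum_le_sum fun w _ => ?_
    rw [← mul_sub, abs_mul, Nat.abs_cast]
    exact mul_le_mul_of_nonneg_left (hlog w) (Nat.cast_nonneg _)
  have hXs : mixedEmbedding.norm x ^ (-s) ≤ (t ^ d)⁻¹ :=
    (rpow_neg_le_inv hNx1 hs1).trans (inv_anti₀ (by positivity) hNx)
  have hZs : mixedEmbedding.norm z ^ (-s) ≤ (t ^ d)⁻¹ :=
    (rpow_neg_le_inv hNz1 hs1).trans (inv_anti₀ (by positivity) hNz)
  have hdiff : |mixedEmbedding.norm x ^ (-s) - mixedEmbedding.norm z ^ (-s)| ≤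
      2 * (d * η) * (t ^ d)⁻¹ := by
    rw [Real.rpow_def_of_pos (by linarith), Real.rpow_def_of_pos (by linarith)]
    refine (abs_exp_sub _ _).trans ?_
    rw [← Real.rpow_def_of_pos (by linarith), ← Real.rpow_def_of_pos (by linarith), ← sub_mul,
      abs_mul, abs_neg, abs_of_nonneg (by linarith : (0 : ℝ) ≤ s)]
    apply mul_le_mul _ (max_le hXs hZs) (le_max_of_le_left (Real.rpow_nonneg (by linarith) _))
      (by positivity)
    calc _ ≤ (d * η) * 2 := mul_le_mul hN hs2 (by linarith) (by positivity)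
      _ = 2 * (d * η) := by ring
  have hfinal : ((C₁ + 2 * d) * (2 * ρ / c) * (2 / c) ^ d) * (‖x‖ ^ (d + 1))⁻¹ =
      (C₁ * η) * (t ^ d)⁻¹ + 2 * (d * η) * (t ^ d)⁻¹ := by
    rw [hη, ht, pow_succ]
    simp only [div_pow, mul_pow]
    field_simp
  rw [hfinal]
  unfold fs
  rw [← hsign, max_eq_right hNx1, max_eq_right hNz1]
  split_ifs with hS
  · have h1 : phi x * mixedEmbedding.norm x ^ (-s) - phi z * mixedEmbedding.norm z ^ (-s) =
        (phi x - phi z) * mixedEmbedding.norm x ^ (-s) +
        phi z * (mixedEmbedding.norm x ^ (-s) - mixedEmbedding.norm z ^ (-s)) := by ring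
    rw [h1]
    refine (abs_add_le _ _).trans (add_le_add ?_ ?_)
    · rw [abs_mul]
      apply mul_le_mul hA _ (abs_nonneg _) (by positivity)
      rw [abs_of_nonneg (Real.rpow_nonneg (by linarith) _)]
      exact hXs
    · rw [abs_mul]
      have h2 : |phi z| ≤ 1 := by
        rw [abs_of_nonneg (phi_nonneg z)]
        exact phi_le_one z
      exact (mul_le_of_le_one_left (abs_nonneg _) h2).trans hdiff
  · rw [sub_zero, abs_zero]
    positivity

open scoped Classical in
/-- The summand varies slowly. -/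
lemma reg2 (ρ : ℝ) (hρ : 0 ≤ ρ) : ∃ R C : ℝ, 1 ≤ R ∧ 0 ≤ C ∧ ∀ s, 1 ≤ s → s ≤ 2 →
    ∀ S, ∀ x z : mixedSpace F, ‖x - z‖ ≤ ρ → R ≤ ‖x‖ →
    |fs s S x - fs s S z| ≤ C * (‖x‖ ^ (finrank ℚ F + 1))⁻¹ := by
  obtain ⟨R, C, hR1, hC0, h⟩ := reg1 F ρ hρ
  set d := finrank ℚ F with hd
  refine ⟨2 * R + 2 * ρ, C * 2 ^ (d + 1), by linarith, by positivity, ?_⟩
  intro s hs1 hs2 S x z hxz hRx
  have hx0 : 0 < ‖x‖ := by linarith
  by_cases hx : phi x = 0
  · by_cases hz : phi z = 0
    · rw [fs_of_phi_eq_zero s S hx, fs_of_phi_eq_zero s S hz, sub_zero, abs_zero]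
      positivity
    · have hzn : ‖x‖ / 2 ≤ ‖z‖ := by
        have h1 : ‖x‖ ≤ ‖x - z‖ + ‖z‖ := by
          have := norm_add_le (x - z) z
          rwa [sub_add_cancel] at this
        linarith
      have h2 : ‖z - x‖ ≤ ρ := by rwa [norm_sub_rev]
      have h3 : R ≤ ‖z‖ := by linarith
      have h4 := h s hs1 hs2 S z x hz h2 h3
      rw [abs_sub_comm]
      refine h4.trans ?_
      rw [mul_assoc]
      apply mul_le_mul_of_nonneg_left _ hC0
      have h5 : (‖x‖ / 2) ^ (d + 1) ≤ ‖z‖ ^ (d + 1) := pow_le_pow_left₀ (by positivity) hzn _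
      refine (inv_anti₀ (by positivity) h5).trans ?_
      rw [div_pow, inv_div]
      rw [div_eq_mul_inv]
  · have h4 := h s hs1 hs2 S x z hx hxz (by linarith)
    refine h4.trans ?_
    have h6 : (1 : ℝ) ≤ 2 ^ (d + 1) := one_le_pow₀ (by norm_num)
    apply mul_le_mul_of_nonneg_right _ (by positivity)
    nlinarith

open scoped Classical in
/-- The size of the summand. -/
lemma fs_le {s : ℝ} (hs : 0 ≤ s) : ∃ C : ℝ, 0 ≤ C ∧ ∀ S, ∀ x : mixedSpace F, 0 < ‖x‖ →
    fs s S x ≤ C * ‖x‖ ^ (-(finrank ℚ F * s)) := by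
  obtain ⟨c, hc0, hc1, hc⟩ := exists_bal F
  set d := finrank ℚ F with hd
  refine ⟨c ^ (-(d * s)), by positivity, ?_⟩
  intro S x hx
  by_cases h0 : phi x = 0
  · rw [fs_of_phi_eq_zero s S h0]
    positivity
  have h1 := pow_le_norm (by positivity) (hc x h0)
  unfold fs
  split_ifs
  · have h2 : (c * ‖x‖) ^ d ≤ max 1 (mixedEmbedding.norm x) := h1.trans (le_max_right _ _)
    have h3 : (max 1 (mixedEmbedding.norm x)) ^ (-s) ≤ ((c * ‖x‖) ^ d) ^ (-s) :=
      Real.rpow_le_rpow_of_nonpos (by positivity) h2 (by linarith)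
    have h4 : ((c * ‖x‖) ^ d) ^ (-s) = c ^ (-(d * s)) * ‖x‖ ^ (-(d * s)) := by
      rw [← Real.rpow_natCast, ← Real.rpow_mul (by positivity),
        Real.mul_rpow hc0.le hx.le]
      congr 2 <;> ring
    rw [← h4]
    refine le_trans ?_ h3
    exact mul_le_of_le_one_left (max_norm_rpow_nonneg s x) (phi_le_one x)
  · positivity

end reg

end Pool.Agent.STc
end

section

/-!
# Sums over principal ideals as sums over elements
-/

open NumberField NumberField.mixedEmbedding NumberField.InfinitePlace NumberField.Units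
  NumberField.Units.dirichletUnitTheorem Module MeasureTheory Pool.Agent.ST

namespace Pool.Agent.STc

section unf

variable {F : Type*} [Field F] [NumberField F]

/-- Nonzero elements of an ideal. -/
abbrev NzE (J : Ideal (𝓞 F)) := {x : 𝓞 F // x ∈ J ∧ x ≠ 0}

/-- Nonzero principal ideals inside an ideal. -/
abbrev PId (J : Ideal (𝓞 F)) := {I : NzI F // (∃ x, I.1 = Ideal.span {x}) ∧ I.1 ≤ J}

/-- The ideal generated by an element. -/
def toP {J : Ideal (𝓞 F)} (x : NzE J) : PId J :=
  ⟨⟨Ideal.span {x.1}, by rw [Ne, Ideal.span_singleton_eq_bot]; exact x.2.2⟩, ⟨x.1, rfl⟩,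
    (Ideal.span_singleton_le_iff_mem J).2 x.2.1⟩

lemma norm_emb (x : 𝓞 F) :
    mixedEmbedding.norm (mixedEmbedding F (x : F)) = (Ideal.absNorm (Ideal.span {x}) : ℝ) := by
  rw [mixedEmbedding.norm_eq_norm, Ideal.absNorm_span_singleton, ← Algebra.coe_norm_int]
  simp [Nat.cast_natAbs]

lemma norm_emb_ne {x : 𝓞 F} (hx : x ≠ 0) : mixedEmbedding.norm (mixedEmbedding F (x : F)) ≠ 0 := by
  rw [norm_emb, Ne, Nat.cast_eq_zero, Ideal.absNorm_eq_zero_iff, Ideal.span_singleton_eq_bot]
  exact hx

lemma one_le_norm_emb {x : 𝓞 F} (hx : x ≠ 0) :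
    1 ≤ mixedEmbedding.norm (mixedEmbedding F (x : F)) := by
  have h := norm_emb_ne hx
  rw [norm_emb] at h ⊢
  have h2 : Ideal.absNorm (Ideal.span {x}) ≠ 0 := by exact_mod_cast h
  exact_mod_cast Nat.one_le_iff_ne_zero.2 h2

/-- The summand for elements. -/
noncomputable def eterm (h : Ideal (𝓞 F) → ℝ) (s : ℝ) (x : 𝓞 F) : ℝ :=
  h (Ideal.span {x}) * (Ideal.absNorm (Ideal.span {x}) : ℝ) ^ (-s) * phi (mixedEmbedding F (x : F))

/-- The units parametrize the fibers. -/
noncomputable def fibEquiv {J : Ideal (𝓞 F)} (x₀ : NzE J) :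
    (𝓞 F)ˣ ≃ {x : NzE J // toP x = toP x₀} :=
  Equiv.ofBijective (fun u => ⟨⟨u * x₀.1, J.mul_mem_left _ x₀.2.1,
      mul_ne_zero u.ne_zero x₀.2.2⟩, by
        apply Subtype.ext
        apply Subtype.ext
        show Ideal.span {(u : 𝓞 F) * x₀.1} = Ideal.span {x₀.1}
        rw [Ideal.span_singleton_eq_span_singleton]
        exact (associated_unit_mul_left x₀.1 (u : 𝓞 F) u.isUnit)⟩) (by
    constructor
    · intro u v huv
      have h1 := congrArg (fun x => x.1.1) huv
      exact Units.ext (mul_right_cancel₀ x₀.2.2 h1)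
    · intro x
      have h1 : Ideal.span {x.1.1} = Ideal.span {x₀.1} :=
        congrArg (fun x => x.1.1) x.2
      rw [Ideal.span_singleton_eq_span_singleton] at h1
      obtain ⟨u, hu⟩ := h1.symm
      refine ⟨u, Subtype.ext (Subtype.ext ?_)⟩
      show (u : 𝓞 F) * x₀.1 = x.1.1
      rw [← hu, mul_comm])

omit [NumberField F] in
lemma fibEquiv_val {J : Ideal (𝓞 F)} (x₀ : NzE J) (u : (𝓞 F)ˣ) :
    (fibEquiv x₀ u).1.1 = (u : 𝓞 F) * x₀.1 := rfl

lemma hasSum_fib (h : Ideal (𝓞 F) → ℝ) (s : ℝ) {J : Ideal (𝓞 F)} (I : PId J) :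
    HasSum (fun x : {x : NzE J // toP x = I} => eterm h s x.1.1)
      (h I.1.1 * (Ideal.absNorm I.1.1 : ℝ) ^ (-s) * torsionOrder F) := by
  obtain ⟨⟨I, hI0⟩, ⟨x₀, hx₀⟩, hIJ⟩ := I
  dsimp only at hx₀
  subst hx₀
  have hx0 : x₀ ≠ 0 := by
    intro h0
    apply hI0
    rw [h0, Ideal.span_singleton_eq_bot]
  have hxJ : x₀ ∈ J := (Ideal.span_singleton_le_iff_mem J).1 hIJ
  have h1 := hasSum_phi (norm_emb_ne hx0)
  have h2 := h1.mul_left (h (Ideal.span {x₀}) * (Ideal.absNorm (Ideal.span {x₀}) : ℝ) ^ (-s))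
  have h3 := (fibEquiv (⟨x₀, hxJ, hx0⟩ : NzE J)).symm.hasSum_iff.2 h2
  refine h3.congr_fun ?_
  intro x
  obtain ⟨u, rfl⟩ := (fibEquiv (⟨x₀, hxJ, hx0⟩ : NzE J)).surjective x
  rw [Function.comp_apply, Equiv.symm_apply_apply]
  unfold eterm
  have h4 : Ideal.span {(fibEquiv (⟨x₀, hxJ, hx0⟩ : NzE J) u).1.1} = Ideal.span {x₀} :=
    congrArg (fun x => x.1.1) (fibEquiv (⟨x₀, hxJ, hx0⟩ : NzE J) u).2
  rw [h4, unitSMul_smul, fibEquiv_val, ← map_mul]
  rfl

lemma summable_PId (J : Ideal (𝓞 F)) {s : ℝ} (hs : 1 < s) :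
    Summable fun I : PId J => (Ideal.absNorm I.1.1 : ℝ) ^ (-s) :=
  (summable_ideal F hs).comp_injective (i := fun I : PId J => I.1) Subtype.val_injective

lemma summable_eterm_one (J : Ideal (𝓞 F)) {s : ℝ} (hs : 1 < s) :
    Summable fun x : NzE J => eterm (fun _ => 1) s x.1 := by
  rw [← (Equiv.sigmaFiberEquiv (toP : NzE J → PId J)).summable_iff]
  rw [summable_sigma_of_nonneg]
  · constructor
    · intro I
      exact (hasSum_fib (fun _ => 1) s I).summable
    · have h1 : ∀ I : PId J, ∑' y : {x : NzE J // toP x = I}, (((fun x : NzE J =>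
          eterm (fun _ => 1) s x.1) ∘ (Equiv.sigmaFiberEquiv (toP : NzE J → PId J))) ⟨I, y⟩) =
          (Ideal.absNorm I.1.1 : ℝ) ^ (-s) * torsionOrder F := by
        intro I
        have := (hasSum_fib (fun _ => 1) s I).tsum_eq
        rw [one_mul] at this
        exact this
      refine ((summable_PId J hs).mul_right (torsionOrder F : ℝ)).congr fun I => ?_
      exact (h1 I).symm
  · intro x
    simp only [Function.comp_apply, eterm, one_mul]
    exact mul_nonneg (by positivity) (phi_nonneg _)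

lemma summable_eterm (h : Ideal (𝓞 F) → ℝ) (hh : ∀ I, |h I| ≤ 1) (J : Ideal (𝓞 F)) {s : ℝ}
    (hs : 1 < s) : Summable fun x : NzE J => eterm h s x.1 := by
  refine Summable.of_norm_bounded (summable_eterm_one J hs) fun x => ?_
  unfold eterm
  rw [Real.norm_eq_abs, abs_mul, abs_mul, abs_of_nonneg (phi_nonneg _), one_mul]
  apply mul_le_mul_of_nonneg_right _ (phi_nonneg _)
  rw [abs_of_nonneg (by positivity : (0 : ℝ) ≤ (Ideal.absNorm (Ideal.span {x.1}) : ℝ) ^ (-s))]
  exact mul_le_of_le_one_left (by positivity) (hh _)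

/-- Sums over principal ideals as sums over elements. -/
theorem tsum_eterm (h : Ideal (𝓞 F) → ℝ) (hh : ∀ I, |h I| ≤ 1) (J : Ideal (𝓞 F)) {s : ℝ}
    (hs : 1 < s) : ∑' x : NzE J, eterm h s x.1 =
      torsionOrder F * ∑' I : PId J, h I.1.1 * (Ideal.absNorm I.1.1 : ℝ) ^ (-s) := by
  rw [← (Equiv.sigmaFiberEquiv (toP : NzE J → PId J)).tsum_eq]
  rw [Summable.tsum_sigma' ?_ ?_]
  · rw [← tsum_mul_left]
    refine tsum_congr fun I => ?_
    rw [mul_comm]
    exact (hasSum_fib h s I).tsum_eq
  · intro I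
    exact (hasSum_fib h s I).summable
  · exact (Equiv.sigmaFiberEquiv (toP : NzE J → PId J)).summable_iff.2 (summable_eterm h hh J hs)

end unf

end Pool.Agent.STc
end

section

/-!
# Sums over translates of lattices
-/

open NumberField NumberField.mixedEmbedding NumberField.InfinitePlace NumberField.Units
  NumberField.Units.dirichletUnitTheorem Module MeasureTheory

namespace Pool.Agent.STc

section meas

variable {F : Type*} [Field F] [NumberField F]

lemma measurable_logMap : Measurable (logMap : mixedSpace F → logSpace F) := by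
  rw [measurable_pi_iff]
  intro w
  simp only [logMap_apply]
  have h1 : Measurable fun x : mixedSpace F => normAtPlace w.1 x :=
    (continuous_normAtPlace w.1).measurable
  have h2 : Measurable fun x : mixedSpace F => mixedEmbedding.norm x :=
    (mixedEmbedding.continuous_norm F).measurable
  exact ((Real.measurable_log.comp h1).sub ((Real.measurable_log.comp h2).mul_const _)).const_mul _

lemma measurable_tc (i : Fin (rank F)) : Measurable fun x : mixedSpace F => tc x i := by
  have h1 : Measurable fun v : logSpace F => (ub F).repr v i := by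
    have : Continuous ((ub F).coord i) := LinearMap.continuous_of_finiteDimensional _
    exact this.measurable
  exact h1.comp measurable_logMap

lemma measurable_phi : Measurable (phi : mixedSpace F → ℝ) := by
  unfold phi
  have h2 : Measurable fun x : mixedSpace F => mixedEmbedding.norm x :=
    (mixedEmbedding.continuous_norm F).measurable
  refine Measurable.ite (h2 (measurableSet_singleton 0)) measurable_const ?_
  exact Finset.measurable_prod _ fun i _ => continuous_tent.measurable.comp (measurable_tc i)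

lemma measurableSet_signSet (S : Set {w : InfinitePlace F // IsReal w}) :
    MeasurableSet {x : mixedSpace F | signSet x = S} := by
  have h1 : {x : mixedSpace F | signSet x = S} =
      ⋂ w : {w : InfinitePlace F // IsReal w}, {x : mixedSpace F | x.1 w ≤ 0 ↔ w ∈ S} := by
    ext x
    simp only [Set.mem_ofPred_eq, Set.mem_iInter, Set.ext_iff]
    rfl
  rw [h1]
  refine MeasurableSet.iInter fun w => ?_
  have h2 : MeasurableSet {x : mixedSpace F | x.1 w ≤ 0} :=
    measurableSet_le ((measurable_pi_apply w).comp measurable_fst) measurable_const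
  by_cases hw : w ∈ S
  · have h3 : {x : mixedSpace F | x.1 w ≤ 0 ↔ w ∈ S} = {x : mixedSpace F | x.1 w ≤ 0} := by
      ext x; simp [hw]
    rw [h3]; exact h2
  · have h3 : {x : mixedSpace F | x.1 w ≤ 0 ↔ w ∈ S} = {x : mixedSpace F | x.1 w ≤ 0}ᶜ := by
      ext x; simp [hw]
    rw [h3]; exact h2.compl

lemma measurable_fs (s : ℝ) (S : Set {w : InfinitePlace F // IsReal w}) :
    Measurable (fs s S) := by
  unfold fs
  have h2 : Measurable fun x : mixedSpace F => mixedEmbedding.norm x :=
    (mixedEmbedding.continuous_norm F).measurable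
  refine Measurable.ite (measurableSet_signSet S) ?_ measurable_const
  exact measurable_phi.mul ((measurable_const.max h2).pow_const _)

lemma apply_ne_zero {x : mixedSpace F} (hx : mixedEmbedding.norm x ≠ 0)
    (w : {w : InfinitePlace F // IsReal w}) : x.1 w ≠ 0 := by
  have h := normAtPlace_ne_zero hx w.1
  rw [normAtPlace_apply_of_isReal w.2] at h
  exact norm_ne_zero_iff.1 h

lemma fs_negAt (s : ℝ) (S : Set {w : InfinitePlace F // IsReal w}) (x : mixedSpace F) :
    fs s S (negAt S x) = fs s ∅ x := by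
  have hphi : phi (negAt S x) = phi x := phi_eq_of_normAtPlace_eq fun w => normAtPlace_negAt S x w
  by_cases h0 : phi x = 0
  · rw [fs_of_phi_eq_zero s ∅ h0, fs_of_phi_eq_zero s S (hphi.trans h0)]
  obtain ⟨hn, -⟩ := phi_ne_zero h0
  have h1 : signSet (negAt S x) = S ↔ signSet x = ∅ := by
    constructor
    · intro h
      rw [Set.eq_empty_iff_forall_notMem]
      intro w hw
      have hw' : x.1 w ≤ 0 := hw
      have h2 : w ∈ signSet (negAt S x) ↔ w ∈ S := by rw [h]
      have h3 : w ∈ signSet (negAt S x) ↔ (negAt S x).1 w ≤ 0 := Iff.rfl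
      by_cases hS : w ∈ S
      · rw [negAt_apply_isReal_and_mem _ hS] at h3
        have h4 : -x.1 w ≤ 0 := h3.1 (h2.2 hS)
        exact apply_ne_zero hn w (le_antisymm hw' (by linarith))
      · rw [negAt_apply_isReal_and_notMem _ hS] at h3
        exact hS (h2.1 (h3.2 hw'))
    · intro h
      ext w
      have h5 : 0 < x.1 w := by
        by_contra hc
        have : w ∈ signSet x := not_lt.1 hc
        rw [h] at this
        exact this
      show (negAt S x).1 w ≤ 0 ↔ w ∈ S
      by_cases hS : w ∈ S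
      · rw [negAt_apply_isReal_and_mem _ hS]
        simp only [hS, iff_true]
        linarith
      · rw [negAt_apply_isReal_and_notMem _ hS]
        simp only [hS, iff_false, not_le]
        exact h5
  unfold fs
  rw [hphi, norm_negAt]
  by_cases h6 : signSet x = ∅
  · rw [if_pos (h1.2 h6), if_pos h6]
  · rw [if_neg fun h => h6 (h1.1 h), if_neg h6]

open scoped Classical in
lemma integral_fs (s : ℝ) (S : Set {w : InfinitePlace F // IsReal w}) :
    ∫ x : mixedSpace F, fs s S x = ∫ x : mixedSpace F, fs s ∅ x := by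
  have h1 : MeasurePreserving (negAt S : mixedSpace F → mixedSpace F) := volume_preserving_negAt
  have h2 : MeasurableEmbedding (negAt S : mixedSpace F → mixedSpace F) :=
    (negAt S).toHomeomorph.measurableEmbedding
  rw [← h1.integral_comp h2]
  exact integral_congr_ae (Filter.Eventually.of_forall fun x => fs_negAt s S x)

end meas

section lat

variable {F : Type*} [Field F] [NumberField F]

open scoped Classical in
lemma summable_of_lt {L : Submodule ℤ (mixedSpace F)} [DiscreteTopology L] [IsZLattice ℝ L]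
    (a : mixedSpace F) {r : ℝ} (hr : finrank ℚ F < r) (R : ℝ) (C : ℝ) {f : L → ℝ}
    (hf0 : ∀ l, 0 ≤ f l) (hf : ∀ l : L, R ≤ ‖a + l‖ → f l ≤ C * ‖a + l‖ ^ (-r)) :
    Summable f := by
  have hrank : finrank ℤ L = finrank ℚ F := by
    rw [ZLattice.rank ℝ L, mixedEmbedding.finrank]
  have h1 : Summable fun l : L => ‖(l : mixedSpace F) - (-a)‖ ^ (-r) := by
    apply ZLattice.summable_norm_sub_rpow L (-r)
    rw [hrank]
    linarith
  have h2 : Summable fun l : L => C * ‖(l : mixedSpace F) - (-a)‖ ^ (-r) := h1.mul_left C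
  refine Summable.of_norm_bounded_eventually h2 ?_
  have H : IsClosed (L : Set (mixedSpace F)) := @AddSubgroup.isClosed_of_discrete _ _ _ _ _
    L.toAddSubgroup (inferInstanceAs (DiscreteTopology L))
  refine ((Metric.finite_isBounded_inter_isClosed DiscreteTopology.isDiscrete
    (Metric.isBounded_closedBall (x := (0 : mixedSpace F)) (r := R + ‖a‖)) H).preimage_embedding
    (.subtype _)).subset ?_
  intro l hl
  have hl' : ¬ ‖f l‖ ≤ C * ‖(l : mixedSpace F) - (-a)‖ ^ (-r) := hl
  refine ⟨?_, l.2⟩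
  by_contra hn
  apply hl'
  rw [Real.norm_of_nonneg (hf0 l)]
  have h3 : (l : mixedSpace F) - (-a) = a + l := by abel
  rw [h3]
  apply hf
  have h4 : ¬ (‖(l : mixedSpace F)‖ ≤ R + ‖a‖) := by
    simpa using hn
  have h5 : ‖(l : mixedSpace F)‖ ≤ ‖a + l‖ + ‖a‖ := by
    have := norm_sub_le (a + (l : mixedSpace F)) a
    rwa [add_sub_cancel_left] at this
  linarith

open scoped Classical in
lemma summable_fs {L : Submodule ℤ (mixedSpace F)} [DiscreteTopology L] [IsZLattice ℝ L]
    (a : mixedSpace F) {s : ℝ} (hs : 1 < s) (S : Set {w : InfinitePlace F // IsReal w}) :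
    Summable fun l : L => fs s S (a + l) := by
  obtain ⟨C, hC0, hC⟩ := fs_le F (by linarith : (0 : ℝ) ≤ s)
  have hd : (0 : ℝ) < finrank ℚ F := by
    have : 0 < finrank ℚ F := finrank_pos
    positivity
  refine summable_of_lt a (r := finrank ℚ F * s) (by nlinarith) 1 C (fun l => fs_nonneg _ _ _) ?_
  intro l hl
  exact hC S _ (by linarith)

open scoped Classical in
/-- Comparison of the sum over a translate of a lattice with the integral. -/
theorem lattice_fs (L : Submodule ℤ (mixedSpace F)) [DiscreteTopology L] [IsZLattice ℝ L]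
    (a : mixedSpace F) (S : Set {w : InfinitePlace F // IsReal w}) :
    ∃ C : ℝ, ∀ s : ℝ, 1 < s → s ≤ 2 →
      |ZLattice.covolume L * ∑' l : L, fs s S (a + l) - ∫ x : mixedSpace F, fs s ∅ x| ≤ C := by
  set b := Module.Free.chooseBasis ℤ L with hb
  set D := ZSpan.fundamentalDomain (b.ofZLatticeBasis ℝ) with hD
  obtain ⟨ρ, hρ0, hρ⟩ := (ZSpan.fundamentalDomain_isBounded (b.ofZLatticeBasis ℝ)).exists_pos_norm_le
  obtain ⟨R, C, hR1, hC0, hreg⟩ := reg2 F ρ hρ0.le
  set d := finrank ℚ F with hd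
  set g : L → ℝ := fun l => if ‖a + l‖ < R then 1 else C * (‖a + l‖ ^ (d + 1))⁻¹ with hg
  have hg0 : ∀ l, 0 ≤ g l := by
    intro l
    simp only [hg]
    split_ifs
    · exact zero_le_one
    · positivity
  have hgs : Summable g := by
    refine summable_of_lt a (r := d + 1) (by linarith) R C hg0 ?_
    intro l hl
    simp only [hg]
    rw [if_neg (not_lt.2 hl)]
    apply le_of_eq
    rw [Real.rpow_neg (norm_nonneg _)]
    congr 2
    rw [← Real.rpow_natCast]
    push_cast
    rfl
  refine ⟨volume.real D * ∑' l, g l, ?_⟩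
  intro s hs1 hs2
  have hcov : ZLattice.covolume L = volume.real D := by
    rw [ZLattice.covolume_eq_measure_fundamentalDomain L volume
      (ZLattice.isAddFundamentalDomain b volume)]
  have hmain := (lattice_compare b volume (f := fs s S) (fun x => fs_nonneg s S x)
    (measurable_fs s S) a hgs ?_ (summable_fs a hs1 S)).2
  · rw [hcov, ← integral_fs s S]
    exact hmain
  · intro l y hy
    have hy' : ‖y‖ ≤ ρ := hρ y hy
    simp only [hg]
    split_ifs with hlt
    · have h1 := fs_nonneg s S (a + l)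
      have h2 := fs_le_one (by linarith : (0 : ℝ) ≤ s) S (a + l)
      have h3 := fs_nonneg s S (a + l + y)
      have h4 := fs_le_one (by linarith : (0 : ℝ) ≤ s) S (a + l + y)
      rw [abs_le]
      constructor <;> linarith
    · apply hreg s hs1.le hs2 S _ _ _ (not_lt.1 hlt)
      have : a + (l : mixedSpace F) - (a + l + y) = -y := by abel
      rw [this, norm_neg]
      exact hy'

end lat

end Pool.Agent.STc
end
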