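import Pool.Agent.Lib.MP_1ef7cf_nt.Defs
import Pool.Agent.Lib.MP_1ef7cf_nt.PrimeSum
import Pool.Agent.Lib.MP_1ef7cf_nt_b.Val
import Pool.Agent.Lib.MP_1ef7cf_nt.Abelian
import Pool.Agent.Lib.MP_1ef7cf_nt.RCG3
import Pool.Agent.Lib.MP_1ef7cf_nt.Frob2

section

/-!
# Elements with even valuations modulo squares
-/

open NumberField IsDedekindDomain nonZeroDivisors

namespace Pool.Agent.STc

open Pool.Agent.ST Pool.Agent.STb

section reps

variable {M : Type*} [Field M] [NumberField M]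

/-- valuation and count -/
lemma val_eq_exp_count (P : PrI M) {x : M} (hx : x ≠ 0) :
    P.valuation M x =
      WithZero.exp (-FractionalIdeal.count M P (FractionalIdeal.spanSingleton (𝓞 M)⁰ x)) := by
  classical
  obtain ⟨a, b, hb, rfl⟩ := IsFractionRing.div_surjective (A := 𝓞 M) x
  have hb0 : b ≠ 0 := nonZeroDivisors.ne_zero hb
  have ha0 : a ≠ 0 := by
    rintro rfl
    simp at hx
  have key : ∀ c : 𝓞 M, c ≠ 0 → P.valuation M (algebraMap (𝓞 M) M c) =
      WithZero.exp (-FractionalIdeal.count M P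
        (FractionalIdeal.spanSingleton (𝓞 M)⁰ (algebraMap (𝓞 M) M c))) := by
    intro c hc
    rw [HeightOneSpectrum.valuation_of_algebraMap, P.intValuation_if_neg hc,
      ← FractionalIdeal.coeIdeal_span_singleton, FractionalIdeal.count_coe]
    rw [Ne, Ideal.zero_eq_bot, Ideal.span_singleton_eq_bot]
    exact hc
  have hne : ∀ c : 𝓞 M, c ≠ 0 →
      FractionalIdeal.spanSingleton (𝓞 M)⁰ (algebraMap (𝓞 M) M c) ≠ 0 := by
    intro c hc
    rw [FractionalIdeal.spanSingleton_ne_zero_iff]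
    exact fun h => hc (RingOfIntegers.coe_injective (by rw [h, map_zero]))
  rw [map_div₀, key a ha0, key b hb0, div_eq_mul_inv (algebraMap (𝓞 M) M a),
    ← FractionalIdeal.spanSingleton_mul_spanSingleton, ← FractionalIdeal.spanSingleton_inv,
    FractionalIdeal.count_mul M P (hne a ha0) (inv_ne_zero (hne b hb0)),
    FractionalIdeal.count_inv, ← WithZero.exp_sub]
  congr 1
  ring

lemma even_count {P : PrI M} {x : M} (hx : x ≠ 0) (h : SqAt P x) :
    Even (FractionalIdeal.count M P (FractionalIdeal.spanSingleton (𝓞 M)⁰ x)) := by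
  have h1 := (sqAt_iff (val_eq_exp_count P hx)).1 h
  rwa [even_neg] at h1

/-- the square root of an ideal -/
lemma exists_sqrt_ideal {x : M} (hx : x ≠ 0) (h : ∀ P : PrI M, SqAt P x) :
    ∃ B : (FI M)ˣ, (B : FI M) ^ 2 = FractionalIdeal.spanSingleton (𝓞 M)⁰ x := by
  classical
  have hx0 : FractionalIdeal.spanSingleton (𝓞 M)⁰ x ≠ 0 := by
    rwa [FractionalIdeal.spanSingleton_ne_zero_iff]
  have hfin : {v : PrI M | FractionalIdeal.count M v
      (FractionalIdeal.spanSingleton (𝓞 M)⁰ x) ≠ 0}.Finite := by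
    have := FractionalIdeal.finite_factors (K := M) (R := 𝓞 M)
      (FractionalIdeal.spanSingleton (𝓞 M)⁰ x)
    rwa [Filter.eventually_cofinite] at this
  set S := hfin.toFinset with hS
  have hprod : FractionalIdeal.spanSingleton (𝓞 M)⁰ x =
      ∏ v ∈ S, (v.asIdeal : FI M) ^ FractionalIdeal.count M v
        (FractionalIdeal.spanSingleton (𝓞 M)⁰ x) := by
    conv_lhs => rw [← FractionalIdeal.finprod_heightOneSpectrum_factorization' M hx0]
    rw [finprod_eq_prod_of_mulSupport_subset]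
    intro v hv
    rw [hS, Set.Finite.coe_toFinset]
    intro h0
    rw [Function.mem_mulSupport, h0, zpow_zero] at hv
    exact hv rfl
  set B : FI M := ∏ v ∈ S, (v.asIdeal : FI M) ^ (FractionalIdeal.count M v
        (FractionalIdeal.spanSingleton (𝓞 M)⁰ x) / 2) with hB
  have hB2 : B ^ 2 = FractionalIdeal.spanSingleton (𝓞 M)⁰ x := by
    rw [hB, ← Finset.prod_pow]
    conv_rhs => rw [hprod]
    refine Finset.prod_congr rfl fun v _ => ?_
    rw [← zpow_natCast, ← zpow_mul]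
    congr 1
    have := even_count hx (h v)
    have h2 := Int.ediv_mul_cancel this.two_dvd
    exact_mod_cast h2
  have hB0 : B ≠ 0 := by
    intro h0
    rw [h0] at hB2
    apply hx0
    rw [← hB2]
    simp
  exact ⟨Units.mk0 B hB0, hB2⟩

lemma rel_of_class {x x' : M} {B B' : (FI M)ˣ}
    (hB : (B : FI M) ^ 2 = FractionalIdeal.spanSingleton (𝓞 M)⁰ x)
    (hB' : (B' : FI M) ^ 2 = FractionalIdeal.spanSingleton (𝓞 M)⁰ x')
    (h : ClassGroup.mk M B = ClassGroup.mk M B') :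
    ∃ (u : (𝓞 M)ˣ) (c : M), x = ((u : 𝓞 M) : M) * (x' * c ^ 2) := by
  have h1 : ClassGroup.mk M (B * B'⁻¹) = 1 := by
    rw [map_mul, map_inv, h, mul_inv_cancel]
  rw [ClassGroup.mk_eq_one_iff, FractionalIdeal.isPrincipal_iff] at h1
  obtain ⟨c, hc⟩ := h1
  have h2 : (B : FI M) = FractionalIdeal.spanSingleton (𝓞 M)⁰ c * (B' : FI M) := by
    rw [← hc, ← Units.val_mul]
    congr 1
    rw [inv_mul_cancel_right]
  have h3 : FractionalIdeal.spanSingleton (𝓞 M)⁰ (x' * c ^ 2) =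
      FractionalIdeal.spanSingleton (𝓞 M)⁰ x := by
    rw [← hB, h2, mul_pow, hB', FractionalIdeal.spanSingleton_pow,
      FractionalIdeal.spanSingleton_mul_spanSingleton, mul_comm]
  obtain ⟨u, hu⟩ := FractionalIdeal.spanSingleton_eq_spanSingleton.1 h3
  refine ⟨u, c, ?_⟩
  rw [← hu, Units.smul_def, Algebra.smul_def]

/-- the subgroup of squares -/
noncomputable def sqs (M : Type*) [Field M] : Subgroup Mˣ := (powMonoidHom 2 : Mˣ →* Mˣ).range

lemma mk_sqs_eq_iff {M : Type*} [Field M] {a b : Mˣ} :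
    (QuotientGroup.mk a : Mˣ ⧸ sqs M) = QuotientGroup.mk b ↔ ∃ s : Mˣ, b = a * s ^ 2 := by
  rw [QuotientGroup.eq]
  unfold sqs
  rw [MonoidHom.mem_range]
  constructor
  · rintro ⟨s, hs⟩
    refine ⟨s, ?_⟩
    rw [powMonoidHom_apply] at hs
    rw [hs, mul_inv_cancel_left]
  · rintro ⟨s, rfl⟩
    refine ⟨s, ?_⟩
    rw [powMonoidHom_apply, inv_mul_cancel_left]

/-- finiteness from finiteness of the fibres -/
lemma finite_of_fib {α β γ : Type*} (p : α → β) {A : Set α} (f : α → γ) (hf : (f '' A).Finite)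
    (h : ∀ a ∈ A, (p '' (A ∩ f ⁻¹' {f a})).Finite) : (p '' A).Finite := by
  have h1 : p '' A ⊆ ⋃ c ∈ f '' A, p '' (A ∩ f ⁻¹' {c}) := by
    rintro _ ⟨a, ha, rfl⟩
    simp only [Set.mem_iUnion]
    exact ⟨f a, ⟨a, ha, rfl⟩, a, ⟨ha, rfl⟩, rfl⟩
  refine Set.Finite.subset (hf.biUnion ?_) h1
  rintro _ ⟨a, ha, rfl⟩
  exact h a ha

variable (M) in
lemma finite_units_mod_squares :
    (Set.range fun u : (𝓞 M)ˣ =>
      (QuotientGroup.mk (Units.map (algebraMap (𝓞 M) M : 𝓞 M →* M) u) : Mˣ ⧸ sqs M)).Finite := by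
  let f : (𝓞 M)ˣ →* (Mˣ ⧸ sqs M) :=
    (QuotientGroup.mk' (sqs M)).comp (Units.map (algebraMap (𝓞 M) M : 𝓞 M →* M))
  have hfg0 : Group.FG (𝓞 M)ˣ := Group.fg_iff_monoid_fg.2 inferInstance
  have hfg : Group.FG f.range := inferInstance
  have htor : IsMulTorsion f.range := by
    rintro ⟨_, ⟨u, rfl⟩⟩
    rw [isOfFinOrder_iff_pow_eq_one]
    refine ⟨2, by norm_num, ?_⟩
    apply Subtype.ext
    change (QuotientGroup.mk ((Units.map (algebraMap (𝓞 M) M : 𝓞 M →* M) u) ^ 2) :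
      Mˣ ⧸ sqs M) = QuotientGroup.mk 1
    rw [eq_comm, mk_sqs_eq_iff]
    exact ⟨Units.map (algebraMap (𝓞 M) M : 𝓞 M →* M) u, by rw [one_mul]⟩
  have : Finite f.range := CommGroup.finite_of_fg_isMulTorsion _ htor
  exact Set.toFinite (f.range : Set (Mˣ ⧸ sqs M))

open Classical in
/-- auxiliary: the class of the square root of `(x)` -/
noncomputable def sqc (x : Mˣ) : ClassGroup (𝓞 M) :=
  if h : ∃ B : (FI M)ˣ, (B : FI M) ^ 2 = FractionalIdeal.spanSingleton (𝓞 M)⁰ (x : M) then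
    ClassGroup.mk M h.choose else 1

variable (M) in
lemma finite_even : ((QuotientGroup.mk : Mˣ → Mˣ ⧸ sqs M) ''
    {x : Mˣ | ∀ P : PrI M, SqAt P (x : M)}).Finite := by
  apply finite_of_fib _ (sqc (M := M))
  · exact Set.toFinite _
  · intro a ha
    refine ((finite_units_mod_squares M).image
      (fun z => z * (QuotientGroup.mk a : Mˣ ⧸ sqs M))).subset ?_
    rintro _ ⟨b, ⟨hb, hab⟩, rfl⟩
    have h1 := exists_sqrt_ideal a.ne_zero ha
    have h2 := exists_sqrt_ideal b.ne_zero hb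
    have h3 : sqc b = sqc a := hab
    unfold sqc at h3
    rw [dif_pos h1, dif_pos h2] at h3
    obtain ⟨u, c, hu⟩ := rel_of_class h2.choose_spec h1.choose_spec h3
    have hc0 : c ≠ 0 := by
      rintro rfl
      apply b.ne_zero
      rw [hu]
      ring
    refine ⟨_, ⟨u, rfl⟩, ?_⟩
    change (QuotientGroup.mk (Units.map (algebraMap (𝓞 M) M : 𝓞 M →* M) u * a) : Mˣ ⧸ sqs M) =
      QuotientGroup.mk b
    rw [mk_sqs_eq_iff]
    refine ⟨Units.mk0 c hc0, ?_⟩
    apply Units.ext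
    rw [hu]
    simp only [Units.val_mul, Units.val_pow_eq_pow_val, Units.val_mk0, Units.coe_map,
      MonoidHom.coe_coe]
    ring

/-- **C1.** Finiteness of the group of the elements with even valuations outside `D` modulo squares. -/
theorem exists_reps (D : Set (PrI M)) (hD : D.Finite) :
    ∃ T : Finset M, (∀ t ∈ T, t ≠ 0) ∧ ∀ x : M, x ≠ 0 → (∀ P : PrI M, P ∉ D → SqAt P x) →
      ∃ t ∈ T, ∃ s : M, s ≠ 0 ∧ x = t * s ^ 2 := by
  classical
  have hfin : ((QuotientGroup.mk : Mˣ → Mˣ ⧸ sqs M) ''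
      {x : Mˣ | ∀ P : PrI M, P ∉ D → SqAt P (x : M)}).Finite := by
    apply finite_of_fib _ (fun x : Mˣ => {P ∈ D | SqAt P (x : M)})
    · refine hD.finite_subsets.subset ?_
      rintro _ ⟨x, _, rfl⟩
      exact fun P hP => hP.1
    · intro a ha
      refine ((finite_even M).image
        (fun z => z * (QuotientGroup.mk a : Mˣ ⧸ sqs M)⁻¹)).subset ?_
      rintro _ ⟨b, ⟨hb, hab⟩, rfl⟩
      refine ⟨QuotientGroup.mk (b * a), ⟨b * a, ?_, rfl⟩, ?_⟩
      · intro P
        rw [Units.val_mul]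
        apply SqAt.mul_of_iff b.ne_zero a.ne_zero
        by_cases hP : P ∈ D
        · have h1 : ({P ∈ D | SqAt P (b : M)} : Set (PrI M)) = {P ∈ D | SqAt P (a : M)} := hab
          have h2 := Set.ext_iff.1 h1 P
          constructor
          · intro h3; exact (h2.1 ⟨hP, h3⟩).2
          · intro h3; exact (h2.2 ⟨hP, h3⟩).2
        · exact ⟨fun _ => ha P hP, fun _ => hb P hP⟩
      · change (QuotientGroup.mk (b * a * a⁻¹) : Mˣ ⧸ sqs M) = QuotientGroup.mk b
        rw [mul_inv_cancel_right]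
  refine ⟨hfin.toFinset.image fun c => ((Quotient.out c : Mˣ) : M), ?_, ?_⟩
  · intro t ht
    rw [Finset.mem_image] at ht
    obtain ⟨c, -, rfl⟩ := ht
    exact Units.ne_zero _
  · intro x hx h
    set u : Mˣ := Units.mk0 x hx with hu
    refine ⟨((Quotient.out (QuotientGroup.mk u : Mˣ ⧸ sqs M) : Mˣ) : M), ?_, ?_⟩
    · rw [Finset.mem_image]
      exact ⟨_, (Set.Finite.mem_toFinset _).2 ⟨u, h, rfl⟩, rfl⟩
    · have h1 : (QuotientGroup.mk (Quotient.out (QuotientGroup.mk u : Mˣ ⧸ sqs M)) :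
        Mˣ ⧸ sqs M) = QuotientGroup.mk u := QuotientGroup.out_eq' _
      obtain ⟨s, hs⟩ := mk_sqs_eq_iff.1 h1
      refine ⟨s, s.ne_zero, ?_⟩
      have h2 := congrArg Units.val hs
      rw [hu] at h2
      simpa using h2

end reps

end Pool.Agent.STc
end

section

/-!
# Kummer theory over the complex numbers
-/

set_option linter.unusedSectionVars false

open NumberField IsDedekindDomain nonZeroDivisors IntermediateField Polynomial

namespace Pool.Agent.STd

open Pool.Agent.ST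

section
variable {K : Type*} [Field K] [Algebra K ℝ]

/-- the field generated by the `2 ^ N`-th roots of `e` and the roots of unity of order
`2 ^ (N + 1)`. -/
noncomputable def MN (e : K) (N : ℕ) : IntermediateField K ℂ :=
  IntermediateField.adjoin K {x : ℂ | x ^ (2 ^ N) = algebraMap K ℂ e ∨ x ^ (2 ^ (N + 1)) = 1}

/-- the roots of a nonzero polynomial generate a finite Galois extension -/
lemma adjoin_roots_fd (p : K[X]) (hp : p ≠ 0) :
    FiniteDimensional K (IntermediateField.adjoin K {x : ℂ | aeval x p = 0}) ∧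
      IsGalois K (IntermediateField.adjoin K {x : ℂ | aeval x p = 0}) := by
  have := charZero_base K
  have h1 : {x : ℂ | aeval x p = 0} = p.rootSet ℂ := by
    ext x
    rw [Set.mem_ofPred_eq, mem_rootSet]
    exact ⟨fun h => ⟨hp, h⟩, fun h => h.2⟩
  rw [h1]
  have h2 : IsSplittingField K (IntermediateField.adjoin K (p.rootSet ℂ)) p :=
    IntermediateField.adjoin_rootSet_isSplittingField (IsAlgClosed.splits _)
  have h3 : FiniteDimensional K (IntermediateField.adjoin K (p.rootSet ℂ)) :=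
    IsSplittingField.finiteDimensional _ p
  have h4 : Normal K (IntermediateField.adjoin K (p.rootSet ℂ)) := Normal.of_isSplittingField p
  exact ⟨h3, ⟨⟩⟩

lemma MN_eq (e : K) (N : ℕ) : MN e N = IntermediateField.adjoin K {x : ℂ | aeval x
    ((X ^ (2 ^ N) - C e) * (X ^ (2 ^ (N + 1)) - C 1)) = 0} := by
  unfold MN
  congr 1
  ext x
  simp only [Set.mem_ofPred_eq, map_mul, map_sub, map_pow, aeval_X, aeval_C, mul_eq_zero, sub_eq_zero,
    map_one]

lemma root_ne {a : K} {n : ℕ} (hn : 0 < n) : (X ^ n - C a : K[X]) ≠ 0 :=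
  (monic_X_pow_sub_C a hn.ne').ne_zero

theorem fd_MN (e : K) (N : ℕ) : FiniteDimensional K (MN e N) := by
  rw [MN_eq]
  exact (adjoin_roots_fd _ (mul_ne_zero (root_ne (by positivity)) (root_ne (by positivity)))).1

theorem gal_MN (e : K) (N : ℕ) : IsGalois K (MN e N) := by
  rw [MN_eq]
  exact (adjoin_roots_fd _ (mul_ne_zero (root_ne (by positivity)) (root_ne (by positivity)))).2

lemma adjoin_root_fd (β : K) {n : ℕ} (hn : 0 < n) :
    FiniteDimensional K (IntermediateField.adjoin K {x : ℂ | x ^ n = algebraMap K ℂ β}) ∧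
      IsGalois K (IntermediateField.adjoin K {x : ℂ | x ^ n = algebraMap K ℂ β}) := by
  have h1 : {x : ℂ | x ^ n = algebraMap K ℂ β} = {x : ℂ | aeval x (X ^ n - C β) = 0} := by
    ext x
    simp only [Set.mem_ofPred_eq, map_sub, map_pow, aeval_X, aeval_C, sub_eq_zero]
  rw [h1]
  exact adjoin_roots_fd _ (root_ne hn)

/-- the field generated by the `2 ^ N`-th roots of `β` over `MN e N` is Galois over `K` -/
theorem gal_MNβ (e β : K) (N : ℕ) : IsGalois K
    (MN e N ⊔ IntermediateField.adjoin K {x : ℂ | x ^ (2 ^ N) = algebraMap K ℂ β} :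
      IntermediateField K ℂ) := by
  have := charZero_base K
  have h1 := gal_MN e N
  have h2 := (adjoin_root_fd β (n := 2 ^ N) (by positivity)).2
  have : Normal K (MN e N ⊔ IntermediateField.adjoin K {x : ℂ | x ^ (2 ^ N) = algebraMap K ℂ β} :
      IntermediateField K ℂ) := inferInstance
  exact ⟨⟩

theorem fd_MNβ (e β : K) (N : ℕ) : FiniteDimensional K
    (MN e N ⊔ IntermediateField.adjoin K {x : ℂ | x ^ (2 ^ N) = algebraMap K ℂ β} :
      IntermediateField K ℂ) := by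
  have h1 := fd_MN e N
  have h2 := (adjoin_root_fd β (n := 2 ^ N) (by positivity)).1
  exact IntermediateField.finiteDimensional_sup _ _

/-- the field generated by the roots of unity -/
noncomputable def KZ (K : Type*) [Field K] [Algebra K ℝ] (n : ℕ) : IntermediateField K ℂ :=
  IntermediateField.adjoin K {x : ℂ | x ^ n = 1}

lemma KZ_fd {n : ℕ} (hn : 0 < n) : FiniteDimensional K (KZ K n) ∧ IsGalois K (KZ K n) := by
  have h := adjoin_root_fd (1 : K) hn
  have h1 : {x : ℂ | x ^ n = algebraMap K ℂ 1} = {x : ℂ | x ^ n = 1} := by rw [map_one]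
  rw [h1] at h
  exact h

/-- the Galois group of the cyclotomic extension commutes with complex conjugation -/
lemma KZ_conj {n : ℕ} (hn : 0 < n) (σ : KZ K n ≃ₐ[K] KZ K n) (y : KZ K n) :
    ∃ z : KZ K n, (z : ℂ) = (starRingEnd ℂ) (y : ℂ) ∧
      ((σ z : KZ K n) : ℂ) = (starRingEnd ℂ) ((σ y : KZ K n) : ℂ) := by
  obtain ⟨hfd, hgal⟩ := KZ_fd (K := K) hn
  let c : ℂ →ₐ[K] ℂ := (Complex.conjAe : ℂ ≃ₐ[ℝ] ℂ).toAlgHom.restrictScalars K
  have hc : ∀ z : ℂ, c z = (starRingEnd ℂ) z := fun z => rfl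
  have hrange := AlgHom.fieldRange_of_normal (E := KZ K n) (c.comp (KZ K n).val)
  have hmem : ∀ z ∈ KZ K n, (starRingEnd ℂ) z ∈ KZ K n := by
    intro z hz
    have h1 : c z ∈ (c.comp (KZ K n).val).fieldRange := ⟨⟨z, hz⟩, rfl⟩
    rw [hrange] at h1
    exact h1
  -- two homomorphisms
  let f₁ : KZ K n →ₐ[K] ℂ := c.comp ((KZ K n).val.comp (σ : KZ K n →ₐ[K] KZ K n))
  let c' : KZ K n →ₐ[K] KZ K n := (c.comp (KZ K n).val).codRestrict (KZ K n).toSubalgebra
    (fun z => hmem _ z.2)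
  let f₂ : KZ K n →ₐ[K] ℂ := (KZ K n).val.comp ((σ : KZ K n →ₐ[K] KZ K n).comp c')
  have hf : f₁ = f₂ := by
    apply IntermediateField.adjoin_algHom_ext
    intro x hx
    have hx1 : x ^ n = 1 := hx
    set x' : KZ K n := ⟨x, subset_adjoin K _ hx⟩ with hx'
    have h0 : x' ^ n = 1 := Subtype.ext hx1
    have h0' : (σ x') ^ n = 1 := by rw [← map_pow, h0, map_one]
    have habs : ∀ z : ℂ, z ^ n = 1 → (starRingEnd ℂ) z = z⁻¹ := by
      intro z hz
      have h1 : ‖z‖ = 1 := by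
        have := congrArg norm hz
        rw [norm_pow, norm_one] at this
        exact (pow_eq_one_iff_of_nonneg (norm_nonneg _) hn.ne').1 this
      rw [Complex.inv_def, Complex.normSq_eq_norm_sq, h1]
      simp
    have h1 : f₁ x' = (((σ x' : KZ K n) : ℂ))⁻¹ := habs _ (by
      have := congrArg (fun z : KZ K n => (z : ℂ)) h0'
      simpa using this)
    have h2 : c' x' = x'⁻¹ := by
      apply Subtype.ext
      exact habs x hx1
    have h3 : f₂ x' = (((σ x' : KZ K n) : ℂ))⁻¹ := by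
      change ((σ (c' x') : KZ K n) : ℂ) = _
      rw [h2, map_inv₀]
      rfl
    exact h1.trans h3.symm
  refine ⟨c' y, rfl, ?_⟩
  exact (DFunLike.congr_fun hf y).symm

/-- **Kummer theory**, first part. -/
lemma kummer_aux {e β : K} (he : e ≠ 0) (hβ : β ≠ 0) {N : ℕ} {w : ℂ} (hw : w ∈ MN e N)
    (h : w ^ (2 ^ N) = algebraMap K ℂ β) :
    ∃ (j : ℕ) (y : ℂ), y ∈ KZ K (2 ^ (N + 1)) ∧ y ^ (2 ^ N) = algebraMap K ℂ (β / e ^ j) := by
  classical
  set n := 2 ^ N with hn
  have hn0 : 0 < n := by positivity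
  have hMfd := fd_MN e N
  have hMgal := gal_MN e N
  have hKM : KZ K (2 ^ (N + 1)) ≤ MN e N := by
    unfold KZ MN
    rw [adjoin_le_iff]
    intro x hx
    exact subset_adjoin K _ (Or.inr hx)
  obtain ⟨ρ, hρ⟩ := IsAlgClosed.exists_pow_nat_eq (algebraMap K ℂ e) hn0
  have hρM : ρ ∈ MN e N := subset_adjoin K _ (Or.inl hρ)
  have he' : algebraMap K ℂ e ≠ 0 := (_root_.map_ne_zero _).2 he
  have hβ' : algebraMap K ℂ β ≠ 0 := (_root_.map_ne_zero _).2 hβ
  let M := MN e N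
  let k₀ : IntermediateField K M := IntermediateField.restrict hKM
  let Γ : Subgroup (M ≃ₐ[K] M) := k₀.fixingSubgroup
  have hfixed : IntermediateField.fixedField Γ = k₀ := IsGalois.fixedField_fixingSubgroup k₀
  -- roots of unity are fixed
  have hroot : ∀ z : M, z ^ n = 1 → z ∈ k₀ := by
    intro z hz
    rw [IntermediateField.mem_restrict]
    apply subset_adjoin K
    change (z : ℂ) ^ (2 ^ (N + 1)) = 1
    have h1 : (z : ℂ) ^ n = 1 := by
      have := congrArg (fun z : M => (z : ℂ)) hz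
      simpa using this
    rw [pow_succ, pow_mul, ← hn, h1, one_pow]
  -- the Kummer characters
  have hchar : ∀ (a : M) (b : K), a ≠ 0 → a ^ n = algebraMap K M b →
      ∃ χ : Γ →* M, ∀ σ : Γ, χ σ = (σ : M ≃ₐ[K] M) a / a := by
    intro a b ha hab
    have hpow : ∀ σ : M ≃ₐ[K] M, (σ a / a) ^ n = 1 := by
      intro σ
      rw [div_pow, ← map_pow, hab, AlgEquiv.commutes, div_self]
      rw [← hab]; exact pow_ne_zero _ ha
    have hfix : ∀ (σ : Γ) (τ : M ≃ₐ[K] M), (σ : M ≃ₐ[K] M) (τ a / a) = τ a / a := by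
      intro σ τ
      have h1 := (IntermediateField.mem_fixingSubgroup_iff k₀ σ.1).1 σ.2 _ (hroot _ (hpow τ))
      exact h1
    refine ⟨{ toFun := fun σ => (σ : M ≃ₐ[K] M) a / a
              map_one' := by
                rw [Subgroup.coe_one, AlgEquiv.one_apply, div_self ha]
              map_mul' := ?_ }, fun σ => rfl⟩
    intro σ τ
    have h1 := hfix σ τ
    have hσa : (σ : M ≃ₐ[K] M) a ≠ 0 := (_root_.map_ne_zero _).2 ha
    rw [map_div₀] at h1
    rw [Subgroup.coe_mul, AlgEquiv.mul_apply]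
    have h2 : (σ : M ≃ₐ[K] M) ((τ : M ≃ₐ[K] M) a) = ((τ : M ≃ₐ[K] M) a / a) * (σ : M ≃ₐ[K] M) a := by
      rw [← h1, div_mul_cancel₀ _ hσa]
    rw [h2]
    field_simp
  set ρ' : M := ⟨ρ, hρM⟩ with hρ'
  set w' : M := ⟨w, hw⟩ with hw'
  have hρ'n : ρ' ^ n = algebraMap K M e := Subtype.ext hρ
  have hw'n : w' ^ n = algebraMap K M β := Subtype.ext h
  have hρ0 : ρ' ≠ 0 := by
    intro h0
    rw [h0, zero_pow hn0.ne'] at hρ'n
    exact he ((map_eq_zero _).1 hρ'n.symm)
  have hw0 : w' ≠ 0 := by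
    intro h0
    rw [h0, zero_pow hn0.ne'] at hw'n
    exact hβ ((map_eq_zero _).1 hw'n.symm)
  obtain ⟨χ, hχ⟩ := hchar ρ' e hρ0 hρ'n
  obtain ⟨ψ, hψ⟩ := hchar w' β hw0 hw'n
  have hinj : Function.Injective χ := by
    rw [injective_iff_map_eq_one]
    intro σ hσ
    rw [hχ, div_eq_one_iff_eq hρ0] at hσ
    apply Subtype.ext
    apply AlgEquiv.ext
    have h1 : MN e N ≤ IntermediateField.lift
        (IntermediateField.fixedField (Subgroup.zpowers (σ : M ≃ₐ[K] M))) := by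
      have hmem : ∀ z : M, (σ : M ≃ₐ[K] M) z = z → (z : ℂ) ∈ IntermediateField.lift
          (IntermediateField.fixedField (Subgroup.zpowers (σ : M ≃ₐ[K] M))) := by
        intro z hz
        rw [IntermediateField.mem_lift, IntermediateField.mem_fixedField_iff]
        intro τ hτ
        obtain ⟨k, rfl⟩ := Subgroup.mem_zpowers_iff.1 hτ
        have h2 : (σ : M ≃ₐ[K] M) ∈ MulAction.stabilizer (M ≃ₐ[K] M) z := hz
        exact (MulAction.stabilizer (M ≃ₐ[K] M) z).zpow_mem h2 k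
      conv_lhs => unfold MN
      rw [adjoin_le_iff]
      intro x hx
      have hxM : x ∈ MN e N := subset_adjoin K _ hx
      refine hmem ⟨x, hxM⟩ ?_
      rcases hx with hx | hx
      · have h3 : (⟨x, hxM⟩ : M) / ρ' ∈ k₀ := by
          apply hroot
          apply Subtype.ext
          change (x / ρ) ^ n = 1
          rw [div_pow, hρ, hx, div_self he']
        have h4 := (IntermediateField.mem_fixingSubgroup_iff k₀ σ.1).1 σ.2 _ h3
        have h5 : (⟨x, hxM⟩ : M) = (⟨x, hxM⟩ : M) / ρ' * ρ' := (div_mul_cancel₀ _ hρ0).symm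
        rw [h5, map_mul, h4, hσ]
      · have h3 : (⟨x, hxM⟩ : M) ∈ k₀ := by
          rw [IntermediateField.mem_restrict]
          exact subset_adjoin K _ hx
        exact (IntermediateField.mem_fixingSubgroup_iff k₀ σ.1).1 σ.2 _ h3
    intro z
    have h2 := h1 z.2
    rw [IntermediateField.mem_lift, IntermediateField.mem_fixedField_iff] at h2
    exact h2 _ (Subgroup.mem_zpowers _)
  have hcyc : IsCyclic Γ := isCyclic_of_injective_ringHom χ hinj
  obtain ⟨σ₀, hσ₀⟩ := IsCyclic.exists_generator (α := Γ)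
  have hprim : IsPrimitiveRoot (χ σ₀) (orderOf σ₀) := by
    have := IsPrimitiveRoot.orderOf (χ σ₀)
    rwa [orderOf_injective χ hinj σ₀] at this
  have hpos : 0 < orderOf σ₀ := orderOf_pos σ₀
  have : NeZero (orderOf σ₀) := ⟨hpos.ne'⟩
  obtain ⟨j, -, hj⟩ := hprim.eq_pow_of_pow_eq_one (ξ := ψ σ₀) (by
    rw [← map_pow, pow_orderOf_eq_one, map_one])
  -- the quotient is fixed
  have hy : w' / ρ' ^ j ∈ k₀ := by
    rw [← hfixed, IntermediateField.mem_fixedField_iff]
    have h1 : (σ₀ : M ≃ₐ[K] M) (w' / ρ' ^ j) = w' / ρ' ^ j := by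
      rw [hψ, hχ] at hj
      have hσρ : (σ₀ : M ≃ₐ[K] M) ρ' ≠ 0 := (_root_.map_ne_zero _).2 hρ0
      rw [map_div₀, map_pow]
      rw [div_pow, eq_div_iff hw0] at hj
      rw [← hj]
      field_simp
    intro τ hτ
    obtain ⟨k, hk⟩ := Subgroup.mem_zpowers_iff.1 (hσ₀ ⟨τ, hτ⟩)
    have h2 : τ = (σ₀ : M ≃ₐ[K] M) ^ k := (congrArg Subtype.val hk).symm
    rw [h2]
    have h3 : (σ₀ : M ≃ₐ[K] M) ∈ MulAction.stabilizer (M ≃ₐ[K] M) (w' / ρ' ^ j) := h1
    exact (MulAction.stabilizer (M ≃ₐ[K] M) (w' / ρ' ^ j)).zpow_mem h3 k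
  refine ⟨j, ((w' / ρ' ^ j : M) : ℂ), (IntermediateField.mem_restrict hKM _).1 hy, ?_⟩
  change (w / ρ ^ j) ^ n = _
  rw [div_pow, h, ← pow_mul, mul_comm, pow_mul, hρ, map_div₀, map_pow]

/-- **Kummer theory.** -/
theorem kummer {e β : K} (he : e ≠ 0) (hβ : β ≠ 0) {N : ℕ} {w : ℂ} (hw : w ∈ MN e N)
    (h : w ^ (2 ^ N) = algebraMap K ℂ β) :
    ∃ (j : ℕ) (t : K), t ^ (2 ^ N) = (β / e ^ j) ^ 2 := by
  obtain ⟨j, y, hy, hyn⟩ := kummer_aux he hβ hw h
  refine ⟨j, ?_⟩
  set x : K := β / e ^ j with hx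
  have hx0 : x ≠ 0 := div_ne_zero hβ (pow_ne_zero _ he)
  obtain ⟨hfd, hgal⟩ := KZ_fd (K := K) (n := 2 ^ (N + 1)) (by positivity)
  have hreal : (starRingEnd ℂ) (algebraMap K ℂ x) = algebraMap K ℂ x := by
    rw [IsScalarTower.algebraMap_apply K ℝ ℂ]
    exact Complex.conj_ofReal _
  have hy0 : y ≠ 0 := by
    intro h0
    rw [h0, zero_pow (by positivity)] at hyn
    exact hx0 ((map_eq_zero _).1 hyn.symm)
  set y' : KZ K (2 ^ (N + 1)) := ⟨y, hy⟩ with hy'
  obtain ⟨z, hz, -⟩ := KZ_conj (by positivity) (1 : KZ K (2 ^ (N + 1)) ≃ₐ[K] _) y'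
  have hfix : ∀ σ : KZ K (2 ^ (N + 1)) ≃ₐ[K] KZ K (2 ^ (N + 1)), σ (y' * z) = y' * z := by
    intro σ
    obtain ⟨z', hz', hz''⟩ := KZ_conj (by positivity) σ y'
    have hzz : z' = z := Subtype.ext (hz'.trans hz.symm)
    rw [hzz] at hz''
    apply Subtype.ext
    rw [map_mul]
    change ((σ y' : KZ K (2 ^ (N + 1))) : ℂ) * ((σ z : KZ K (2 ^ (N + 1))) : ℂ) = y * (z : ℂ)
    rw [hz'', hz, Complex.mul_conj, Complex.mul_conj]
    congr 1
    rw [Complex.normSq_eq_norm_sq, Complex.normSq_eq_norm_sq]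
    congr 1
    have h1 : ((σ y' : KZ K (2 ^ (N + 1))) : ℂ) ^ (2 ^ N) = y ^ (2 ^ N) := by
      have h2 : (σ y') ^ (2 ^ N) = y' ^ (2 ^ N) := by
        have h3 : y' ^ (2 ^ N) = algebraMap K _ x := Subtype.ext hyn
        rw [← map_pow, h3, AlgEquiv.commutes]
      have := congrArg (fun z : KZ K (2 ^ (N + 1)) => (z : ℂ)) h2
      simpa using this
    have h4 := congrArg norm h1
    rw [norm_pow, norm_pow] at h4
    exact (pow_left_inj₀ (norm_nonneg _) (norm_nonneg _) (by positivity)).1 h4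
  have hbot : y' * z ∈ (⊥ : IntermediateField K (KZ K (2 ^ (N + 1)))) :=
    (IsGalois.mem_bot_iff_fixed _).2 hfix
  obtain ⟨t, ht⟩ := IntermediateField.mem_bot.1 hbot
  refine ⟨t, ?_⟩
  apply (algebraMap K ℂ).injective
  have ht' : algebraMap K ℂ t = y * (starRingEnd ℂ) y := by
    have := congrArg (fun z : KZ K (2 ^ (N + 1)) => (z : ℂ)) ht
    rw [← hz]
    exact this
  rw [map_pow, ht', mul_pow, ← map_pow, hyn, hreal, map_pow, pow_two]

/-- the field `K(√d)` inside the real numbers -/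
noncomputable def QF (s : ℝ) (d : K) (hd : s ^ 2 = algebraMap K ℝ d) : IntermediateField K ℝ where
  carrier := {x | ∃ a b : K, x = algebraMap K ℝ a + algebraMap K ℝ b * s}
  mul_mem' := by
    rintro _ _ ⟨a, b, rfl⟩ ⟨a', b', rfl⟩
    refine ⟨a * a' + b * b' * d, a * b' + b * a', ?_⟩
    simp only [map_add, map_mul, ← hd]
    ring
  add_mem' := by
    rintro _ _ ⟨a, b, rfl⟩ ⟨a', b', rfl⟩
    refine ⟨a + a', b + b', ?_⟩
    simp only [map_add]
    ring
  algebraMap_mem' := by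
    intro a
    exact ⟨a, 0, by simp⟩
  inv_mem' := by
    rintro _ ⟨a, b, rfl⟩
    by_cases h : a ^ 2 = b ^ 2 * d
    · have h1 : (algebraMap K ℝ a + algebraMap K ℝ b * s) *
          (algebraMap K ℝ a - algebraMap K ℝ b * s) = 0 := by
        have : (algebraMap K ℝ a + algebraMap K ℝ b * s) *
          (algebraMap K ℝ a - algebraMap K ℝ b * s) = algebraMap K ℝ (a ^ 2 - b ^ 2 * d) := by
          simp only [map_sub, map_mul, map_pow, ← hd]
          ring
        rw [this, h, sub_self, map_zero]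
      rcases mul_eq_zero.1 h1 with h2 | h2
      · rw [h2, inv_zero]
        exact ⟨0, 0, by simp⟩
      · have h3 : algebraMap K ℝ b * s = algebraMap K ℝ a := (sub_eq_zero.1 h2).symm
        rw [h3]
        refine ⟨(a + a)⁻¹, 0, ?_⟩
        rw [map_inv₀, map_add, map_zero, zero_mul, add_zero]
    · have h0 : a ^ 2 - b ^ 2 * d ≠ 0 := sub_ne_zero.2 h
      have h0' : algebraMap K ℝ (a ^ 2 - b ^ 2 * d) ≠ 0 := (_root_.map_ne_zero _).2 h0
      refine ⟨a * (a ^ 2 - b ^ 2 * d)⁻¹, - b * (a ^ 2 - b ^ 2 * d)⁻¹, ?_⟩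
      have h1 : (algebraMap K ℝ a + algebraMap K ℝ b * s) *
          (algebraMap K ℝ a - algebraMap K ℝ b * s) = algebraMap K ℝ (a ^ 2 - b ^ 2 * d) := by
        simp only [map_sub, map_mul, map_pow, ← hd]
        ring
      apply inv_eq_of_mul_eq_one_right
      rw [map_mul, map_mul, map_inv₀, map_neg]
      have h2 : (algebraMap K ℝ a + algebraMap K ℝ b * s) *
        (algebraMap K ℝ a * (algebraMap K ℝ (a ^ 2 - b ^ 2 * d))⁻¹ +
          -algebraMap K ℝ b * (algebraMap K ℝ (a ^ 2 - b ^ 2 * d))⁻¹ * s) =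
          ((algebraMap K ℝ a + algebraMap K ℝ b * s) *
          (algebraMap K ℝ a - algebraMap K ℝ b * s)) *
            (algebraMap K ℝ (a ^ 2 - b ^ 2 * d))⁻¹ := by ring
      rw [h2, h1, mul_inv_cancel₀ h0']

lemma mem_QF {s : ℝ} {d : K} {hd : s ^ 2 = algebraMap K ℝ d} {x : ℝ} :
    x ∈ QF s d hd ↔ ∃ a b : K, x = algebraMap K ℝ a + algebraMap K ℝ b * s := Iff.rfl

/-- the field of complex numbers with real and imaginary parts in `F` -/
noncomputable def FI2 (F : IntermediateField K ℝ) : IntermediateField K ℂ where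
  carrier := {z | z.re ∈ F ∧ z.im ∈ F}
  mul_mem' := by
    rintro z w ⟨h1, h2⟩ ⟨h3, h4⟩
    refine ⟨?_, ?_⟩
    · rw [Complex.mul_re]
      exact F.sub_mem (F.mul_mem h1 h3) (F.mul_mem h2 h4)
    · rw [Complex.mul_im]
      exact F.add_mem (F.mul_mem h1 h4) (F.mul_mem h2 h3)
  add_mem' := by
    rintro z w ⟨h1, h2⟩ ⟨h3, h4⟩
    exact ⟨F.add_mem h1 h3, F.add_mem h2 h4⟩
  algebraMap_mem' := by
    intro a
    rw [IsScalarTower.algebraMap_apply K ℝ ℂ]
    exact ⟨F.algebraMap_mem a, F.zero_mem⟩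
  inv_mem' := by
    rintro z ⟨h1, h2⟩
    have h3 : Complex.normSq z ∈ F := by
      rw [Complex.normSq_apply]
      exact F.add_mem (F.mul_mem h1 h1) (F.mul_mem h2 h2)
    refine ⟨?_, ?_⟩
    · rw [Complex.inv_re]
      exact F.div_mem h1 h3
    · rw [Complex.inv_im]
      exact F.div_mem (F.neg_mem h2) h3

lemma sq_real {z : ℂ} {r : ℝ} (h : z ^ 2 = (r : ℂ)) {F : IntermediateField K ℝ}
    (hF : Real.sqrt |r| ∈ F) : z.re ∈ F ∧ z.im ∈ F := by
  have h1 := congrArg Complex.re h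
  have h2 := congrArg Complex.im h
  rw [pow_two, Complex.mul_re, Complex.ofReal_re] at h1
  rw [pow_two, Complex.mul_im, Complex.ofReal_im] at h2
  have key : ∀ t : ℝ, t ^ 2 = |r| → t ∈ F := by
    intro t ht
    have h3 : |t| = Real.sqrt |r| := by rw [← ht, Real.sqrt_sq_eq_abs]
    rcases abs_choice t with h4 | h4
    · rw [← h4, h3]; exact hF
    · have h5 : t = - Real.sqrt |r| := by rw [← h3, h4, neg_neg]
      rw [h5]; exact F.neg_mem hF
  have h3 : z.re * z.im = 0 := by linarith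
  rcases mul_eq_zero.1 h3 with h4 | h4
  · refine ⟨by rw [h4]; exact F.zero_mem, key _ ?_⟩
    rw [h4] at h1
    have h5 : r = - (z.im ^ 2) := by rw [← h1]; ring
    rw [h5, abs_neg, abs_of_nonneg (sq_nonneg _)]
  · refine ⟨key _ ?_, by rw [h4]; exact F.zero_mem⟩
    rw [h4] at h1
    have h5 : r = z.re ^ 2 := by rw [← h1]; ring
    rw [h5, abs_of_nonneg (sq_nonneg _)]

/-- real elements of `MN e 1` -/
theorem real_MN_one {e : K} {x : ℝ} (hx : (x : ℂ) ∈ MN e 1) :
    ∃ a b : K, x = algebraMap K ℝ a + algebraMap K ℝ b * Real.sqrt |algebraMap K ℝ e| := by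
  set r : ℝ := algebraMap K ℝ e with hr
  obtain ⟨d, hd⟩ : ∃ d : K, Real.sqrt |r| ^ 2 = algebraMap K ℝ d := by
    rw [Real.sq_sqrt (abs_nonneg _)]
    rcases abs_choice r with h | h
    · exact ⟨e, h⟩
    · exact ⟨-e, by rw [h, map_neg]⟩
  let F := QF (Real.sqrt |r|) d hd
  have hsF : Real.sqrt |r| ∈ F := mem_QF.2 ⟨0, 1, by simp⟩
  have h1F : Real.sqrt |1| ∈ F := by
    rw [abs_one, Real.sqrt_one]; exact F.one_mem
  have h1F' : Real.sqrt |-1| ∈ F := by
    rw [abs_neg]; exact h1F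
  have hle : MN e 1 ≤ FI2 F := by
    unfold MN
    rw [adjoin_le_iff]
    intro z hz
    rcases hz with hz | hz
    · refine sq_real (r := r) ?_ hsF
      rw [pow_one, IsScalarTower.algebraMap_apply K ℝ ℂ] at hz
      exact hz
    · have h1 : (z ^ 2 - 1) * (z ^ 2 + 1) = 0 := by
        have h2 : z ^ 4 = 1 := hz
        linear_combination h2
      rcases mul_eq_zero.1 h1 with h2 | h2
      · refine sq_real (r := 1) ?_ h1F
        rw [Complex.ofReal_one]; exact sub_eq_zero.1 h2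
      · refine sq_real (r := -1) ?_ h1F'
        rw [Complex.ofReal_neg, Complex.ofReal_one]; exact eq_neg_of_add_eq_zero_left h2
  exact mem_QF.1 (hle hx).1

end

section
variable {K : Type*} [Field K] [NumberField K] [Algebra K ℝ]

theorem notMem_MN {N f : ℕ} (hf : ¬ 2 ^ N ∣ 2 * f) {v : PrI K} {β : 𝓞 K}
    (hβ : Ideal.span {β} = v.asIdeal ^ f) (ε₀ : (𝓞 K)ˣ) {w : ℂ}
    (h : w ^ (2 ^ N) = algebraMap K ℂ (β : K)) : w ∉ MN ((ε₀ : 𝓞 K) : K) N := by
  intro hw
  have hβ0 : β ≠ 0 := by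
    rintro rfl
    rw [Ideal.span_singleton_zero] at hβ
    exact pow_ne_zero f v.ne_bot hβ.symm
  have hβK : (β : K) ≠ 0 := coe_ne_zero' hβ0
  have he0 : ((ε₀ : 𝓞 K) : K) ≠ 0 := coe_ne_zero' ε₀.ne_zero
  obtain ⟨j, t, ht⟩ := kummer he0 hβK hw h
  have ht0 : t ≠ 0 := by
    rintro rfl
    rw [zero_pow (by positivity)] at ht
    exact pow_ne_zero 2 (div_ne_zero hβK (pow_ne_zero j he0)) ht.symm
  have ht2 : t ^ (2 ^ N) * (((ε₀ : 𝓞 K) : K) ^ j) ^ 2 = (β : K) ^ 2 := by
    rw [ht, div_pow]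
    field_simp
  have hsp : ∀ {x : K}, x ≠ 0 → FractionalIdeal.spanSingleton (𝓞 K)⁰ x ≠ 0 := fun hx =>
    FractionalIdeal.spanSingleton_ne_zero_iff.2 hx
  have h1 : FractionalIdeal.count K v (FractionalIdeal.spanSingleton (𝓞 K)⁰
      (t ^ (2 ^ N) * (((ε₀ : 𝓞 K) : K) ^ j) ^ 2)) =
      FractionalIdeal.count K v (FractionalIdeal.spanSingleton (𝓞 K)⁰ ((β : K) ^ 2)) := by
    rw [ht2]
  rw [← FractionalIdeal.spanSingleton_mul_spanSingleton,
    FractionalIdeal.count_mul K v (hsp (pow_ne_zero _ ht0)) (hsp (pow_ne_zero _ (pow_ne_zero _ he0))),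
    ← FractionalIdeal.spanSingleton_pow, ← FractionalIdeal.spanSingleton_pow,
    ← FractionalIdeal.spanSingleton_pow, ← FractionalIdeal.spanSingleton_pow,
    FractionalIdeal.count_pow, FractionalIdeal.count_pow, FractionalIdeal.count_pow,
    FractionalIdeal.count_pow, ← coe_span_singleton, ← coe_span_singleton, hβ,
    Ideal.span_singleton_eq_top.2 ε₀.isUnit, FractionalIdeal.coeIdeal_pow,
    FractionalIdeal.count_pow_self, FractionalIdeal.coeIdeal_top, FractionalIdeal.count_one,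
    mul_zero, mul_zero, add_zero] at h1
  apply hf
  have h2 : ((2 ^ N : ℕ) : ℤ) ∣ ((2 * f : ℕ) : ℤ) := ⟨_, by push_cast; push_cast at h1; exact h1.symm⟩
  exact_mod_cast h2

end

end Pool.Agent.STd
end

section

/-!
# Frobenius elements and roots of integers and of unity
-/

set_option linter.unusedSectionVars false
set_option linter.style.haveILetI false

open NumberField IsDedekindDomain

namespace Pool.Agent.STd

open Pool.Agent.ST

section
variable {K L : Type*} [Field K] [NumberField K] [Field L] [NumberField L] [Algebra K L]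

lemma sq_eq_one_iff_of_side_conds {R : Type*} [CommRing R] [IsDomain R] {x : R} (h : x ^ 2 = 1) :
    x = 1 ∨ x = -1 := by
  have h1 : (x - 1) * (x + 1) = 0 := by linear_combination h
  rcases mul_eq_zero.1 h1 with h2 | h2
  · exact Or.inl (sub_eq_zero.1 h2)
  · exact Or.inr (eq_neg_of_add_eq_zero_left h2)

lemma mem_und {P : PrI L} {a : 𝓞 K} : a ∈ (und K P).asIdeal ↔ algebraMap (𝓞 K) (𝓞 L) a ∈ P.asIdeal :=
  Iff.rfl

lemma two_notMem {P : PrI L} (h2 : (2 : 𝓞 K) ∉ (und K P).asIdeal) : (2 : 𝓞 L) ∉ P.asIdeal := by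
  intro h
  apply h2
  rw [mem_und, map_ofNat]
  exact h

/-- a root of unity of 2-power order congruent to `1` modulo an odd prime -/
lemma eq_one_of_sub_one_mem {P : PrI L} (h2 : (2 : 𝓞 L) ∉ P.asIdeal) : ∀ (k : ℕ) {ζ : 𝓞 L},
    ζ ^ (2 ^ k) = 1 → ζ - 1 ∈ P.asIdeal → ζ = 1 := by
  intro k
  induction k with
  | zero =>
    intro ζ h _
    simpa using h
  | succ k ih =>
    intro ζ h hP
    have h1 : ζ ^ 2 = 1 := by
      apply ih
      · rw [← pow_mul, ← pow_succ']; exact h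
      · have : ζ ^ 2 - 1 = (ζ + 1) * (ζ - 1) := by ring
        rw [this]; exact P.asIdeal.mul_mem_left _ hP
    rcases sq_eq_one_iff_of_side_conds h1 with h3 | h3
    · exact h3
    · exfalso
      apply h2
      rw [h3] at hP
      have : (2 : 𝓞 L) = -(-1 - 1) := by ring
      rw [this]; exact P.asIdeal.neg_mem hP

/-- `(O/q)^*` is cyclic: powers -/
lemma exists_pow_iff {q : PrI K} {n s : ℕ} (hn : 0 < n) (h : pn q - 1 = n * s)
    {x : 𝓞 K ⧸ q.asIdeal} (hx : x ≠ 0) : (∃ y, y ^ n = x) ↔ x ^ s = 1 := by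
  haveI : Finite (𝓞 K ⧸ q.asIdeal) := Ideal.finiteQuotientOfFreeOfNeBot q.asIdeal q.ne_bot
  haveI : q.asIdeal.IsMaximal := q.isMaximal
  letI : Field (𝓞 K ⧸ q.asIdeal) := Ideal.Quotient.field q.asIdeal
  haveI : Fintype (𝓞 K ⧸ q.asIdeal) := Fintype.ofFinite _
  classical
  have hcard : Fintype.card (𝓞 K ⧸ q.asIdeal) = pn q := by
    unfold pn
    rw [Ideal.absNorm_apply, Submodule.cardQuot_apply, Nat.card_eq_fintype_card]
  have hcu : Fintype.card (𝓞 K ⧸ q.asIdeal)ˣ = n * s := by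
    rw [Fintype.card_units, hcard, h]
  constructor
  · rintro ⟨y, rfl⟩
    have hy : y ≠ 0 := by
      rintro rfl
      exact hx (zero_pow hn.ne')
    have h1 : (Units.mk0 y hy) ^ (n * s) = 1 := by
      rw [← hcu]; exact pow_card_eq_one
    have h2 := congrArg Units.val h1
    rw [Units.val_pow_eq_pow_val, Units.val_mk0, Units.val_one, pow_mul] at h2
    exact h2
  · intro hs
    obtain ⟨g, hg⟩ := IsCyclic.exists_generator (α := (𝓞 K ⧸ q.asIdeal)ˣ)
    obtain ⟨k, hk⟩ := mem_powers_iff_mem_zpowers.2 (hg (Units.mk0 x hx))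
    have hk' : g ^ k = Units.mk0 x hx := hk
    have h1 : g ^ (k * s) = 1 := by
      rw [pow_mul, hk']
      apply Units.ext
      rw [Units.val_pow_eq_pow_val, Units.val_mk0, Units.val_one]
      exact hs
    have h2 : orderOf g = n * s := by
      rw [orderOf_eq_card_of_forall_mem_zpowers hg, Nat.card_eq_fintype_card, hcu]
    have h3 : n * s ∣ k * s := by rw [← h2]; exact orderOf_dvd_of_pow_eq_one h1
    have hs0 : 0 < s := by
      rcases Nat.eq_zero_or_pos s with h0 | h0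
      · exfalso
        have : 0 < Fintype.card (𝓞 K ⧸ q.asIdeal)ˣ := Fintype.card_pos
        rw [hcu, h0, mul_zero] at this
        exact lt_irrefl _ this
      · exact h0
    obtain ⟨l, rfl⟩ := Nat.dvd_of_mul_dvd_mul_right hs0 h3
    refine ⟨((g ^ l : (𝓞 K ⧸ q.asIdeal)ˣ) : 𝓞 K ⧸ q.asIdeal), ?_⟩
    rw [← Units.val_pow_eq_pow_val, ← pow_mul, mul_comm l n, hk', Units.val_mk0]

theorem fix_iff_pow {P : PrI L} {σ : L ≃ₐ[K] L} (hσ : IsFrob K P σ)
    (h2 : (2 : 𝓞 K) ∉ (und K P).asIdeal) {N : ℕ} (hN : 2 ^ N ∣ pn (und K P) - 1)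
    {a : 𝓞 K} (ha : a ∉ (und K P).asIdeal) {x : L} (hx : x ^ (2 ^ N) = algebraMap K L (a : K)) :
    σ x = x ↔ ∃ y : 𝓞 K ⧸ (und K P).asIdeal, y ^ (2 ^ N) = Ideal.Quotient.mk _ a := by
  obtain ⟨s, hs⟩ := hN
  have h2P := two_notMem h2
  have hint : IsIntegral ℤ x := by
    apply IsIntegral.of_pow (n := 2 ^ N) (by positivity)
    rw [hx]
    exact (RingOfIntegers.isIntegral_coe a).map (algebraMap K L).toIntAlgHom
  obtain ⟨x, rfl⟩ : ∃ x' : 𝓞 L, algebraMap (𝓞 L) L x' = x := ⟨⟨x, hint⟩, rfl⟩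
  have hx' : x ^ (2 ^ N) = algebraMap (𝓞 K) (𝓞 L) a := by
    apply RingOfIntegers.coe_injective
    rw [map_pow, hx]
    rfl
  have hxP : x ∉ P.asIdeal := by
    intro h
    apply ha
    rw [mem_und, ← hx']
    exact P.asIdeal.pow_mem_of_mem h _ (by positivity)
  have ha0 : Ideal.Quotient.mk (und K P).asIdeal a ≠ 0 := by
    rwa [Ne, Ideal.Quotient.eq_zero_iff_mem]
  rw [exists_pow_iff (by positivity) hs ha0, ← map_pow, ← map_one (Ideal.Quotient.mk _),
    Ideal.Quotient.eq, mem_und, map_sub, map_pow, map_one, ← hx', ← pow_mul, ← hs]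
  have hF := hσ x
  have hpn : pn (und K P) = pn (und K P) - 1 + 1 := by
    have := two_le_pn (und K P); omega
  have hsm : σ (algebraMap (𝓞 L) L x) = algebraMap (𝓞 L) L (σ • x) := rfl
  constructor
  · intro h
    rw [hsm] at h
    have h3 : σ • x = x := RingOfIntegers.coe_injective h
    rw [h3, hpn, pow_succ] at hF
    have h4 : (x ^ (pn (und K P) - 1) - 1) * x ∈ P.asIdeal := by
      have : (x ^ (pn (und K P) - 1) - 1) * x = -(x - x ^ (pn (und K P) - 1) * x) := by ring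
      rw [this]; exact P.asIdeal.neg_mem hF
    exact (P.isPrime.mem_or_mem h4).resolve_right hxP
  · intro h
    have h5 : σ • x - x ∈ P.asIdeal := by
      rw [hpn, pow_succ] at hF
      have : σ • x - x = (σ • x - x ^ (pn (und K P) - 1) * x) + (x ^ (pn (und K P) - 1) - 1) * x := by
        ring
      rw [this]
      exact P.asIdeal.add_mem hF (P.asIdeal.mul_mem_right _ h)
    have hx0 : algebraMap (𝓞 L) L x ≠ 0 := by
      intro h0
      apply hxP
      have : x = 0 := RingOfIntegers.coe_injective (by rw [h0, map_zero])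
      rw [this]; exact P.asIdeal.zero_mem
    have hzpow : (σ (algebraMap (𝓞 L) L x) / algebraMap (𝓞 L) L x) ^ (2 ^ N) = 1 := by
      rw [div_pow, ← map_pow, hx, AlgEquiv.commutes, div_self]
      rw [← hx]; exact pow_ne_zero _ hx0
    have hzint : IsIntegral ℤ (σ (algebraMap (𝓞 L) L x) / algebraMap (𝓞 L) L x) :=
      IsIntegral.of_pow (n := 2 ^ N) (by positivity) (by rw [hzpow]; exact isIntegral_one)
    obtain ⟨ζ, hζ⟩ : ∃ ζ : 𝓞 L, algebraMap (𝓞 L) L ζ =
        σ (algebraMap (𝓞 L) L x) / algebraMap (𝓞 L) L x := ⟨⟨_, hzint⟩, rfl⟩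
    have hmul : ζ * x = σ • x := by
      apply RingOfIntegers.coe_injective
      rw [map_mul, hζ, div_mul_cancel₀ _ hx0]
      rfl
    have hζ1 : ζ - 1 ∈ P.asIdeal := by
      have h6 : (ζ - 1) * x ∈ P.asIdeal := by
        have : (ζ - 1) * x = σ • x - x := by rw [sub_mul, hmul, one_mul]
        rw [this]; exact h5
      exact (P.isPrime.mem_or_mem h6).resolve_right hxP
    have h7 : ζ = 1 := eq_one_of_sub_one_mem h2P N (by
      apply RingOfIntegers.coe_injective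
      rw [map_pow, hζ, hzpow, map_one]) hζ1
    rw [h7, one_mul] at hmul
    rw [hsm, ← hmul]

theorem fix_root_iff {P : PrI L} {σ : L ≃ₐ[K] L} (hσ : IsFrob K P σ)
    (h2 : (2 : 𝓞 K) ∉ (und K P).asIdeal) {k : ℕ} {ζ : L} (hζ : IsPrimitiveRoot ζ (2 ^ k)) :
    σ ζ = ζ ↔ 2 ^ k ∣ pn (und K P) - 1 := by
  have h2P := two_notMem h2
  have hint : IsIntegral ℤ ζ :=
    IsIntegral.of_pow (n := 2 ^ k) (by positivity) (by rw [hζ.pow_eq_one]; exact isIntegral_one)
  obtain ⟨z, hz⟩ : ∃ z : 𝓞 L, algebraMap (𝓞 L) L z = ζ := ⟨⟨ζ, hint⟩, rfl⟩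
  have hz1 : z ^ (2 ^ k) = 1 := by
    apply RingOfIntegers.coe_injective
    rw [map_pow, hz, hζ.pow_eq_one, map_one]
  have hzu : IsUnit z := IsUnit.of_mul_eq_one (z ^ (2 ^ k - 1)) (by
    rw [← pow_succ', Nat.sub_add_cancel Nat.one_le_two_pow, hz1])
  obtain ⟨u, rfl⟩ := hzu
  have hu1 : u ^ (2 ^ k) = 1 := Units.ext (by rw [Units.val_pow_eq_pow_val, hz1, Units.val_one])
  have hF := hσ (u : 𝓞 L)
  -- `σ z = z ^ pn`
  have h3 : σ • (u : 𝓞 L) = (u : 𝓞 L) ^ pn (und K P) := by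
    have h4 : σ • (u : 𝓞 L) * ((u⁻¹ : (𝓞 L)ˣ) : 𝓞 L) ^ pn (und K P) = 1 := by
      apply eq_one_of_sub_one_mem h2P k
      · have h5 : (σ • (u : 𝓞 L)) ^ (2 ^ k) = 1 := by
          rw [← smul_pow', hz1, smul_one]
        have h6 : ((u⁻¹ : (𝓞 L)ˣ) : 𝓞 L) ^ (2 ^ k) = 1 := by
          rw [← Units.val_pow_eq_pow_val, inv_pow, hu1, inv_one, Units.val_one]
        rw [mul_pow, h5, one_mul, ← pow_mul, mul_comm, pow_mul, h6, one_pow]
      · have : σ • (u : 𝓞 L) * ((u⁻¹ : (𝓞 L)ˣ) : 𝓞 L) ^ pn (und K P) - 1 =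
            ((u⁻¹ : (𝓞 L)ˣ) : 𝓞 L) ^ pn (und K P) * (σ • (u : 𝓞 L) - (u : 𝓞 L) ^ pn (und K P)) := by
          rw [mul_sub, ← mul_pow, Units.inv_mul, one_pow]; ring
        rw [this]; exact P.asIdeal.mul_mem_left _ hF
    have h5 : (u : 𝓞 L) ^ pn (und K P) * ((u⁻¹ : (𝓞 L)ˣ) : 𝓞 L) ^ pn (und K P) = 1 := by
      rw [← mul_pow, Units.mul_inv, one_pow]
    calc σ • (u : 𝓞 L) = σ • (u : 𝓞 L) * ((u : 𝓞 L) ^ pn (und K P) *
          ((u⁻¹ : (𝓞 L)ˣ) : 𝓞 L) ^ pn (und K P)) := by rw [h5, mul_one]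
      _ = (u : 𝓞 L) ^ pn (und K P) := by rw [mul_comm ((u : 𝓞 L) ^ _), ← mul_assoc, h4, one_mul]
  have h4 : σ ζ = ζ ^ pn (und K P) := by
    rw [← hz]
    have := congrArg (algebraMap (𝓞 L) L) h3
    rw [map_pow] at this
    exact this
  have hζ0 : ζ ≠ 0 := hζ.ne_zero (by positivity)
  have hpn : pn (und K P) = pn (und K P) - 1 + 1 := by
    have := two_le_pn (und K P); omega
  rw [h4, ← hζ.pow_eq_one_iff_dvd]
  constructor
  · intro h
    rw [hpn, pow_succ] at h
    exact mul_right_cancel₀ hζ0 (by rw [h, one_mul])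
  · intro h
    rw [hpn, pow_succ, h, one_mul]

end

end Pool.Agent.STd
end
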