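import Pool.Agent.Lib.MP_1ef7cf_nt_c.Kap
import Pool.Agent.Lib.MP_1ef7cf_nt_c.Dn
import Pool.Agent.Lib.MP_1ef7cf_nt_c.Prd

section

/-!
# The relation between the classes `κ_r` and `κ_{r q}` at the primes above `q`
-/

set_option linter.unusedSectionVars false

open NumberField IsDedekindDomain nonZeroDivisors IntermediateField

namespace Pool.Agent.STc

open Pool.Agent.ST Pool.Agent.STb

variable {K : Type*} [Field K] [NumberField K] [Algebra K ℝ]

attribute [local instance] numberField_of_fd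

section aux

variable {M : Type*} [Field M] [NumberField M] {P : PrI M}

lemma val_two (h2 : (2 : 𝓞 M) ∉ P.asIdeal) : P.valuation M (2 : M) = 1 := by
  have := val_coe_eq_one h2
  rwa [show ((2 : 𝓞 M) : M) = 2 by norm_cast] at this

/-- elements near `4` are local squares -/
lemma lsq_of_near_four (h2 : (2 : 𝓞 M) ∉ P.asIdeal) {x : M} (h : P.valuation M (x - 4) < 1) :
    LSq P x := by
  have h20 : (2 : M) ≠ 0 := two_ne_zero
  refine ⟨2⁻¹, ?_⟩
  have h1 : x * (2⁻¹ : M) ^ 2 - 1 = (x - 4) * ((2 : M)⁻¹) ^ 2 := by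
    field_simp
    ring
  rw [h1, map_mul, map_pow, map_inv₀, val_two h2, inv_one, one_pow, mul_one]
  exact h

end aux

section krel

variable {σ₂ : K →+* ℝ} {m : Ideal (𝓞 K)} {H : IntermediateField K ℝ} {θ : PrI K → ℝ}
  {d : PrI K → K} {Q : Set (PrI K)} {y : ℕ → Finset (PrI K) → ℝ}

lemma IsSys.fd_tw (hsys : IsSys σ₂ m H θ Q y) (ν : ℕ) : FiniteDimensional K (twK H ν) := by
  have := hsys.fd ν ∅ (by simp)
  rwa [LL_empty] at this

lemma IsSys.ab_tw (hsys : IsSys σ₂ m H θ Q y) (ν : ℕ) : IsAbelianGalois K (twK H ν) := by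
  have := hsys.ab ν ∅ (by simp)
  rwa [LL_empty] at this

lemma kap_mem_tw (hsys : IsSys σ₂ m H θ Q y) (hQ : ∀ q ∈ Q, Fine σ₂ m q (θ q) (d q)) {ν : ℕ}
    {r : Finset (PrI K)} (hr : ↑r ⊆ Q) (hadm : Adm H θ ν r) : kap y ν r ∈ twK H ν := by
  have := hsys.fd_tw ν
  have := hsys.ab_tw ν
  obtain ⟨c, hc⟩ := exists_isConj (L := twK H ν) σ₂
  exact (eqField_iff.1 (kap_mem hsys hQ hr hadm hc)).1

lemma kap_int (hsys : IsSys σ₂ m H θ Q y) {ν : ℕ}
    {r : Finset (PrI K)} (hr : ↑r ⊆ Q) : IsIntegral ℤ (kap y ν r) := by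
  have hU := (hsys.pre ν r hr).isUn
  exact (((IsInt.two (L := LL H θ ν r)).add hU.int).add hU.inv).2

/-- **The relation between `κ_r` and `κ_{r q}` at the primes above `q`.** -/
theorem kap_rel (hsys : IsSys σ₂ m H θ Q y) (hQ : ∀ q ∈ Q, Fine σ₂ m q (θ q) (d q))
    (hm2 : ∀ v : PrI K, (2 : 𝓞 K) ∈ v.asIdeal → v.asIdeal ∣ m) {ν : ℕ} {r r' : Finset (PrI K)}
    {q : PrI K} (hrr' : r ⊆ r') (hr' : ↑r' ⊆ Q) (hadm : Adm H θ ν r') (hq : q ∉ r)
    (hv : ∀ v, v ∈ r' ↔ v = q ∨ v ∈ r) [FiniteDimensional K (LL H θ ν r)]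
    (w : PrI (LL H θ ν r)) (hw : und K w = q) {x x' : LL H θ ν r} (hx : (x : ℝ) = kap y ν r)
    (hx' : (x' : ℝ) = kap y ν r') :
    Rel w (algebraMap K (LL H θ ν r) (-d q)) x x' := by
  have hr : (↑r : Set (PrI K)) ⊆ Q := fun v hv => hr' (hrr' hv)
  have hqr' : q ∈ r' := (hv q).2 (Or.inl rfl)
  have := hsys.ab ν r hr
  have := hsys.fd ν r' hr'
  have := hsys.ab ν r' hr'
  have hle : LL H θ ν r ≤ LL H θ ν r' := LL_mono le_rfl hrr'
  have hf := hQ q (hr' hqr')
  have h2 := two_notMem hm2 hf.ndvd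
  have hspl : Spl q (LL H θ ν r) := hadm q hqr' r hrr' hq
  have hfrob := hspl w hw
  have h2w : (2 : 𝓞 (LL H θ ν r)) ∉ w.asIdeal := by
    intro h
    apply h2
    rw [← hw]
    have : algebraMap (𝓞 K) (𝓞 (LL H θ ν r)) 2 ∈ w.asIdeal := by rwa [map_ofNat]
    exact this
  obtain ⟨P, hP1, hP2, -⟩ := exists_up hle w
  have hP : und K P = q := hP1.trans hw
  have hkc := hsys.kc hQ hm2 hrr' hr' hq hv hspl hP
  have hpre := hsys.pre ν r hr
  have hpre' := hsys.pre ν r' hr'
  have hY := hpre.isUn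
  have hY' := hpre'.isUn
  have hYL' : IsInt (LL H θ ν r') (y ν r) := hY.int.mono hle
  -- the class of `κ_r`
  have hxY : x = (⟨y ν r, hY.int.1⟩ : LL H θ ν r)⁻¹ * (1 + ⟨y ν r, hY.int.1⟩) ^ 2 := by
    apply Subtype.ext
    rw [hx, kap_eq hsys hr]
    rfl
  have hne : (1 + ⟨y ν r, hY.int.1⟩ : LL H θ ν r) ≠ 0 := by
    intro h
    have := congrArg Subtype.val h
    have hp := hpre.pos'
    change (1 : ℝ) + y ν r = 0 at this
    linarith
  have hlsq : LSq w x ↔ LSq w (⟨y ν r, hY.int.1⟩ : LL H θ ν r) := by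
    rw [hxY, LSq.mul_sq hne]
    constructor
    · intro h; have := h.inv; rwa [inv_inv] at this
    · intro h; exact h.inv
  have hsq : SqAt w x := kap_sqAt hsys hr w hx
  -- `κ'` is an integer of `L`
  have hκm : kap y ν r' ∈ LL H θ ν r :=
    twK_le_LL H θ ν r (kap_mem_tw hsys hQ hr' hadm)
  have hκ : IsInt (LL H θ ν r) (kap y ν r') := ⟨hκm, kap_int hsys hr'⟩
  have hx'e : x' = ⟨kap y ν r', hκ.1⟩ := Subtype.ext hx'
  have hrdκ : rd P (kap y ν r') = 2 + rd P (y ν r') + rd P (y ν r')⁻¹ := by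
    unfold kap
    rw [rd_add (IsInt.two.add hY'.int) hY'.inv, rd_add IsInt.two hY'.int, rd_two]
  have hrdinv : rd P (y ν r') * rd P (y ν r')⁻¹ = 1 := by
    rw [← rd_mul hY'.int hY'.inv, mul_inv_cancel₀ hY'.ne, rd_one]
  -- transport of the power
  have htr : ∀ n : ℕ, ∀ ε : ℤ, rd w (y ν r) ^ n = ε → rd P (y ν r) ^ n = ε := by
    intro n ε h
    have hε : ∀ M : IntermediateField K ℝ, IsInt M (ε : ℝ) := fun M =>
      ⟨intCast_mem _ ε, isIntegral_algebraMap⟩
    have hrdε : ∀ {M : IntermediateField K ℝ} (R : PrI M), rd R (ε : ℝ) = ε := by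
      intro M R
      rw [rd_of (hε M)]
      have : (hε M).toO = (ε : 𝓞 M) := by
        apply RingOfIntegers.ext
        apply Subtype.ext
        rw [IsInt.coe_toO]
        push_cast
        rfl
      rw [this, map_intCast]
    have h3 : rd w (y ν r ^ n - ε) = 0 := by
      rw [rd_sub (hY.int.pow n) (hε _), rd_pow hY.int, h, hrdε, sub_self]
    have h4 := (hP2 _ ((hY.int.pow n).sub (hε _))).2 h3
    rw [rd_sub (hYL'.pow n) (hε _), rd_pow hYL', hrdε, sub_eq_zero] at h4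
    exact h4
  have hdic := lsq_iff_rd hfrob (by rw [hw]; exact h2) hY
  rw [hw] at hdic
  refine ⟨hsq, ?_⟩
  rcases hdic with ⟨h3, h4⟩ | ⟨h3, h4⟩
  · left
    refine ⟨hlsq.2 h4, ?_⟩
    have h5 : rd P (y ν r') = 1 := by
      rw [hkc]
      have := htr _ 1 (by rw [h3]; simp)
      rw [this]; simp
    have h6 : rd P (y ν r')⁻¹ = 1 := by rw [h5, one_mul] at hrdinv; exact hrdinv
    have h4i : ∀ M : IntermediateField K ℝ, IsInt M (4 : ℝ) := fun M => by
      exact_mod_cast IsInt.natCast (L := M) 4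
    have h7 : rd w (kap y ν r' - 4) = 0 := by
      rw [← hP2 _ (hκ.sub (h4i _)), rd_sub (hκ.mono hle) (h4i _), hrdκ, h5, h6]
      have : rd P (4 : ℝ) = 4 := by exact_mod_cast rd_natCast (P := P) 4
      rw [this]; ring
    apply lsq_of_near_four h2w
    rw [rd_eq_zero_iff_val (hκ.sub (h4i _))] at h7
    have h8 : x' - 4 = ⟨kap y ν r' - 4, (hκ.sub (h4i _)).1⟩ := by
      apply Subtype.ext
      change (x' : ℝ) - 4 = kap y ν r' - 4
      rw [hx']
    rw [h8]; exact h7
  · right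
    refine ⟨fun h => h4 (hlsq.1 h), ?_⟩
    have h5 : rd P (y ν r') = -1 := by
      rw [hkc]
      have := htr _ (-1) (by rw [h3]; simp)
      rw [this]; simp
    have h6 : rd P (y ν r')⁻¹ = -1 := by
      rw [h5, neg_one_mul] at hrdinv
      rw [← hrdinv, neg_neg]
    have h7 : rd w (kap y ν r') = 0 := by
      rw [← hP2 _ hκ, hrdκ, h5, h6]
      ring
    have h7v := h7
    rw [rd_eq_zero_iff_val hκ] at h7v
    -- decomposition of `y'`
    obtain ⟨σ, s1, s2, s3, s4⟩ := exists_sig hsys hQ hr' hadm hqr'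
    have hθL' : θ q ∈ LL H θ ν r' := theta_mem_LL hqr'
    have hσL : ∀ z ∈ LL H θ ν r, act σ z = z := by
      have h8 : LL H θ ν r ≤ eqField σ 1 := by
        apply sup_le
        · intro z hz
          exact eqField_iff.2 ⟨twK_le_LL H θ ν r' hz, s2 z hz⟩
        · rw [adjoin_le_iff]
          rintro z ⟨q', hq', rfl⟩
          exact eqField_iff.2 ⟨theta_mem_LL (hrr' hq'), s3 q' (hrr' hq') (by
            rintro rfl; exact hq hq')⟩
      intro z hz
      exact (eqField_iff.1 (h8 hz)).2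
    have hleq : LL H θ ν r' ≤ LL H θ ν r ⊔ K⟮θ q⟯ := by
      classical
      have : r' = insert q r := by
        ext v; rw [hv, Finset.mem_insert]
      rw [this]
      exact LL_insert_le
    have hunr := hsys.unr ν r hr q hf.ndvd hq
    have hθn := theta_notMem hunr hf.sq hf.ne hf.odd
    obtain ⟨α, hα, b, hb, hαb⟩ := mem_quad
      (by rw [hf.sq]; exact (LL H θ ν r).algebraMap_mem _) hθn (hleq hpre'.mem)
    have h9 : act σ (y ν r') = α - b * θ q := by
      rw [hαb, act_add _ (hle hα) (mul_mem (hle hb) hθL'), act_mul _ (hle hb) hθL', s1,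
        hσL α hα, hσL b hb]
      ring
    rw [s4] at h9
    have h10 : kap y ν r' = 2 + 2 * α := by
      unfold kap
      rw [h9]; nth_rewrite 1 [hαb]; ring
    have h11 : (α + b * θ q) * (α - b * θ q) = 1 := by
      rw [← h9, ← hαb]; exact mul_inv_cancel₀ hpre'.pos'.ne'
    set D : ℝ := algebraMap K ℝ (d q) with hD
    have hsqD : θ q ^ 2 = D := hf.sq
    have h12 : α ^ 2 - b ^ 2 * D = 1 := by
      rw [← h11, ← hsqD]; ring
    have h13 : (-D * kap y ν r') * (4 - kap y ν r') = (2 * b * D) ^ 2 := by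
      rw [h10]
      linear_combination (4 * D) * h12
    have hD0 : D ≠ 0 := by
      rw [hD, map_ne_zero]; exact hf.ne
    have hκ0 : kap y ν r' ≠ 0 := (kap_pos hsys hr').ne'
    have h4v : w.valuation (LL H θ ν r) (4 : LL H θ ν r) = 1 := by
      have : (4 : LL H θ ν r) = 2 * 2 := by norm_num
      rw [this, map_mul, val_two h2w, mul_one]
    have hx'v : w.valuation (LL H θ ν r) x' < 1 := by rw [hx'e]; exact h7v
    have h14 : LSq w (4 - x') := by
      apply lsq_of_near_four h2w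
      have : (4 - x' - 4 : LL H θ ν r) = -x' := by ring
      rw [this, Valuation.map_neg]
      exact hx'v
    have h15 : (4 - x' : LL H θ ν r) ≠ 0 := h14.ne_zero
    have hb0 : b ≠ 0 := by
      rintro rfl
      have h16 : (-D * kap y ν r') * (4 - kap y ν r') = 0 := by rw [h13]; ring
      rcases mul_eq_zero.1 h16 with h17 | h17
      · exact mul_ne_zero (neg_ne_zero.2 hD0) hκ0 h17
      · apply h15
        apply Subtype.ext
        change (4 : ℝ) - (x' : ℝ) = 0
        rw [hx']; exact h17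
    have h16 : algebraMap K (LL H θ ν r) (-d q) * x' =
        (4 - x')⁻¹ * (2 * ⟨b, hb⟩ * algebraMap K (LL H θ ν r) (d q)) ^ 2 := by
      rw [eq_inv_mul_iff_mul_eq₀ h15]
      apply Subtype.ext
      change (4 - (x' : ℝ)) * (algebraMap K ℝ (-d q) * (x' : ℝ)) = (2 * b * algebraMap K ℝ (d q)) ^ 2
      rw [hx', map_neg, ← hD, ← h13]
      ring
    rw [h16, LSq.mul_sq]
    · exact h14.inv
    · intro h17
      have h18 := congrArg Subtype.val h17
      change 2 * b * algebraMap K ℝ (d q) = 0 at h18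
      rw [← hD] at h18
      exact mul_ne_zero (mul_ne_zero two_ne_zero hb0) hD0 h18

end krel

end Pool.Agent.STc
end

section

/-!
# Elements of `E` attached to the classes
-/

set_option linter.unusedSectionVars false

open NumberField IsDedekindDomain nonZeroDivisors IntermediateField

namespace Pool.Agent.STc

open Pool.Agent.ST Pool.Agent.STb

section prd

variable {K E : Type*} [Field K] [NumberField K] [Field E] [NumberField E] [Algebra K E]

lemma sqAt_one {P : PrI E} : SqAt P (1 : E) := ⟨1, by simp⟩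

lemma SqAt.prd {q : PrI K} {x : E} (h : ∀ u : PrI E, und K u = q → SqAt u x)
    (z : MonoidAlgebra (ZMod 2) (E ≃ₐ[K] E)) (u : PrI E) (hu : und K u = q) :
    SqAt u (STc.prd z x) := by
  classical
  unfold STc.prd
  generalize z.coeff.support = S
  induction S using Finset.induction_on with
  | empty => rw [Finset.prod_empty]; exact sqAt_one
  | insert g S hg ih =>
    rw [Finset.prod_insert hg]
    refine sqAt_mul ?_ ih
    have h1 := h (pg g⁻¹ u) (by rw [und_pg, hu])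
    rw [← sqAt_pg (g := g), pg_pg_inv] at h1
    exact h1

end prd

variable {K : Type*} [Field K] [NumberField K] [Algebra K ℝ]

attribute [local instance] numberField_of_fd

/-- the setting -/
structure Ctx (σ₂ : K →+* ℝ) (m : Ideal (𝓞 K)) (H : IntermediateField K ℝ) (θ : PrI K → ℝ)
    (d : PrI K → K) (Q : Set (PrI K)) (y : ℕ → Finset (PrI K) → ℝ) : Prop where
  h2 : Module.finrank ℚ K = 2
  hσ : σ₂ ≠ algebraMap K ℝ
  hm2 : ∀ v : PrI K, (2 : 𝓞 K) ∈ v.asIdeal → v.asIdeal ∣ m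
  sys : IsSys σ₂ m H θ Q y
  fine : ∀ q ∈ Q, Fine σ₂ m q (θ q) (d q)

/-- `F` contains all classes and is totally real -/
structure FData (H : IntermediateField K ℝ) (θ : PrI K → ℝ)
    (Q : Set (PrI K)) (y : ℕ → Finset (PrI K) → ℝ) (ν : ℕ) (F : IntermediateField K ℝ) : Prop where
  le : F ≤ twK H ν
  tr : ∀ (φ : F →+* ℂ) (x : F), (φ x).im = 0
  kap : ∀ r : Finset (PrI K), ↑r ⊆ Q → Adm H θ ν r → STc.kap y ν r ∈ F

/-- `b ∈ E` represents the class of `prd z x` -/
def Att {E F : IntermediateField K ℝ} (h : E ≤ F) (z : MonoidAlgebra (ZMod 2) (F ≃ₐ[K] F)) (x : F)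
    (b : E) : Prop := b ≠ 0 ∧ IsSquare (inclusion h b * prd z x)

lemma Att.eq {E F : IntermediateField K ℝ} {h : E ≤ F} {z : MonoidAlgebra (ZMod 2) (F ≃ₐ[K] F)}
    {x : F} (hx : x ≠ 0) {b : E} (hb : Att h z x b) :
    ∃ s : F, s ≠ 0 ∧ inclusion h b = prd z x * s ^ 2 := by
  obtain ⟨h0, t, ht⟩ := hb
  have h1 : prd z x ≠ 0 := prd_ne_zero hx
  have h2 : inclusion h b ≠ 0 := by
    rw [Ne, map_eq_zero]; exact h0
  have h3 : t ≠ 0 := by
    rintro rfl
    rw [mul_zero] at ht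
    exact mul_ne_zero h2 h1 ht
  refine ⟨t / prd z x, div_ne_zero h3 h1, ?_⟩
  rw [div_pow]
  field_simp
  rw [pow_two, ← ht]

section ctx

variable {σ₂ : K →+* ℝ} {m : Ideal (𝓞 K)} {H : IntermediateField K ℝ} {θ : PrI K → ℝ}
  {d : PrI K → K} {Q : Set (PrI K)} {y : ℕ → Finset (PrI K) → ℝ} {ν : ℕ}
  {E F : IntermediateField K ℝ}

/-- **The relation between `b_r` and `b_{r q}`.** -/
theorem att_rel (hC : Ctx σ₂ m H θ d Q y) (hF : FData H θ Q y ν F) (hEF : E ≤ F)
    [FiniteDimensional K E] [FiniteDimensional K F]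
    {r r' : Finset (PrI K)} {q : PrI K} (hrr' : r ⊆ r') (hr' : ↑r' ⊆ Q) (hadm : Adm H θ ν r')
    (hq : q ∉ r) (hv : ∀ v, v ∈ r' ↔ v = q ∨ v ∈ r) {z : MonoidAlgebra (ZMod 2) (F ≃ₐ[K] F)}
    {x x' : F} (hx : (x : ℝ) = kap y ν r) (hx' : (x' : ℝ) = kap y ν r') {b b' : E}
    (hb : Att hEF z x b) (hb' : Att hEF z x' b') (u : PrI E) (hu : und K u = q) :
    Rel u (algebraMap K E (-d q)) b b' := by
  have hr : (↑r : Set (PrI K)) ⊆ Q := fun v hv => hr' (hrr' hv)
  have hqr' : q ∈ r' := (hv q).2 (Or.inl rfl)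
  have hf := hC.fine q (hr' hqr')
  have := hC.sys.fd ν r hr
  have := hC.sys.ab ν r hr
  have hle : F ≤ LL H θ ν r := hF.le.trans (twK_le_LL H θ ν r)
  have hspl : Spl q (LL H θ ν r) := hadm q hqr' r hrr' hq
  have hunr := hC.sys.unr ν r hr q hf.ndvd hq
  have hx0 : x ≠ 0 := by
    intro h
    have := kap_pos hC.sys hr (ν := ν)
    rw [← hx, h] at this
    exact lt_irrefl _ this
  have hx0' : x' ≠ 0 := by
    intro h
    have := kap_pos hC.sys hr' (ν := ν)
    rw [← hx', h] at this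
    exact lt_irrefl _ this
  have h1 : ∀ v : PrI F, und K v = q → Rel v (algebraMap K F (-d q)) x x' := by
    intro v hv'
    refine rel_dn hle hunr hspl (fun w hw => ?_) v hv'
    exact kap_rel hC.sys hC.fine hC.hm2 hrr' hr' hadm hq hv w hw hx hx'
  obtain ⟨s, hs, hsb⟩ := hb.eq hx0
  obtain ⟨s', hs', hsb'⟩ := hb'.eq hx0'
  refine rel_dn hEF (hunr.mono hle) (hspl.mono hle) (fun v hv' => ?_) u hu
  rw [hsb, hsb']
  exact Rel.mul_sq hs hs' (Rel.prd (neg_ne_zero.2 hf.ne) h1 z v hv')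

/-- total positivity -/
lemma kap_tp (hC : Ctx σ₂ m H θ d Q y) {r : Finset (PrI K)} (hr : ↑r ⊆ Q)
    [FiniteDimensional K F] {x : F} (hx : (x : ℝ) = kap y ν r)
    (φ : F →+* ℂ) : 0 < (φ x).re := by
  have := hC.sys.fd ν r hr
  have := hC.sys.ab ν r hr
  have h1 : TP (kap y ν r) := tp_a hC.h2 hC.hσ (hC.sys.pre ν r hr)
  rw [← hx] at h1
  have h2 : (x : ℝ) ∈ rs F := x.2
  let ι : rs F →+* F :=
    { toFun := fun x => ⟨x.1, x.2⟩
      map_one' := rfl
      map_mul' := fun _ _ => rfl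
      map_zero' := rfl
      map_add' := fun _ _ => rfl }
  exact ((tp_iff h2).1 h1 (φ.comp ι)).2

lemma att_pos (hC : Ctx σ₂ m H θ d Q y) (hF : FData H θ Q y ν F) (hEF : E ≤ F)
    [FiniteDimensional K F] {r : Finset (PrI K)} (hr : ↑r ⊆ Q)
    {z : MonoidAlgebra (ZMod 2) (F ≃ₐ[K] F)} {x : F} (hx : (x : ℝ) = kap y ν r) {b : E}
    (hb : Att hEF z x b) : PosR b := by
  have hx0 : x ≠ 0 := by
    intro h
    have := kap_pos hC.sys hr (ν := ν)
    rw [← hx, h] at this
    exact lt_irrefl _ this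
  obtain ⟨s, hs, hsb⟩ := hb.eq hx0
  intro φ
  let φ' : E →+* ℂ := Complex.ofRealHom.comp φ
  obtain ⟨ψ, hψ⟩ := ST.exists_extend φ' hEF
  have h1 : ∀ e : E, ψ (inclusion hEF e) = (φ e : ℂ) := by
    intro e
    have h2 := hψ (e : ℝ) e.2
    rw [emb_of_mem _ (hEF e.2), emb_of_mem _ e.2] at h2
    exact h2
  have him := hF.tr
  have hreal : ∀ w : F, ψ w = ((ψ w).re : ℂ) := fun w => Complex.ext rfl (him ψ w)
  have h3 : (φ b : ℂ) = ψ (prd z x) * (ψ s) ^ 2 := by rw [← h1, hsb, map_mul, map_pow]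
  have h4 : φ b = (ψ (prd z x)).re * (ψ s).re ^ 2 := by
    rw [hreal (prd z x), hreal s] at h3
    exact_mod_cast h3
  rw [h4]
  apply mul_pos
  · unfold prd
    rw [map_prod]
    have h5 : ∀ S : Finset (F ≃ₐ[K] F), 0 < (∏ g ∈ S, ψ (g x)).re ∧ (∏ g ∈ S, ψ (g x)).im = 0 := by
      classical
      intro S
      induction S using Finset.induction_on with
      | empty => simp
      | insert g S hg ih =>
        rw [Finset.prod_insert hg]
        have h6 : 0 < (ψ (g x)).re := kap_tp hC hr hx (ψ.comp (g : F →+* F))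
        have h7 : (ψ (g x)).im = 0 := him ψ _
        refine ⟨?_, im_mul h7 ih.2⟩
        rw [re_mul h7]
        exact mul_pos h6 ih.1
    exact (h5 _).1
  · have h5 : (ψ s).re ≠ 0 := by
      intro h6
      have h7 : ψ s = 0 := Complex.ext h6 (him ψ s)
      rw [map_eq_zero] at h7
      exact hs h7
    positivity

/-- **`b_r` lies in the group `H(r)`.** -/
theorem att_inH (hC : Ctx σ₂ m H θ d Q y) (hF : FData H θ Q y ν F) (hEF : E ≤ F)
    [FiniteDimensional K E] [FiniteDimensional K F] {D : Finset (PrI K)}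
    (hD : ∀ q, q ∈ D ↔ q.asIdeal ∣ m)
    {r : Finset (PrI K)} (hr : ↑r ⊆ Q) (hadm : Adm H θ ν r)
    {z : MonoidAlgebra (ZMod 2) (F ≃ₐ[K] F)} {x : F} (hx : (x : ℝ) = kap y ν r) {b : E}
    (hb : Att hEF z x b)
    (hb₀ : ∀ r₀ ⊆ r, ∀ x₀ : F, (x₀ : ℝ) = kap y ν r₀ → ∃ b₀ : E, Att hEF z x₀ b₀) :
    InH D r (fun q => -d q) b where
  ne_zero := hb.1
  pos := att_pos hC hF hEF hr hx hb
  trv := by
    classical
    intro u hu
    set q := und K u with hq
    have hr₀ : r.erase q ⊆ r := Finset.erase_subset q r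
    have hr₀' : (↑(r.erase q) : Set (PrI K)) ⊆ Q := fun v hv => hr (hr₀ hv)
    have hadm₀ := hadm.mono hr₀
    obtain ⟨b₀, hb₀⟩ := hb₀ _ hr₀ ⟨_, hF.kap _ hr₀' hadm₀⟩ rfl
    have hrel := att_rel hC hF hEF hr₀ hr hadm (Finset.notMem_erase q r) (fun v => by
      rw [Finset.mem_erase]
      by_cases h : v = q
      · rw [h]; simp [hu]
      · simp [h]) rfl hx hb₀ hb u hq.symm
    exact hrel.trv
  even := by
    intro u hu hur
    set q := und K u with hq
    have hqm : ¬ q.asIdeal ∣ m := fun h => hu ((hD q).2 h)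
    have := hC.sys.fd ν r hr
    have := hC.sys.ab ν r hr
    have hle : F ≤ LL H θ ν r := hF.le.trans (twK_le_LL H θ ν r)
    have hunr := hC.sys.unr ν r hr q hqm hur
    have hx0 : x ≠ 0 := by
      intro h
      have := kap_pos hC.sys hr (ν := ν)
      rw [← hx, h] at this
      exact lt_irrefl _ this
    obtain ⟨s, hs, hsb⟩ := hb.eq hx0
    have h1 : ∀ v : PrI F, und K v = q → SqAt v x := by
      intro v hv
      exact sqAt_dn hle hunr (fun w _ => kap_sqAt hC.sys hr w hx) v hv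
    refine sqAt_dn hEF (hunr.mono hle) (fun v hv => ?_) u hq.symm
    rw [hsb, sqAt_mul_sq hs]
    exact SqAt.prd h1 z v hv

end ctx

end Pool.Agent.STc
end

section

/-!
# New primes
-/

set_option linter.unusedSectionVars false

open NumberField IsDedekindDomain nonZeroDivisors IntermediateField

namespace Pool.Agent.STc

open Pool.Agent.ST Pool.Agent.STb

section frob

variable {K L : Type*} [Field K] [NumberField K] [Field L] [NumberField L] [Algebra K L]

/-- The Frobenius element fixes the square roots of local squares. -/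
lemma frob_of_lsq {P : PrI L} (h2 : (2 : 𝓞 K) ∉ (und K P).asIdeal) {σ : L ≃ₐ[K] L}
    (hσ : IsFrob K P σ) {d : K} (hd : LSq (und K P) d) {y : L}
    (hy : y ^ 2 = algebraMap K L d) : σ y = y := by
  set p := und K P with hp
  have := p.isMaximal
  have : Finite (𝓞 K ⧸ p.asIdeal) := Ideal.finiteQuotientOfFreeOfNeBot p.asIdeal p.ne_bot
  let _ : Field (𝓞 K ⧸ p.asIdeal) := Ideal.Quotient.field p.asIdeal
  let _ : Fintype (𝓞 K ⧸ p.asIdeal) := Fintype.ofFinite _
  have hchar : ringChar (𝓞 K ⧸ p.asIdeal) ≠ 2 := quot_char h2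
  have hcard : Fintype.card (𝓞 K ⧸ p.asIdeal) = pn p := by
    unfold pn
    rw [Ideal.absNorm_apply, Submodule.cardQuot_apply, Nat.card_eq_fintype_card]
  have hd0 := hd.ne_zero
  obtain ⟨s, hs⟩ := hd.sqAt
  have hs0 : s ≠ 0 := by
    rintro rfl
    rw [zero_pow (by norm_num), mul_zero, map_zero] at hs
    exact zero_ne_one hs
  obtain ⟨a, ha, t, ht, hat⟩ := exists_int_rep hs
  have hda : d = (a : K) * (t / s) ^ 2 := by
    rw [div_pow]
    field_simp
    exact hat
  have hts : t / s ≠ 0 := div_ne_zero ht hs0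
  have hla : LSq p (a : K) := by
    rw [hda, LSq.mul_sq hts] at hd
    exact hd
  have hsq := isSquare_of_lsq ha hla
  have ha0 : Ideal.Quotient.mk p.asIdeal a ≠ 0 := fun h => ha (Ideal.Quotient.eq_zero_iff_mem.1 h)
  have hpow := (FiniteField.isSquare_iff hchar ha0).1 hsq
  -- the integer `T`
  set T : L := y / algebraMap K L (t / s) with hT
  have htsL : algebraMap K L (t / s) ≠ 0 := by rw [Ne, map_eq_zero]; exact hts
  have hT2 : T ^ 2 = algebraMap K L (a : K) := by
    rw [hT, div_pow, hy, hda, map_mul, map_pow]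
    field_simp
  have hyT : y = T * algebraMap K L (t / s) := by rw [hT]; field_simp
  have hint : IsIntegral ℤ T := by
    apply IsIntegral.of_pow (n := 2) (by norm_num)
    rw [hT2]
    have h3 : IsIntegral ℤ ((a : 𝓞 K) : K) := RingOfIntegers.isIntegral_coe _
    exact h3.map (algebraMap K L).toIntAlgHom
  let y' : 𝓞 L := ⟨T, hint⟩
  have hy' : y' ^ 2 = algebraMap (𝓞 K) (𝓞 L) a := by
    apply RingOfIntegers.coe_injective
    rw [map_pow]
    exact hT2
  have hyP : y' ∉ P.asIdeal := by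
    intro h5
    have h6 : y' ^ 2 ∈ P.asIdeal := P.asIdeal.pow_mem_of_mem h5 2 (by norm_num)
    rw [hy'] at h6
    exact ha h6
  have hσT : σ T = T ∨ σ T = -T := by
    rw [← sq_eq_sq_iff_eq_or_eq_neg, ← map_pow, hT2, σ.commutes]
  rcases hσT with h | h
  · rw [hyT, map_mul, h, σ.commutes]
  · exfalso
    have hσy' : σ • y' = -y' := by
      apply RingOfIntegers.coe_injective
      rw [ST.coe_smul']
      exact h
    have h3 := hσ y'
    rw [hσy', ← hp, ← hcard] at h3
    have hodd : Fintype.card (𝓞 K ⧸ p.asIdeal) % 2 = 1 :=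
      FiniteField.odd_card_of_char_ne_two hchar
    set c := Fintype.card (𝓞 K ⧸ p.asIdeal) with hc
    have hc2 : c = 2 * (c / 2) + 1 := by omega
    have h4 : y' * (1 + algebraMap (𝓞 K) (𝓞 L) (a ^ (c / 2))) ∈ P.asIdeal := by
      have : y' * (1 + algebraMap (𝓞 K) (𝓞 L) (a ^ (c / 2))) = -(-y' - y' ^ c) := by
        conv_rhs => rw [hc2, pow_succ, pow_mul, hy']
        rw [map_pow]
        ring
      rw [this]; exact neg_mem h3
    have h5 : 1 + algebraMap (𝓞 K) (𝓞 L) (a ^ (c / 2)) ∈ P.asIdeal :=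
      (P.isPrime.mem_or_mem h4).resolve_left hyP
    have h6 : (1 + a ^ (c / 2) : 𝓞 K) ∈ p.asIdeal := by
      have : algebraMap (𝓞 K) (𝓞 L) (1 + a ^ (c / 2)) ∈ P.asIdeal := by
        rw [map_add, map_one]; exact h5
      exact this
    rw [← Ideal.Quotient.eq_zero_iff_mem, map_add, map_one, map_pow, hpow] at h6
    apply h2
    rw [← Ideal.Quotient.eq_zero_iff_mem, map_ofNat]
    rw [← h6]; norm_num

end frob

variable {K : Type*} [Field K] [NumberField K] [Algebra K ℝ]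

attribute [local instance] numberField_of_fd

section adm

variable {σ₂ : K →+* ℝ} {m : Ideal (𝓞 K)} {H : IntermediateField K ℝ} {θ : PrI K → ℝ}
  {d : PrI K → K} {Q : Set (PrI K)} {y : ℕ → Finset (PrI K) → ℝ} {ν : ℕ}

open Classical in
/-- admissibility of the set enlarged by a new prime -/
theorem adm_insert (hC : Ctx σ₂ m H θ d Q y) {r : Finset (PrI K)} (hr : ↑r ⊆ Q)
    (hadm : Adm H θ ν r) {q : PrI K} (hqQ : q ∈ Q) (hq : q ∉ r) (hs : Spl q (LL H θ ν r))
    (hβ : ∀ q' ∈ r, ∃ β : 𝓞 K, q'.asIdeal = Ideal.span {β} ∧ β - 1 ∈ m ∧ 0 < σ₂ (β : K) ∧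
      LSq q (β : K)) : Adm H θ ν (insert q r) := by
  have := hC.sys.fd ν r hr
  have := hC.sys.ab ν r hr
  have hf := hC.fine q hqQ
  intro q₁ hq₁ r₀ hr₀ hq₁r₀
  rcases Finset.mem_insert.1 hq₁ with rfl | hq₁r
  · have h1 : r₀ ⊆ r := fun v hv => by
      rcases Finset.mem_insert.1 (hr₀ hv) with rfl | h
      · exact absurd hv hq₁r₀
      · exact h
    exact hs.mono (LL_mono le_rfl h1)
  · by_cases hqr₀ : q ∈ r₀
    · have h1 : r₀.erase q ⊆ r := fun v hv => by
        rcases Finset.mem_insert.1 (hr₀ (Finset.mem_of_mem_erase hv)) with rfl | h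
        · exact absurd rfl (Finset.ne_of_mem_erase hv)
        · exact h
      have hr₀Q : (↑r₀ : Set (PrI K)) ⊆ Q := fun v hv => by
        rcases Finset.mem_insert.1 (hr₀ hv) with rfl | h
        · exact hqQ
        · exact hr h
      have hr₁Q : (↑(r₀.erase q) : Set (PrI K)) ⊆ Q := fun v hv =>
        hr₀Q (Finset.mem_of_mem_erase hv)
      have hq₁r₁ : q₁ ∉ r₀.erase q := fun h => hq₁r₀ (Finset.mem_of_mem_erase h)
      have hs₁ := hadm q₁ hq₁r _ h1 hq₁r₁
      have := hC.sys.fd ν r₀ hr₀Q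
      have := hC.sys.ab ν r₀ hr₀Q
      have := hC.sys.fd ν _ hr₁Q
      have := hC.sys.ab ν _ hr₁Q
      have hle : LL H θ ν (r₀.erase q) ≤ LL H θ ν r₀ := LL_mono le_rfl (Finset.erase_subset q r₀)
      have hq₁Q := hr hq₁r
      have hf₁ := hC.fine q₁ hq₁Q
      have hne : q₁ ≠ q := fun h => hq (h ▸ hq₁r)
      obtain ⟨β, hβ1, hβ2, hβ3, hβ4⟩ := hβ q₁ hq₁r
      have hl : LSq q₁ (d q) := hf.spl q₁ hf₁.ndvd hne β hβ1 hβ2 hβ3 hβ4
      have hθm : θ q ∈ LL H θ ν r₀ := theta_mem_LL hqr₀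
      intro P hP
      obtain ⟨φ, hφ⟩ := exists_isFrob (K := K) P
      have hφF : FrobAt q₁ (LL H θ ν r₀) φ := by
        have := frobAt_of_isFrob hφ
        rwa [hP] at this
      have h2 : ST.res hle φ = 1 :=
        (FrobAt.res hle hφF).unique (hC.sys.unr ν _ hr₁Q q₁ hf₁.ndvd hq₁r₁) hs₁
      rw [res_eq_one_iff] at h2
      have h3 : act φ (θ q) = θ q := by
        have h4 : φ ⟨θ q, hθm⟩ = ⟨θ q, hθm⟩ := by
          refine frob_of_lsq (by rw [hP]; exact two_notMem hC.hm2 hf₁.ndvd) hφ (d := d q)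
            (by rw [hP]; exact hl) ?_
          apply Subtype.ext
          exact hf.sq
        rw [act_of_mem φ hθm, h4]
      have h5 : φ = 1 := by
        have hle' : LL H θ ν r₀ ≤ LL H θ ν (r₀.erase q) ⊔ K⟮θ q⟯ := by
          conv_lhs => rw [← Finset.insert_erase hqr₀]
          exact LL_insert_le
        apply aut_quad hle hle' hθm
        · intro x hx
          rw [h2 x hx, act_one_left (hle hx)]
        · rw [h3, act_one_left hθm]
      rw [← h5]; exact hφ
    · have h1 : r₀ ⊆ r := fun v hv => by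
        rcases Finset.mem_insert.1 (hr₀ hv) with rfl | h
        · exact absurd hv hqr₀
        · exact h
      exact hadm q₁ hq₁r r₀ h1 hq₁r₀

end adm

end Pool.Agent.STc
end
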