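import Pool.Agent.Lib.MP_1ef7cf_nt_c.Main1
import Pool.Agent.Lib.MP_1ef7cf_nt_c.Euler

section

/-!
# The Dirichlet series of a nontrivial real character is bounded near `1`
-/

open NumberField NumberField.mixedEmbedding NumberField.InfinitePlace NumberField.Units Module
  nonZeroDivisors MeasureTheory IsDedekindDomain Filter Topology

namespace Pool.Agent.STc

open Pool.Agent.ST

section main2

variable (M : Type*) [Field M] [NumberField M]

lemma zetaR_antitone {s t : ℝ} (hs : 1 < s) (hst : s ≤ t) : zetaR M t ≤ zetaR M s := by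
  unfold zetaR
  refine (summable_ideal M (hs.trans_le hst)).tsum_le_tsum (fun I => ?_) (summable_ideal M hs)
  have h1 : (1 : ℝ) ≤ Ideal.absNorm I.1 := by exact_mod_cast absNorm_pos M I
  exact Real.rpow_le_rpow_of_exponent_le h1 (by linarith)

lemma exists_zetaR_le : ∃ B : ℝ, 0 ≤ B ∧ ∀ s : ℝ, 1 < s → s ≤ 2 → (s - 1) * zetaR M s ≤ B := by
  have h1 := tendsto_zetaR M
  have h2 : ∀ᶠ s in 𝓝[>] (1 : ℝ), (s - 1) * zetaR M s ≤ dedekindZeta_residue M + 1 :=
    h1.eventually_le_const (by linarith)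
  rw [eventually_nhdsWithin_iff, Metric.eventually_nhds_iff] at h2
  obtain ⟨δ, hδ, h3⟩ := h2
  refine ⟨|dedekindZeta_residue M + 1| + zetaR M (1 + δ / 2), by
    have := zetaR_nonneg M (1 + δ / 2)
    positivity, ?_⟩
  intro s hs1 hs2
  have hz := zetaR_nonneg M (1 + δ / 2)
  by_cases hlt : s < 1 + δ / 2
  · have h4 := h3 (y := s) (by rw [Real.dist_eq, abs_of_pos (by linarith)]; linarith) hs1
    have := le_abs_self (dedekindZeta_residue M + 1)
    linarith
  · have h5 := zetaR_antitone M (by linarith : 1 < 1 + δ / 2) (not_lt.1 hlt)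
    have h6 : (s - 1) * zetaR M s ≤ 1 * zetaR M (1 + δ / 2) :=
      mul_le_mul (by linarith) h5 (zetaR_nonneg M s) (by norm_num)
    have := abs_nonneg (dedekindZeta_residue M + 1)
    linarith

variable {M}
variable {n : Ideal (𝓞 M)} {χ : Ideal (𝓞 M) →*₀ ℝ}

lemma exists_mainT_le (h : IsRayChar n χ) (hn : n ≠ ⊥) :
    ∃ C : ℝ, 0 ≤ C ∧ ∀ s : ℝ, 1 < s → s ≤ 2 → |mainT n χ s| ≤ zetaR M s + C := by
  have htop : (⊤ : Ideal (𝓞 M)) ≠ ⊥ := top_ne_bot
  have hcop : IsCoprime (⊤ : Ideal (𝓞 M)) n := by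
    rw [Ideal.isCoprime_iff_sup_eq, top_sup_eq]
  obtain ⟨C, hC⟩ := main0 h hn hcop htop
  refine ⟨|C|, abs_nonneg C, fun s h1 h2 => ?_⟩
  have h3 := hC s h1 h2
  rw [Ideal.absNorm_top, Nat.cast_one, one_mul] at h3
  have h4 := csum_eq h ⟨⊤, htop⟩ hcop s
  have h5 : χ (⊤ : Ideal (𝓞 M)) = 1 := by
    rw [← Ideal.one_eq_top, map_one]
  simp only at h4
  rw [h5, Ideal.absNorm_top, Nat.cast_one, Real.one_rpow, one_mul, one_mul] at h4
  have h6 := abs_csum_le h (mkC ⟨⊤, htop⟩)⁻¹ h1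
  rw [h4] at h6
  have h7 : mainT n χ s = psum χ ⊤ s - (psum χ ⊤ s - mainT n χ s) := by ring
  rw [h7]
  refine (abs_sub _ _).trans ?_
  have := le_abs_self C
  linarith

/-- Asymptotics of the partial sum over a class. -/
lemma csum_asymp (h : IsRayChar n χ) (hn : n ≠ ⊥) (J : NzI M) (hJ : IsCoprime J.1 n) :
    ∃ C : ℝ, ∀ s : ℝ, 1 < s → s ≤ 2 → |csum χ (mkC J)⁻¹ s - χ J.1 * mainT n χ s| ≤ C := by
  obtain ⟨C₀, hC₀⟩ := main0 h hn hJ J.2
  obtain ⟨C₁, hC₁0, hC₁⟩ := exists_mainT_le h hn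
  obtain ⟨B, hB0, hB⟩ := exists_zetaR_le M
  set N : ℝ := (Ideal.absNorm J.1 : ℝ) with hN
  have hN1 : 1 ≤ N := by
    have := absNorm_pos M J
    rw [hN]
    exact_mod_cast this
  have hlogN : 0 ≤ Real.log N := Real.log_nonneg hN1
  refine ⟨N * |C₀| + Real.log N * N * (B + C₁), fun s h1 h2 => ?_⟩
  have e1 : csum χ (mkC J)⁻¹ s - χ J.1 * mainT n χ s =
      χ J.1 * (N ^ (s - 1) * (N * psum χ J.1 s - mainT n χ s) +
        (N ^ (s - 1) - 1) * mainT n χ s) := by
    rw [csum_eq h J hJ s]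
    have : N ^ s = N ^ (s - 1) * N := by
      rw [← Real.rpow_add_one (by linarith)]
      congr 1; ring
    rw [this]
    ring
  rw [e1, abs_mul]
  refine (mul_le_of_le_one_left (abs_nonneg _) (abs_chi_le h _)).trans ?_
  refine (abs_add_le _ _).trans (add_le_add ?_ ?_)
  · rw [abs_mul]
    have h3 : |N ^ (s - 1)| ≤ N := by
      rw [abs_of_nonneg (by positivity)]
      calc N ^ (s - 1) ≤ N ^ (1 : ℝ) := Real.rpow_le_rpow_of_exponent_le hN1 (by linarith)
        _ = N := Real.rpow_one N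
    exact mul_le_mul h3 ((hC₀ s h1 h2).trans (le_abs_self _)) (abs_nonneg _) (by linarith)
  · rw [abs_mul]
    have h4 : |N ^ (s - 1) - 1| ≤ Real.log N * (s - 1) * N := by
      have h5 := abs_exp_sub (Real.log N * (s - 1)) 0
      rw [Real.exp_zero, sub_zero, ← Real.rpow_def_of_pos (by linarith)] at h5
      refine h5.trans ?_
      rw [abs_of_nonneg (mul_nonneg hlogN (by linarith))]
      apply mul_le_mul_of_nonneg_left _ (mul_nonneg hlogN (by linarith))
      apply max_le _ hN1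
      calc N ^ (s - 1) ≤ N ^ (1 : ℝ) := Real.rpow_le_rpow_of_exponent_le hN1 (by linarith)
        _ = N := Real.rpow_one N
    have h6 := hC₁ s h1 h2
    calc |N ^ (s - 1) - 1| * |mainT n χ s| ≤ (Real.log N * (s - 1) * N) * (zetaR M s + C₁) :=
          mul_le_mul h4 h6 (abs_nonneg _) (by
            have : 0 ≤ s - 1 := by linarith
            positivity)
      _ = Real.log N * N * ((s - 1) * zetaR M s + (s - 1) * C₁) := by ring
      _ ≤ Real.log N * N * (B + C₁) := by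
          apply mul_le_mul_of_nonneg_left _ (by positivity)
          have := hB s h1 h2
          nlinarith

omit [NumberField M] in
lemma coprime_nzMul {I J : NzI M} (hI : IsCoprime I.1 n) (hJ : IsCoprime J.1 n) :
    IsCoprime (nzMul I J).1 n := IsCoprime.mul_left hI hJ

omit [NumberField M] in
lemma chi_nzMul (χ : Ideal (𝓞 M) →*₀ ℝ) (I J : NzI M) : χ (nzMul I J).1 = χ I.1 * χ J.1 :=
  map_mul χ I.1 J.1

lemma sum_eq_zero_of_mul {G : Type*} [Group G] [Fintype G] (f : G → ℝ) (p : G)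
    (h : ∀ g, f (g * p) = - f g) : ∑ g, f g = 0 := by
  have h1 : ∑ g, f (g * p) = ∑ g, f g := Equiv.sum_comp (Equiv.mulRight p) f
  simp only [h, Finset.sum_neg_distrib] at h1
  linarith

/-- The Dirichlet series of a nontrivial real ray class character is bounded near `1`. -/
theorem lsum_bounded (h : IsRayChar n χ) (hn : n ≠ ⊥) (hne : ∃ P : NzI M, χ P.1 = -1) :
    ∃ C : ℝ, ∀ s : ℝ, 1 < s → s ≤ 2 → |lsum χ s| ≤ C := by
  classical
  have hrep : ∀ C : ClassGroup (𝓞 M), ∃ J : NzI M, IsCoprime J.1 n ∧ mkC J = C⁻¹ := fun C =>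
    exists_coprime hn C⁻¹
  choose r hr hrC using hrep
  have hcs : ∀ C : ClassGroup (𝓞 M), ∃ K : ℝ, ∀ s : ℝ, 1 < s → s ≤ 2 →
      |csum χ C s - χ (r C).1 * mainT n χ s| ≤ K := by
    intro C
    obtain ⟨K, hK⟩ := csum_asymp h hn (r C) (hr C)
    refine ⟨K, fun s h1 h2 => ?_⟩
    have := hK s h1 h2
    rwa [hrC, inv_inv] at this
  choose K hK using hcs
  have hmain : ∀ s : ℝ, 1 < s → s ≤ 2 →
      |lsum χ s - (∑ C, χ (r C).1) * mainT n χ s| ≤ ∑ C, K C := by
    intro s h1 h2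
    rw [lsum_eq h h1, Finset.sum_mul, ← Finset.sum_sub_distrib]
    exact (Finset.abs_sum_le_sum_abs _ _).trans (Finset.sum_le_sum fun C _ => hK C s h1 h2)
  -- it is enough to bound the main term
  have hfin : (∃ T : ℝ, ∀ s : ℝ, 1 < s → s ≤ 2 → |(∑ C, χ (r C).1) * mainT n χ s| ≤ T) →
      ∃ C : ℝ, ∀ s : ℝ, 1 < s → s ≤ 2 → |lsum χ s| ≤ C := by
    rintro ⟨T, hT⟩
    refine ⟨∑ C, K C + T, fun s h1 h2 => ?_⟩
    have h3 := hmain s h1 h2
    have h4 := hT s h1 h2
    have h5 : lsum χ s = (lsum χ s - (∑ C, χ (r C).1) * mainT n χ s) +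
      (∑ C, χ (r C).1) * mainT n χ s := by ring
    rw [h5]
    exact (abs_add_le _ _).trans (add_le_add h3 h4)
  apply hfin
  by_cases hcase : ∀ J J' : NzI M, IsCoprime J.1 n → IsCoprime J'.1 n → mkC J = mkC J' →
      χ J.1 = χ J'.1
  · -- the sum of the values over the classes is zero
    obtain ⟨P, hP⟩ := hne
    have hPn : IsCoprime P.1 n := by
      by_contra hc
      rw [h.zero _ hc] at hP
      norm_num at hP
    have hzero : ∑ C, χ (r C).1 = 0 := by
      apply sum_eq_zero_of_mul _ (mkC P)⁻¹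
      intro C
      have hc : IsCoprime (nzMul (r C) P).1 n := coprime_nzMul (hr C) hPn
      have hcl : mkC (r (C * (mkC P)⁻¹)) = mkC (nzMul (r C) P) := by
        rw [hrC, mkC_mul, hrC, mul_inv, inv_inv]
      have e2 : χ (r (C * (mkC P)⁻¹)).1 = χ (nzMul (r C) P).1 := hcase _ _ (hr _) hc hcl
      rw [e2, chi_nzMul, hP]
      ring
    refine ⟨0, fun s _ _ => ?_⟩
    rw [hzero, zero_mul, abs_zero]
  · -- the main term is bounded
    push Not at hcase
    obtain ⟨J, J', hJ, hJ', hJJ, hne'⟩ := hcase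
    obtain ⟨K₁, hK₁⟩ := csum_asymp h hn J hJ
    obtain ⟨K₂, hK₂⟩ := csum_asymp h hn J' hJ'
    have hd : 0 < |χ J.1 - χ J'.1| := abs_pos.2 (sub_ne_zero.2 hne')
    refine ⟨|∑ C, χ (r C).1| * ((K₁ + K₂) / |χ J.1 - χ J'.1|), fun s h1 h2 => ?_⟩
    rw [abs_mul]
    apply mul_le_mul_of_nonneg_left _ (abs_nonneg _)
    rw [le_div_iff₀ hd, ← abs_mul]
    have h3 := hK₁ s h1 h2
    have h4 := hK₂ s h1 h2
    rw [hJJ] at h3
    have e3 : mainT n χ s * (χ J.1 - χ J'.1) =
        (csum χ (mkC J')⁻¹ s - χ J'.1 * mainT n χ s) -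
        (csum χ (mkC J')⁻¹ s - χ J.1 * mainT n χ s) := by ring
    rw [e3]
    refine (abs_sub _ _).trans ?_
    linarith

end main2

end Pool.Agent.STc
end

section

/-!
# The sum over the primes of a nontrivial real ray class character is bounded above near `1`
-/

open NumberField

namespace Pool.Agent.ST

/-- The sum over the primes of a nontrivial real ray class character is bounded above near `1`. -/
theorem weber {M : Type*} [Field M] [NumberField M] {n : Ideal (𝓞 M)} (hn : n ≠ ⊥)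
    {χ : Ideal (𝓞 M) →*₀ ℝ} (h : IsRayChar n χ) (hne : ∃ P : PrI M, χ P.asIdeal = -1) :
    ∃ C : ℝ, ∀ s : ℝ, 1 < s → s < 2 → ∑' P : PrI M, χ P.asIdeal * px s P ≤ C := by
  obtain ⟨P, hP⟩ := hne
  obtain ⟨C, hC⟩ := STc.lsum_bounded h hn ⟨toNz P, hP⟩
  refine ⟨Real.log (2 * C), fun s h1 h2 => ?_⟩
  have h3 := STc.exp_primeSum_chi_le h h1
  have h4 := (le_abs_self _).trans (hC s h1 h2.le)
  have h5 : Real.exp (∑' P : PrI M, χ P.asIdeal * px s P) ≤ 2 * C := by linarith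
  have h6 : 0 < 2 * C := (Real.exp_pos _).trans_le h5
  rwa [← Real.exp_le_exp, Real.exp_log h6]

end Pool.Agent.ST
end
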