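import Pool.Agent.Lib.MP_1ef7cf_nt_c.Loc
import Pool.Agent.Lib.MP_1ef7cf_nt_c.V1b
import Pool.Agent.Lib.MP_1ef7cf_nt_c.V1c

section

/-!
# Quadratic characters in a tower
-/

set_option linter.unusedSectionVars false
set_option linter.style.haveILetI false

open NumberField IsDedekindDomain Filter Topology

namespace Pool.Agent.STc

open Pool.Agent.ST Pool.Agent.STb

section gen

lemma pn_pg {K E : Type*} [Field K] [NumberField K] [Field E] [NumberField E] [Algebra K E]
    [IsGalois K E] (g : E ≃ₐ[K] E) (u : PrI E) : pn (pg g u) = pn u :=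
  pn_eq_of_und_eq K (und_pg g u)

lemma ev_add {E F : Type*} [Field E] [NumberField E] [Field F] [NumberField F] [Algebra E F]
    (ℓ₁ ℓ₂ : PrI E → ZMod 2) : (ev E (ℓ₁ + ℓ₂) : PrI F → ZMod 2) = ev E ℓ₁ + ev E ℓ₂ := by
  funext w
  rw [Pi.add_apply, ev, ev, ev, Pi.add_apply, smul_add]

lemma ev_one_of {E F : Type*} [Field E] [NumberField E] [Field F] [NumberField F] [Algebra E F]
    {ℓ : PrI E → ZMod 2} {w : PrI F} (h : pn w = pn (und E w)) : ev E ℓ w = ℓ (und E w) := by
  rw [ev, inertiaDeg_eq_one E h, one_smul]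

lemma inertia_eq {E F : Type*} [Field E] [NumberField E] [Field F] [NumberField F] [Algebra E F]
    {w w' : PrI F} (h : pn w = pn w') (h' : pn (und E w) = pn (und E w')) :
    w.asIdeal.inertiaDeg (𝓞 E) = w'.asIdeal.inertiaDeg (𝓞 E) := by
  have h1 := pn_eq_pow E w
  have h2 := pn_eq_pow E w'
  rw [← h', ← h, h1] at h2
  exact Nat.pow_right_injective (two_le_pn (und E w)) h2

variable {E F' F : Type*} [Field E] [NumberField E] [Field F'] [NumberField F'] [Field F]
  [NumberField F] [Algebra E F'] [Algebra F' F] [Algebra E F] [IsScalarTower E F' F]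

lemma ev_ev (ℓ : PrI E → ZMod 2) (w : PrI F) : ev F' (ev E ℓ) w = ev E ℓ w := by
  haveI : w.asIdeal.LiesOver (und F' w).asIdeal := ⟨rfl⟩
  rw [ev, ev, ev, und_und, ← mul_smul]
  congr 1
  have h1 := pn_eq_pow F' w
  have h2 := pn_eq_pow E (und F' w)
  have h3 := pn_eq_pow E w
  rw [h1, h2, und_und, ← pow_mul] at h3
  have h4 := Nat.pow_right_injective (two_le_pn (und E w)) h3
  rw [← h4, mul_comm]

end gen

section lift

variable {K E F : Type*} [Field K] [NumberField K] [Field E] [NumberField E] [Field F]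
    [NumberField F] [Algebra K E] [Algebra K F] [Algebra E F] [IsScalarTower K E F]

lemma und_pg_lift {g : E ≃ₐ[K] E} {g' : F ≃ₐ[K] F}
    (h : ∀ x : E, algebraMap E F (g x) = g' (algebraMap E F x)) (w : PrI F) :
    und E (pg g' w) = pg g (und E w) := by
  have hinv : ∀ x : E, algebraMap E F (g⁻¹ x) = g'⁻¹ (algebraMap E F x) := by
    intro x
    have h1 := h (g⁻¹ x)
    rw [← AlgEquiv.mul_apply, mul_inv_cancel, AlgEquiv.one_apply] at h1
    rw [h1, ← AlgEquiv.mul_apply, inv_mul_cancel, AlgEquiv.one_apply]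
  apply HeightOneSpectrum.ext
  ext a
  have h1 : ∀ (v : PrI F) (b : 𝓞 E),
      b ∈ (und E v).asIdeal ↔ algebraMap (𝓞 E) (𝓞 F) b ∈ v.asIdeal :=
    fun v b => Iff.rfl
  rw [h1, mem_pg, mem_pg, h1]
  have h2 : g'⁻¹ • algebraMap (𝓞 E) (𝓞 F) a = algebraMap (𝓞 E) (𝓞 F) (g⁻¹ • a) := by
    apply RingOfIntegers.coe_injective
    rw [coe_smul']
    exact (hinv a).symm
  rw [h2]

lemma exists_lift_aut [IsGalois K E] [IsGalois K F] (g : E ≃ₐ[K] E) :
    ∃ g' : F ≃ₐ[K] F, ∀ x : E, algebraMap E F (g x) = g' (algebraMap E F x) := by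
  obtain ⟨g', hg'⟩ := AlgEquiv.restrictNormalHom_surjective (F := K) (K₁ := E) F g
  refine ⟨g', fun x => ?_⟩
  rw [← hg']
  exact AlgEquiv.restrictNormal_commutes g' E x

lemma ev_pg [IsGalois K E] [IsGalois K F] {g : E ≃ₐ[K] E} {g' : F ≃ₐ[K] F}
    (h : ∀ x : E, algebraMap E F (g x) = g' (algebraMap E F x)) (ℓ : PrI E → ZMod 2) (w : PrI F) :
    ev E ℓ (pg g' w) = ev E (fun u => ℓ (pg g u)) w := by
  have h1 := und_pg_lift h w
  rw [ev, ev, h1]
  congr 1
  apply inertia_eq (pn_pg g' w)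
  rw [h1, pn_pg]

lemma comm_down [IsGalois K E] [IsGalois K F] (hab : ∀ σ τ : F ≃ₐ[K] F, σ * τ = τ * σ) :
    ∀ σ τ : E ≃ₐ[K] E, σ * τ = τ * σ := by
  intro σ τ
  obtain ⟨σ', rfl⟩ := AlgEquiv.restrictNormalHom_surjective (F := K) (K₁ := E) F σ
  obtain ⟨τ', rfl⟩ := AlgEquiv.restrictNormalHom_surjective (F := K) (K₁ := E) F τ
  rw [← map_mul, ← map_mul, hab]

end lift

/-- An element of order two in a nontrivial group of exponent a power of two. -/
lemma exists_invol {G : Type*} [Group G] {σ : G} (h1 : σ ≠ 1) (h2 : ∃ j : ℕ, σ ^ (2 ^ j) = 1) :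
    ∃ τ : G, τ ≠ 1 ∧ τ ^ 2 = 1 := by
  classical
  set j := Nat.find h2 with hj
  have hj1 : σ ^ (2 ^ j) = 1 := Nat.find_spec h2
  have hj0 : j ≠ 0 := by
    intro h0
    rw [h0, pow_zero, pow_one] at hj1
    exact h1 hj1
  refine ⟨σ ^ (2 ^ (j - 1)), Nat.find_min h2 (by omega), ?_⟩
  rw [← pow_mul, ← pow_succ]
  have : j - 1 + 1 = j := by omega
  rw [this, hj1]

section tower

variable {K : Type*} {E : Type} [Field K] [NumberField K] [Field E] [NumberField E] [Algebra K E]
  [IsGalois K E]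

lemma ray_tower (Λ : AddSubgroup (PrI E → ZMod 2))
    (hG : ∀ ℓ ∈ Λ, ∀ g : E ≃ₐ[K] E, (fun u => ℓ (pg g u)) ∈ Λ)
    (hray : ∀ ℓ ∈ Λ, RayFn ℓ)
    (hinv : ∀ ℓ ∈ Λ, ℓ ≠ 0 → ∃ g : E ≃ₐ[K] E, (fun u => ℓ (pg g u)) ≠ ℓ) :
    ∀ (k : ℕ) (F : Type) [Field F] [NumberField F] [Algebra K F] [Algebra E F]
      [IsScalarTower K E F] [IsGalois K F], (∀ σ τ : F ≃ₐ[K] F, σ * τ = τ * σ) →
      (∀ σ : F ≃ₐ[E] F, ∃ j : ℕ, σ ^ (2 ^ j) = 1) → Module.finrank E F = k →
      ∀ ℓ ∈ Λ, ℓ ≠ 0 → ∃ w : PrI F, ev E ℓ w = 1 := by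
  intro k
  induction k using Nat.strong_induction_on with
  | _ k ih =>
  intro F _ _ _ _ _ _ hab hΩ hk ℓ hℓ h0
  haveI : IsGalois E F := IsGalois.tower_top_of_isGalois K E F
  by_cases htriv : ∀ σ : F ≃ₐ[E] F, σ = 1
  · have h1 : Module.finrank E F = 1 := by
      rw [← IsGalois.card_aut_eq_finrank, Nat.card_eq_one_iff_unique]
      exact ⟨⟨fun a b => by rw [htriv a, htriv b]⟩, ⟨1⟩⟩
    obtain ⟨u, hu⟩ : ∃ u, ℓ u ≠ 0 := by
      by_contra hcon
      push Not at hcon
      exact h0 (funext hcon)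
    obtain ⟨w, hw⟩ := exists_ovr (K := E) (L := F) u
    refine ⟨w, ?_⟩
    have h2 := ncard_ovr_mul E w
    rw [h1] at h2
    have h3 := Nat.eq_one_of_mul_eq_one_left (Nat.eq_one_of_mul_eq_one_left h2)
    rw [ev, h3, one_smul, hw]
    exact (zmod2 _).resolve_left hu
  · push Not at htriv
    obtain ⟨σ, hσ⟩ := htriv
    obtain ⟨τ, hτ1, hτ2⟩ := exists_invol hσ (hΩ σ)
    set F' : IntermediateField E F := IntermediateField.fixedField (Subgroup.zpowers τ) with hF'
    have hdeg : Module.finrank F' F = 2 := by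
      rw [hF', IntermediateField.finrank_fixedField_eq_card, Nat.card_zpowers]
      exact orderOf_eq_prime hτ2 hτ1
    haveI htow : IsScalarTower K F' F := IsScalarTower.of_algebraMap_eq fun x => rfl
    haveI hgal : IsGalois K F' := by
      have h1 : IsGalois K (F'.restrictScalars K) := by
        haveI : ((F'.restrictScalars K).fixingSubgroup).Normal := ⟨fun n hn g => by
          rwa [hab g n, mul_inv_cancel_right]⟩
        rw [← IsGalois.fixedField_fixingSubgroup (F'.restrictScalars K)]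
        exact IsGalois.of_fixedField_normal_subgroup _
      exact h1
    haveI : IsGalois E F' := IsGalois.tower_top_of_isGalois K E F'
    have hlt : Module.finrank E F' < k := by
      have h1 := Module.finrank_mul_finrank E F' F
      have h2 : 0 < Module.finrank E F' := Module.finrank_pos
      rw [hdeg, hk] at h1
      omega
    have hΩ' : ∀ ρ : F' ≃ₐ[E] F', ∃ j : ℕ, ρ ^ (2 ^ j) = 1 := by
      intro ρ
      obtain ⟨ρ', rfl⟩ := AlgEquiv.restrictNormalHom_surjective (F := E) (K₁ := F') F ρ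
      obtain ⟨j, hj⟩ := hΩ ρ'
      exact ⟨j, by rw [← map_pow, hj, map_one]⟩
    have IH := ih _ hlt F' (comm_down hab) hΩ' rfl
    obtain ⟨g, hg⟩ := hinv ℓ hℓ h0
    set gℓ : PrI E → ZMod 2 := fun u => ℓ (pg g u) with hgℓ
    have hgℓm : gℓ ∈ Λ := hG ℓ hℓ g
    have hgℓ0 : gℓ ≠ 0 := by
      intro h
      apply h0
      funext u
      have h1 := congrFun h (pg g⁻¹ u)
      simp only [hgℓ] at h1
      rwa [pg_pg_inv] at h1
    have hs0 : ℓ + gℓ ≠ 0 := by
      intro h
      apply hg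
      funext u
      have h1 := congrFun h u
      rw [Pi.add_apply, Pi.zero_apply, add_eq_zero_iff_eq_neg, CharTwo.neg_eq] at h1
      exact h1.symm
    have n1 := IH ℓ hℓ h0
    have n2 := IH gℓ hgℓm hgℓ0
    have n3 := IH (ℓ + gℓ) (Λ.add_mem hℓ hgℓm) hs0
    have r1 : RayFn (ev E ℓ : PrI F' → ZMod 2) := (hray ℓ hℓ).up
    have r2 : RayFn (ev E gℓ : PrI F' → ZMod 2) := (hray gℓ hgℓm).up
    have r3 : RayFn (ev E (ℓ + gℓ) : PrI F' → ZMod 2) := (hray _ (Λ.add_mem hℓ hgℓm)).up
    rw [ev_add] at r3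
    have n3' : ∃ P : PrI F', ((ev E ℓ : PrI F' → ZMod 2) + (ev E gℓ : PrI F' → ZMod 2)) P = 1 := by
      rwa [← ev_add]
    obtain ⟨w, hw, hw'⟩ := exists_degree_one (F₂ := F) hdeg r1 r2 r3 n1 n2 n3'
    rcases hw' with hw' | hw'
    · refine ⟨w, ?_⟩
      rw [← ev_ev (F' := F'), ev_one_of hw, hw']
    · obtain ⟨g', hg'⟩ := exists_lift_aut (F := F) g
      refine ⟨pg g' w, ?_⟩
      rw [ev_pg hg', ← ev_ev (F' := F'), ev_one_of hw]
      exact hw'

end tower

/-- **V1.** `E ⊂ Ω` abelian over `K`, `Gal(Ω/E)` a 2-group. `Λ` a Galois stable group of quadratic ray class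
characters of `E`, no nonzero element of `Λ` is fixed by `Gal(E/K)`. Then for `ℓ ≠ 0` in `Λ` the primes `w` of `Ω` of
degree one over `K` with `ℓ (w ∩ E) = 1` have lower density at least `1 / 2`. -/
theorem dens_lower {K : Type*} {E Ω : Type} [Field K] [NumberField K] [Field E] [NumberField E] [Field Ω]
    [NumberField Ω] [Algebra K E] [Algebra K Ω] [Algebra E Ω] [IsScalarTower K E Ω] [IsGalois K E]
    [IsGalois K Ω] (hab : ∀ σ τ : Ω ≃ₐ[K] Ω, σ * τ = τ * σ)
    (hΩ : ∀ σ : Ω ≃ₐ[E] Ω, ∃ j : ℕ, σ ^ (2 ^ j) = 1)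
    (Λ : AddSubgroup (PrI E → ZMod 2))
    (hG : ∀ ℓ ∈ Λ, ∀ g : E ≃ₐ[K] E, (fun u => ℓ (pg g u)) ∈ Λ)
    (hray : ∀ ℓ ∈ Λ, IsRay ℓ)
    (hinv : ∀ ℓ ∈ Λ, ℓ ≠ 0 → ∃ g : E ≃ₐ[K] E, (fun u => ℓ (pg g u)) ≠ ℓ)
    (ℓ : PrI E → ZMod 2) (hℓ : ℓ ∈ Λ) (h0 : ℓ ≠ 0) :
    DensGe {w : PrI Ω | pn w = pn (und K w) ∧ ℓ (und E w) = 1} (1 / 2) := by
  classical
  haveI : IsGalois E Ω := IsGalois.tower_top_of_isGalois K E Ω
  have hex := ray_tower Λ hG (fun ℓ hℓ => (hray ℓ hℓ).rayFn) hinv _ Ω hab hΩ rfl ℓ hℓ h0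
  have hr : RayFn (ev E ℓ : PrI Ω → ZMod 2) := (hray ℓ hℓ).rayFn.up
  obtain ⟨C, hC⟩ := hr.densGe hex
  set A : Set (PrI Ω) := {w | ev E ℓ w = 1} with hA
  set B : Set (PrI Ω) := {w | pn w = pn (und K w) ∧ ℓ (und E w) = 1} with hB
  set N : Set (PrI Ω) := {w | pn w ≠ pn (und K w)} with hN
  refine ⟨C + Module.finrank K Ω * primeSum K 2, ?_⟩
  filter_upwards [hC, self_mem_nhdsWithin] with s h1 h2
  have hs : (1 : ℝ) < s := h2
  have e1 : ∑' w, A.indicator (px s) w ≤ ∑' w, B.indicator (px s) w + ∑' w, N.indicator (px s) w := by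
    rw [← (ind_summable B hs).tsum_add (ind_summable N hs)]
    apply (ind_summable A hs).tsum_le_tsum _ ((ind_summable B hs).add (ind_summable N hs))
    intro w
    have p1 := ind_nonneg B s w
    have p2 := ind_nonneg N s w
    by_cases hwA : w ∈ A
    · rw [Set.indicator_of_mem hwA]
      by_cases hwN : w ∈ N
      · rw [Set.indicator_of_mem hwN (f := px s)]
        linarith
      · have hpn : pn w = pn (und K w) := not_not.1 hwN
        have hpnE : pn w = pn (und E w) := by
          apply le_antisymm _ (pn_und_le E w)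
          have h3 := pn_und_le K (und E w)
          rw [und_und] at h3
          rwa [hpn]
        have hwB : w ∈ B := by
          refine ⟨hpn, ?_⟩
          have h4 : ev E ℓ w = 1 := hwA
          rwa [ev_one_of hpnE] at h4
        rw [Set.indicator_of_mem hwB (f := px s)]
        linarith
    · rw [Set.indicator_of_notMem hwA]
      linarith
  have e2 : ∑' w, N.indicator (px s) w ≤ Module.finrank K Ω * primeSum K 2 := by
    apply (ind_summable N hs).tsum_le_of_sum_le
    intro T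
    refine le_trans ?_ (sum_und_le K (px 2) (fun p => (px_pos 2 p).le) (summable_px one_lt_two) T)
    apply Finset.sum_le_sum
    intro w _
    by_cases hw : w ∈ N
    · rw [Set.indicator_of_mem hw]
      exact px_le_of_sq_le hw hs
    · rw [Set.indicator_of_notMem hw]
      exact (px_pos 2 _).le
  linarith

end Pool.Agent.STc
end

section

/-!
# Density of the primes at which two independent elements are local squares
-/

set_option linter.unusedSectionVars false
set_option linter.style.haveILetI false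

open NumberField IsDedekindDomain Filter Topology

namespace Pool.Agent.STc

open Pool.Agent.ST Pool.Agent.STb

section den

variable {E : Type*} [Field E] [NumberField E]

/-- Integral multiples prime to a given prime. -/
lemma exists_den (P : PrI E) {y : E} (hy : P.valuation E y ≤ 1) :
    ∃ d : 𝓞 E, d ∉ P.asIdeal ∧ ∃ a : 𝓞 E, (a : E) = d * y := by
  classical
  have hfin := HeightOneSpectrum.Support.finite (𝓞 E) y
  have ht : ∀ Q : PrI E, ∃ t : 𝓞 E, t ∉ P.asIdeal ∧
      (Q ≠ P → Q.valuation E (t : E) * Q.valuation E y ≤ 1) := by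
    intro Q
    by_cases hQ : Q = P
    · exact ⟨1, fun h => P.isPrime.ne_top ((Ideal.eq_top_iff_one _).2 h), fun h => absurd hQ h⟩
    · obtain ⟨t, ht1, ht2⟩ : ∃ t : 𝓞 E, t ∈ Q.asIdeal ∧ t ∉ P.asIdeal := by
        by_contra hcon
        push Not at hcon
        apply hQ
        apply HeightOneSpectrum.ext
        exact Q.isMaximal.eq_of_le P.isPrime.ne_top hcon
      obtain ⟨k, hk⟩ := pow_small (b := Q.valuation E y)
        ((Q.valuation_lt_one_iff_mem (K := E) t).2 ht1)
      refine ⟨t ^ k, fun h => ht2 (P.isPrime.mem_of_pow_mem k h), fun _ => ?_⟩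
      have h1 : ((t ^ k : 𝓞 E) : E) = (t : E) ^ k := by push_cast; rfl
      rw [h1, map_pow]
      exact hk
  choose t ht1 ht2 using ht
  set d : 𝓞 E := ∏ Q ∈ hfin.toFinset, t Q with hd
  refine ⟨d, ?_, ?_⟩
  · intro h
    obtain ⟨Q, _, hQ⟩ := (P.isPrime.prod_mem_iff).1 h
    exact ht1 Q hQ
  · have h1 : ∀ Q : PrI E, Q.valuation E ((d : E) * y) ≤ 1 := by
      intro Q
      rw [map_mul]
      by_cases hlt : 1 < Q.valuation E y
      · have hmem : Q ∈ hfin.toFinset := (Set.Finite.mem_toFinset _).2 hlt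
        have hQP : Q ≠ P := by
          rintro rfl
          exact absurd hlt (not_lt.2 hy)
        have h5 : d = t Q * ∏ Q' ∈ hfin.toFinset.erase Q, t Q' :=
          (Finset.mul_prod_erase _ _ hmem).symm
        have h6 : Q.valuation E (d : E) ≤ Q.valuation E (t Q : E) := by
          have h7 : (d : E) = (t Q : E) * ((∏ Q' ∈ hfin.toFinset.erase Q, t Q' : 𝓞 E) : E) := by
            rw [h5]; push_cast; rfl
          rw [h7, map_mul]
          exact mul_le_of_le_one_right' (Q.valuation_le_one (K := E) _)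
        exact (mul_le_mul_left h6 _).trans (ht2 Q hQP)
      · exact mul_le_one' (Q.valuation_le_one (K := E) _) (not_lt.1 hlt)
    obtain ⟨z, hz⟩ := HeightOneSpectrum.mem_integers_of_valuation_le_one E _ h1
    exact ⟨z, hz⟩

end den

section frobfix

variable {K L : Type*} [Field K] [NumberField K] [Field L] [NumberField L] [Algebra K L]

lemma val_lt_up (P : PrI L) {t : K} (ht : (und K P).valuation K t < 1) :
    P.valuation L (algebraMap K L t) < 1 := by
  haveI : P.asIdeal.LiesOver (und K P).asIdeal := ⟨rfl⟩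
  have h1 := HeightOneSpectrum.valuation_liesOver L (und K P) P t
  rw [← h1]
  exact pow_lt_one₀ zero_le ht
    (Ideal.IsDedekindDomain.ramificationIdx'_ne_zero_of_liesOver P.asIdeal (und K P).ne_bot)

/-- The Frobenius fixes the square roots of local squares. -/
lemma frob_fix {P : PrI L} {σ : L ≃ₐ[K] L} (hσ : IsFrob K P σ) (h2 : (2 : 𝓞 L) ∉ P.asIdeal)
    {a : L} {y : K} (ha : a ^ 2 = algebraMap K L y) (hy : LSq (und K P) y) : σ a = a := by
  have hy0 := hy.ne_zero
  obtain ⟨z, hz⟩ := hy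
  have hsq : (σ a) ^ 2 = a ^ 2 := by rw [← map_pow, ha, σ.commutes]
  rcases sq_eq_sq_iff_eq_or_eq_neg.1 hsq with h | h
  · exact h
  exfalso
  set x : L := algebraMap K L z * a with hx
  have hx2 : P.valuation L (x ^ 2 - 1) < 1 := by
    have h1 : x ^ 2 - 1 = algebraMap K L (y * z ^ 2 - 1) := by
      rw [hx, mul_pow, ha, map_sub, map_mul, map_pow, map_one]
      ring
    rw [h1]
    exact val_lt_up P hz
  have hx1 : P.valuation L (x ^ 2) = 1 := by
    have h3 : x ^ 2 = (x ^ 2 - 1) + 1 := by ring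
    rw [h3, Valuation.map_add_eq_of_lt_right (P.valuation L) (x := x ^ 2 - 1) (y := 1)
      (by rwa [map_one]), map_one]
  have hxle : P.valuation L x ≤ 1 := by
    by_contra hgt
    rw [not_le] at hgt
    have := one_lt_pow₀ hgt (two_ne_zero)
    rw [← map_pow, hx1] at this
    exact lt_irrefl _ this
  obtain ⟨d, hd, α, hα⟩ := exists_den P hxle
  have hα' : algebraMap (𝓞 L) L α = algebraMap (𝓞 L) L d * x := hα
  have hσx : σ x = -x := by
    rw [hx, map_mul, σ.commutes, h, mul_neg]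
  have hmem : (α - d) * (α + d) ∈ P.asIdeal := by
    refine (P.valuation_lt_one_iff_mem (K := L) _).1 ?_
    change P.valuation L (algebraMap (𝓞 L) L ((α - d) * (α + d))) < 1
    have h1 : algebraMap (𝓞 L) L ((α - d) * (α + d)) =
        (algebraMap (𝓞 L) L d) ^ 2 * (x ^ 2 - 1) := by
      rw [map_mul, map_sub, map_add, hα']
      ring
    rw [h1, map_mul, map_pow, P.valuation_eq_one_iff_notMem.2 hd, one_pow, one_mul]
    exact hx2
  -- both signs lead to a contradiction
  have key : ∀ β : 𝓞 L, (algebraMap (𝓞 L) L β = algebraMap (𝓞 L) L d * x ∨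
      algebraMap (𝓞 L) L β = -(algebraMap (𝓞 L) L d * x)) → β - d ∈ P.asIdeal → False := by
    intro β hβ hβd
    have h1 : d * (σ • β) = -((σ • d) * β) := by
      apply RingOfIntegers.coe_injective
      have e1 : algebraMap (𝓞 L) L (d * (σ • β)) =
          algebraMap (𝓞 L) L d * σ (algebraMap (𝓞 L) L β) := by
        rw [map_mul, coe_smul']
      have e2 : algebraMap (𝓞 L) L (-((σ • d) * β)) =
          -(σ (algebraMap (𝓞 L) L d) * algebraMap (𝓞 L) L β) := by
        rw [map_neg, map_mul, coe_smul']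
      rw [e1, e2]
      rcases hβ with hβ | hβ
      · rw [hβ, map_mul, hσx]
        ring
      · rw [hβ, map_neg, map_mul, hσx]
        ring
    have h3 := hσ β
    have h4 := hσ d
    set Q := pn (und K P) with hQ
    have h5 : β ^ Q - d ^ Q ∈ P.asIdeal := by
      rw [← Ideal.Quotient.eq, map_pow, map_pow]
      rw [← Ideal.Quotient.eq] at hβd
      rw [hβd]
    -- 2 d d ^ Q ∈ P
    have h6 : 2 * (d * d ^ Q) ∈ P.asIdeal := by
      rw [← Ideal.Quotient.eq] at h3 h4 h5 hβd
      rw [← Ideal.Quotient.eq_zero_iff_mem]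
      have h7 := congrArg (Ideal.Quotient.mk P.asIdeal) h1
      rw [map_mul, h3, h5, map_neg, map_mul, h4, hβd] at h7
      rw [map_mul, map_mul, map_ofNat]
      linear_combination h7
    rcases P.isPrime.mem_or_mem h6 with h8 | h8
    · exact h2 h8
    · rcases P.isPrime.mem_or_mem h8 with h9 | h9
      · exact hd h9
      · exact hd (P.isPrime.mem_of_pow_mem _ h9)
  rcases P.isPrime.mem_or_mem hmem with h1 | h1
  · exact key α (Or.inl hα') h1
  · refine key (-α) (Or.inr (by rw [map_neg, hα'])) ?_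
    have : -α - d = -(α + d) := by ring
    rw [this]
    exact P.asIdeal.neg_mem h1

end frobfix

section biquad

/-- Linear independence of `1, a, b, ab`. -/
lemma four_le_finrank {K L : Type*} [Field K] [Field L] [Algebra K L] [FiniteDimensional K L]
    [CharZero K] {y₁ y₂ : K} (h1 : ¬ IsSquare y₁) (h2 : ¬ IsSquare y₂) (h12 : ¬ IsSquare (y₁ * y₂))
    {a b : L} (ha : a ^ 2 = algebraMap K L y₁) (hb : b ^ 2 = algebraMap K L y₂) :
    4 ≤ Module.finrank K L := by
  have inj := (algebraMap K L).injective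
  -- `1, a` independent
  have ind : ∀ c d : K, algebraMap K L c + algebraMap K L d * a = 0 → c = 0 ∧ d = 0 := by
    intro c d h
    by_cases hd : d = 0
    · rw [hd, map_zero, zero_mul, add_zero] at h
      exact ⟨inj (by rw [h, map_zero]), hd⟩
    · exfalso
      apply h1
      refine ⟨c / d, inj ?_⟩
      have hd' : algebraMap K L d ≠ 0 := fun h => hd (inj (by rw [h, map_zero]))
      have h3 : a = -(algebraMap K L c / algebraMap K L d) := by
        field_simp
        linear_combination h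
      rw [← ha, h3, map_mul, map_div₀]
      ring
  have hb' : ∀ u v : K, b ≠ algebraMap K L u + algebraMap K L v * a := by
    intro u v h
    have h3 : algebraMap K L (u ^ 2 + v ^ 2 * y₁ - y₂) + algebraMap K L (2 * u * v) * a = 0 := by
      simp only [map_add, map_sub, map_mul, map_pow, map_ofNat]
      rw [← ha, ← hb, h]
      ring
    obtain ⟨h4, h5⟩ := ind _ _ h3
    have h20 : (2 : K) ≠ 0 := two_ne_zero
    rcases mul_eq_zero.1 h5 with h6 | h6
    · have hu : u = 0 := (mul_eq_zero.1 h6).resolve_left h20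
      apply h12
      refine ⟨v * y₁, ?_⟩
      rw [hu] at h4
      linear_combination (-y₁) * h4
    · apply h2
      refine ⟨u, ?_⟩
      rw [h6] at h4
      linear_combination -h4
  have hli : LinearIndependent K ![1, a, b, a * b] := by
    rw [Fintype.linearIndependent_iff]
    intro c hc
    simp only [Fin.sum_univ_four, Matrix.cons_val_zero, Matrix.cons_val_one, Matrix.cons_val,
      Algebra.smul_def] at hc
    have hc' : (algebraMap K L (c 0) + algebraMap K L (c 1) * a) +
        (algebraMap K L (c 2) + algebraMap K L (c 3) * a) * b = 0 := by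
      linear_combination hc
    by_cases hz : algebraMap K L (c 2) + algebraMap K L (c 3) * a = 0
    · rw [hz, zero_mul, add_zero] at hc'
      obtain ⟨e1, e2⟩ := ind _ _ hc'
      obtain ⟨e3, e4⟩ := ind _ _ hz
      intro i
      fin_cases i
      · exact e1
      · exact e2
      · exact e3
      · exact e4
    · exfalso
      set N : K := c 2 ^ 2 - c 3 ^ 2 * y₁ with hN
      have hNL : algebraMap K L N = (algebraMap K L (c 2) + algebraMap K L (c 3) * a) *
          (algebraMap K L (c 2) + algebraMap K L (-(c 3)) * a) := by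
        simp only [hN, map_sub, map_mul, map_pow, map_neg]
        rw [← ha]
        ring
      have hN0 : algebraMap K L N ≠ 0 := by
        rw [hNL]
        refine mul_ne_zero hz ?_
        intro h
        obtain ⟨e3, e4⟩ := ind _ _ h
        apply hz
        rw [e3, neg_eq_zero.1 e4]
        simp
      have hNK : N ≠ 0 := fun h => hN0 (by rw [h, map_zero])
      apply hb' (-(c 0 * c 2 - c 1 * c 3 * y₁) / N) (-(c 1 * c 2 - c 0 * c 3) / N)
      simp only [map_div₀, map_neg, map_sub, map_mul]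
      rw [← ha]
      field_simp
      rw [hNL]
      simp only [map_neg]
      linear_combination (algebraMap K L (c 2) - algebraMap K L (c 3) * a) * hc'
  have := hli.fintype_card_le_finrank
  simpa using this

end biquad

/-- **V2.** Upper bound for the density of the primes at which two independent elements are local squares. -/
theorem dens_upper {Ω : Type} [Field Ω] [NumberField Ω] (y₁ y₂ : Ω) (h1 : ¬ IsSquare y₁)
    (h2 : ¬ IsSquare y₂) (h12 : ¬ IsSquare (y₁ * y₂)) :
    ∃ C : ℝ, ∀ᶠ s in 𝓝[>] (1 : ℝ),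
      ∑' w, {w : PrI Ω | LSq w y₁ ∧ LSq w y₂}.indicator (px s) w ≤
        (1 / 4) * Real.log (1 / (s - 1)) + C := by
  classical
  have hy1 : y₁ ≠ 0 := fun h => h1 ⟨0, by rw [h, mul_zero]⟩
  have hy2 : y₂ ≠ 0 := fun h => h2 ⟨0, by rw [h, mul_zero]⟩
  set p : Polynomial Ω := (Polynomial.X ^ 2 - Polynomial.C y₁) * (Polynomial.X ^ 2 - Polynomial.C y₂)
    with hp
  set L := p.SplittingField with hL
  haveI : CharZero L := charZero_of_injective_algebraMap (algebraMap Ω L).injective
  haveI : NumberField L := NumberField.of_module_finite Ω L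
  haveI : IsGalois Ω L := { }
  have hne1 : (Polynomial.X ^ 2 - Polynomial.C y₁ : Polynomial Ω) ≠ 0 :=
    Polynomial.X_pow_sub_C_ne_zero two_pos y₁
  have hne2 : (Polynomial.X ^ 2 - Polynomial.C y₂ : Polynomial Ω) ≠ 0 :=
    Polynomial.X_pow_sub_C_ne_zero two_pos y₂
  have hspl := Polynomial.SplittingField.splits p
  have hroot : ∀ y : Ω, (Polynomial.X ^ 2 - Polynomial.C y) ∣ p →
      ∃ a : L, a ^ 2 = algebraMap Ω L y := by
    intro y hy
    have h3 : ((Polynomial.X ^ 2 - Polynomial.C y : Polynomial Ω).map (algebraMap Ω L)).Splits :=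
      hspl.of_dvd (Polynomial.map_ne_zero (mul_ne_zero hne1 hne2)) (Polynomial.map_dvd _ hy)
    obtain ⟨a, ha⟩ := h3.exists_eval_eq_zero (by
      rw [Polynomial.degree_map, Polynomial.degree_X_pow_sub_C two_pos]
      norm_num)
    refine ⟨a, ?_⟩
    rw [Polynomial.eval_map] at ha
    simp only [Polynomial.eval₂_sub, Polynomial.eval₂_pow, Polynomial.eval₂_X,
      Polynomial.eval₂_C] at ha
    exact sub_eq_zero.1 ha
  obtain ⟨a, ha⟩ := hroot y₁ (Dvd.intro _ rfl)
  obtain ⟨b, hb⟩ := hroot y₂ (Dvd.intro_left _ rfl)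
  have hdeg : 4 ≤ Module.finrank Ω L := four_le_finrank h1 h2 h12 ha hb
  set G : Set (PrI Ω) := {w : PrI Ω | LSq w y₁ ∧ LSq w y₂} with hG
  set B₀ : Set (PrI Ω) := {w : PrI Ω | w.asIdeal ∣ Ideal.span {(2 : 𝓞 Ω)}} ∪
    und Ω '' {P : PrI L | ¬ Algebra.IsUnramifiedAt (𝓞 Ω) P.asIdeal} with hB₀
  have hB₀fin : B₀.Finite := by
    refine Set.Finite.union (Ideal.finite_factors ?_) ((finite_ramified Ω).image _)
    rw [Ne, Ideal.zero_eq_bot, Ideal.span_singleton_eq_bot]
    exact two_ne_zero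
  have hup := split_upper (K := Ω) (L := L) (G \ B₀) (by
    rintro w ⟨⟨hw1, hw2⟩, hw0⟩ P hP
    have hun : Algebra.IsUnramifiedAt (𝓞 Ω) P.asIdeal := by
      by_contra hcon
      exact hw0 (Or.inr ⟨P, hcon, hP⟩)
    refine ⟨hun, ?_⟩
    have h2P : (2 : 𝓞 L) ∉ P.asIdeal := by
      intro h
      apply hw0
      left
      change w.asIdeal ∣ Ideal.span {(2 : 𝓞 Ω)}
      rw [Ideal.dvd_iff_le, Ideal.span_singleton_le_iff_mem, ← hP]
      change algebraMap (𝓞 Ω) (𝓞 L) 2 ∈ P.asIdeal
      rwa [map_ofNat]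
    obtain ⟨σ, hσ⟩ := exists_isFrob (K := Ω) P
    have hfix : ∀ x ∈ p.rootSet L, σ x = x := by
      intro x hx
      have h3 := (Polynomial.mem_rootSet.1 hx).2
      simp only [hp, map_mul, map_sub, map_pow, Polynomial.aeval_X, Polynomial.aeval_C] at h3
      rcases mul_eq_zero.1 h3 with h4 | h4
      · exact frob_fix hσ h2P (sub_eq_zero.1 h4) (hP ▸ hw1)
      · exact frob_fix hσ h2P (sub_eq_zero.1 h4) (hP ▸ hw2)
    have h5 : (σ : L →ₐ[Ω] L) = AlgHom.id Ω L :=
      AlgHom.ext_of_adjoin_eq_top (Polynomial.SplittingField.adjoin_rootSet p) (fun x hx => hfix x hx)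
    have h6 : σ = 1 := by
      ext x
      exact DFunLike.congr_fun h5 x
    rwa [h6] at hσ)
  obtain ⟨C, hC⟩ := hup
  obtain ⟨C', hC'⟩ := (DensLe.of_finite hB₀fin).tsum_le
  refine ⟨C / 4 + C', ?_⟩
  filter_upwards [hC, self_mem_nhdsWithin, ev_lt_two] with s e1 e2 e3
  have hs : (1 : ℝ) < s := e2
  have e4 := hC' s hs e3
  rw [zero_mul, zero_add] at e4
  have e5 : ∑' w, G.indicator (px s) w ≤ ∑' w, (G \ B₀).indicator (px s) w +
      ∑' w, B₀.indicator (px s) w := by
    rw [← (ind_summable (G \ B₀) hs).tsum_add (ind_summable B₀ hs)]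
    apply (ind_summable G hs).tsum_le_tsum _ ((ind_summable (G \ B₀) hs).add (ind_summable B₀ hs))
    intro w
    have p1 := ind_nonneg (G \ B₀) s w
    have p2 := ind_nonneg B₀ s w
    by_cases hwG : w ∈ G
    · rw [Set.indicator_of_mem hwG]
      by_cases hwB : w ∈ B₀
      · rw [Set.indicator_of_mem hwB (f := px s)]
        linarith
      · have : w ∈ G \ B₀ := ⟨hwG, hwB⟩
        rw [Set.indicator_of_mem this (f := px s)]
        linarith
    · rw [Set.indicator_of_notMem hwG]
      linarith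
  have e6 : 0 ≤ ∑' w, (G \ B₀).indicator (px s) w := tsum_nonneg fun w => ind_nonneg _ s w
  have e7 : (4 : ℝ) ≤ Module.finrank Ω L := by exact_mod_cast hdeg
  have e8 := mul_le_mul_of_nonneg_right e7 e6
  linarith

end Pool.Agent.STc
end
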