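import Pool.Agent.Lib.MP_1ef7cf_nt_c.Mg.G001
import Pool.Agent.Lib.MP_1ef7cf_nt_c.VMain
import Pool.Agent.Lib.MP_1ef7cf_nt_c.Omega
import Pool.Agent.Lib.MP_1ef7cf_nt_c.DGal
import Pool.Agent.Lib.MP_1ef7cf_nt_c.NPrimes
import Pool.Agent.Lib.MP_1ef7cf_nt.Mg.G001

section

/-!
# The choice of the new prime
-/

set_option linter.unusedSectionVars false

open NumberField IsDedekindDomain nonZeroDivisors IntermediateField

namespace Pool.Agent.STc

open Pool.Agent.ST Pool.Agent.STb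

section fin

variable {K L : Type*} [Field K] [NumberField K] [Field L] [NumberField L] [Algebra K L]

lemma finite_over (q : PrI K) : {P : PrI L | und K P = q}.Finite := by
  refine (Ideal.finite_factors (I := q.asIdeal.map (algebraMap (𝓞 K) (𝓞 L))) ?_).subset ?_
  · rw [Ne, Ideal.zero_eq_bot, Ideal.map_eq_bot_iff_of_injective
      (FaithfulSMul.algebraMap_injective (𝓞 K) (𝓞 L))]
    exact q.ne_bot
  · intro P hP
    change P.asIdeal ∣ _
    rw [Ideal.dvd_iff_le, Ideal.map_le_iff_le_comap]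
    have : und K P = q := hP
    rw [← this]
    exact le_rfl

lemma finite_over_set {S : Set (PrI K)} (hS : S.Finite) : {P : PrI L | und K P ∈ S}.Finite :=
  hS.preimage' fun q _ => finite_over q

end fin

variable {K : Type*} [Field K] [NumberField K] [Algebra K ℝ]

attribute [local instance] numberField_of_fd

section beta

variable {σ₂ : K →+* ℝ} {m : Ideal (𝓞 K)} {H : IntermediateField K ℝ}

/-- generators of the primes which split completely in the ray class field -/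
lemma exists_beta {Art : RayClassGroup σ₂ m ≃* (H ≃ₐ[K] H)} (hr : IsRayClassField σ₂ m H Art)
    {q : PrI K} (hq : ¬ q.asIdeal ∣ m) (hs : Spl q H) :
    ∃ β : 𝓞 K, q.asIdeal = Ideal.span {β} ∧ β - 1 ∈ m ∧ 0 < σ₂ (β : K) := by
  have := hr.finite
  have := hr.galois
  obtain ⟨h1, h2⟩ := frobAt_rcf hr hq
  have h3 : Art (cls σ₂ m (prJ m q hq)) = 1 := (h2.spl_iff h1).1 hs
  rw [map_eq_one_iff Art Art.injective, cls_eq_one_iff] at h3
  obtain ⟨α, hα1, hα2, hα3⟩ := h3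
  rw [coe_prJ] at hα3
  obtain ⟨x, hx1, hx2, hx3⟩ := int_of_coe_eq hα1 hα3
  exact ⟨x, hx3, hx2, by rw [hx1]; exact hα2⟩

end beta

section np

variable {σ₂ : K →+* ℝ} {m : Ideal (𝓞 K)} {H : IntermediateField K ℝ} {θ : PrI K → ℝ}
  {d : PrI K → K} {Q : Set (PrI K)} {y : ℕ → Finset (PrI K) → ℝ} {ν : ℕ}

open Classical in
/-- **New primes.** -/
theorem new_prime (hC : Ctx σ₂ m H θ d Q y) {r : Finset (PrI K)} (hr : ↑r ⊆ Q)
    (hadm : Adm H θ ν r) {𝔅 : Finset K} (h𝔅 : ∀ b ∈ 𝔅, b ≠ 0) {X : Set (PrI K)}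
    (hQX : ∀ q, q ∉ X → (∀ b ∈ 𝔅, LSq q b) → q ∈ Q)
    {β : PrI K → 𝓞 K}
    (hβ : ∀ q ∈ r, q.asIdeal = Ideal.span {β q} ∧ β q - 1 ∈ m ∧ 0 < σ₂ (β q : K))
    {Ω : Type} [Field Ω] [NumberField Ω] [Algebra K Ω] [Algebra (LL H θ ν r) Ω]
    [IsScalarTower K (LL H θ ν r) Ω] [IsGalois K Ω]
    (hsq : ∀ b ∈ 𝔅, ∃ s : Ω, s ^ 2 = algebraMap K Ω b)
    (hsq' : ∀ q ∈ r, ∃ s : Ω, s ^ 2 = algebraMap K Ω (β q : K))
    {w : PrI Ω} (hun : Algebra.IsUnramifiedAt (𝓞 K) w.asIdeal) (hX : und K w ∉ X)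
    (hrr : und K w ∉ r) (h2 : (2 : 𝓞 K) ∉ (und K w).asIdeal) (hpn : pn w = pn (und K w)) :
    und K w ∈ Q ∧ Adm H θ ν (insert (und K w) r) ∧ Spl (und K w) (LL H θ ν r) := by
  have := hC.sys.fd ν r hr
  have := hC.sys.ab ν r hr
  have hfr : IsFrob K w (1 : Ω ≃ₐ[K] Ω) := isFrob_one_of_pn_eq hpn
  have key : ∀ b : K, b ≠ 0 → (∃ s : Ω, s ^ 2 = algebraMap K Ω b) → LSq (und K w) b := by
    rintro b hb ⟨s, hs⟩
    exact lsq_of_frob h2 hfr (sqAt_of_unram hb hs) hs rfl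
  have hQ : und K w ∈ Q := hQX _ hX fun b hb => key b (h𝔅 b hb) (hsq b hb)
  have hsp : Spl (und K w) (LL H θ ν r) := by
    have h3 : IsFrob K (und (LL H θ ν r) w) (1 : LL H θ ν r ≃ₐ[K] LL H θ ν r) :=
      isFrob_und (fun x => rfl) hfr
    have h4 := frobAt_of_isFrob h3
    rwa [und_und] at h4
  refine ⟨hQ, adm_insert hC hr hadm hQ hrr hsp fun q' hq' => ?_, hsp⟩
  obtain ⟨h3, h4, h5⟩ := hβ q' hq'
  refine ⟨β q', h3, h4, h5, key _ ?_ (hsq' q' hq')⟩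
  intro h
  rw [h, map_zero] at h5
  exact lt_irrefl _ h5

end np

end Pool.Agent.STc
end

section

/-!
# Application of the theorem V
-/

set_option linter.unusedSectionVars false

open NumberField IsDedekindDomain nonZeroDivisors IntermediateField

namespace Pool.Agent.STc

open Pool.Agent.ST Pool.Agent.STb

variable {K : Type*} [Field K] [NumberField K] [Algebra K ℝ]

attribute [local instance] numberField_of_fd

lemma sqAt_neg {M : Type*} [Field M] [NumberField M] {P : PrI M} {x : M} :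
    SqAt P (-x) ↔ SqAt P x := by
  unfold SqAt
  simp only [neg_mul, Valuation.map_neg]

section stepV

variable {σ₂ : K →+* ℝ} {m : Ideal (𝓞 K)} {H : IntermediateField K ℝ} {θ : PrI K → ℝ}
  {d : PrI K → K} {Q : Set (PrI K)} {y : ℕ → Finset (PrI K) → ℝ} {ν : ℕ}
  {F : IntermediateField K ℝ} {B : IntermediateField K ℝ}

/-- automorphisms of `L_ν(r)` fixing `B` have 2-power order -/
lemma two_power_LL (hC : Ctx σ₂ m H θ d Q y) [FiniteDimensional K H] [IsAbelianGalois K H]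
    (hB : ∀ x, x ∈ B ↔ x ∈ H ∧ ∀ σ : H ≃ₐ[K] H, (∃ j : ℕ, σ ^ (2 ^ j) = 1) → act σ x = x)
    {r : Finset (PrI K)} (hr : ↑r ⊆ Q) {γ : LL H θ ν r ≃ₐ[K] LL H θ ν r}
    (hγ : ∀ x ∈ B, act γ x = x) : ∃ j : ℕ, γ ^ (2 ^ j) = 1 := by
  have := hC.sys.fd ν r hr
  have := hC.sys.ab ν r hr
  have := hC.sys.fd_tw ν
  have := hC.sys.ab_tw ν
  have hH := le_LL H θ ν r
  have hT := twK_le_LL H θ ν r
  have h1 : ∀ x ∈ B, act (ST.res hH γ) x = x := by
    intro x hx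
    rw [act_res hH γ ((hB x).1 hx).1]
    exact hγ x hx
  obtain ⟨j, hj⟩ := two_power_of_fix hB h1
  have h2 : ∀ x ∈ H, act (γ ^ 2 ^ j) x = x := by
    rw [← res_eq_one_iff hH, map_pow, hj]
  have h3 : ∀ x ∈ H, act (ST.res hT (γ ^ 2 ^ j)) x = x := by
    intro x hx
    rw [act_res hT _ (le_twK H ν hx)]
    exact h2 x hx
  have h4 := NK_pow H ν _ h3
  have h5 : ∀ x ∈ twK H ν, act (γ ^ 2 ^ (j + ν)) x = x := by
    rw [← res_eq_one_iff hT, pow_add, pow_mul, map_pow, h4]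
  set ρ := γ ^ 2 ^ (j + ν) with hρ
  refine ⟨j + ν + 1, ?_⟩
  rw [pow_succ, pow_mul, ← hρ, pow_two]
  have h6 : LL H θ ν r ≤ eqField (ρ * ρ) 1 := by
    apply sup_le
    · intro x hx
      refine eqField_iff.2 ⟨hT hx, ?_⟩
      rw [act_comp _ _ (hT hx), h5 x hx, h5 x hx]
    · rw [adjoin_le_iff]
      rintro x ⟨q, hq, rfl⟩
      have hθ : θ q ∈ LL H θ ν r := theta_mem_LL hq
      refine eqField_iff.2 ⟨hθ, ?_⟩
      rw [act_comp _ _ hθ]
      rcases act_sq_cases ρ hθ (by rw [(hC.fine q (hr hq)).sq, act_algebraMap]) with h | h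
      · rw [h, h]
      · rw [h, act_neg _ hθ, h, neg_neg]
  apply act_ext
  intro x hx
  rw [(eqField_iff.1 (h6 hx)).2, act_one_left hx]

open Classical in
/-- **The application of theorem V.** -/
theorem stepV (hC : Ctx σ₂ m H θ d Q y) {Art : RayClassGroup σ₂ m ≃* (H ≃ₐ[K] H)}
    (hrcf : IsRayClassField σ₂ m H Art) [FiniteDimensional K H] [IsAbelianGalois K H]
    (hF : FData H θ Q y ν F)
    (hB : ∀ x, x ∈ B ↔ x ∈ H ∧ ∀ σ : H ≃ₐ[K] H, (∃ j : ℕ, σ ^ (2 ^ j) = 1) → act σ x = x)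
    {k : ℕ} (hEF : twK B k ≤ F) [FiniteDimensional K (twK B k)] [IsAbelianGalois K (twK B k)]
    [FiniteDimensional K F] {D : Finset (PrI K)} (hD : ∀ q, q ∈ D ↔ q.asIdeal ∣ m)
    {𝔅 : Finset K} (h𝔅 : ∀ b ∈ 𝔅, b ≠ 0) {X : Set (PrI K)} (hXf : X.Finite)
    (hQX : ∀ q, q ∉ X → (∀ b ∈ 𝔅, LSq q b) → q ∈ Q)
    {z : MonoidAlgebra (ZMod 2) (F ≃ₐ[K] F)}
    (hb : ∀ r : Finset (PrI K), ↑r ⊆ Q → Adm H θ ν r → ∀ x : F, (x : ℝ) = kap y ν r →
      ∃ b : twK B k, Att hEF z x b)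
    (T : Subgroup (twK B k ≃ₐ[K] twK B k)) (hT : ∀ g, g ∈ T ↔ ∃ j : ℕ, g ^ (2 ^ j) = 1)
    (hcard : Set.ncard {u : PrI (twK B k) | und K u ∈ D} < Nat.card T)
    {r : Finset (PrI K)} (hr : ↑r ⊆ Q) (hadm : Adm H θ ν r) {x : F} (hx : (x : ℝ) = kap y ν r)
    {b : twK B k} (hbb : Att hEF z x b)
    (hΔ : IsSquare (∏ g ∈ odds (twK B k ≃ₐ[K] twK B k), g b)) :
    IsSquare (∏ t : T, (t : twK B k ≃ₐ[K] twK B k) b) := by
  have hfd := hC.sys.fd ν r hr
  have hab' := hC.sys.ab ν r hr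
  have hfd0 := hC.sys.fd ν ∅ (by simp)
  have hab0 := hC.sys.ab ν ∅ (by simp)
  have hle : F ≤ LL H θ ν r := hF.le.trans (twK_le_LL H θ ν r)
  have hle0 : F ≤ LL H θ ν ∅ := hF.le.trans (twK_le_LL H θ ν ∅)
  -- generators
  have hβ : ∀ q : PrI K, ∃ β : 𝓞 K, q ∈ r → q.asIdeal = Ideal.span {β} ∧ β - 1 ∈ m ∧
      0 < σ₂ (β : K) := by
    intro q
    by_cases hq : q ∈ r
    · have hs : Spl q (LL H θ ν ∅) := hadm q hq ∅ (by simp) (by simp)
      obtain ⟨β, h⟩ := exists_beta hrcf (hC.fine q (hr hq)).ndvd (hs.mono (le_LL H θ ν ∅))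
      exact ⟨β, fun _ => h⟩
    · exact ⟨0, fun h => absurd h hq⟩
  choose β hβ using hβ
  -- the field `Ω`
  obtain ⟨Ω, hΩ1, hΩ2, hΩ3, hΩ4, hΩ5, hΩ6, hab, hsq2, hroots⟩ :=
    exists_Omega (LL H θ ν r) (𝔅 ∪ r.image fun q => (β q : K))
  let _ : Algebra (twK B k) Ω :=
    ((algebraMap (LL H θ ν r) Ω).comp (inclusion (hEF.trans hle)).toRingHom).toAlgebra
  have hst : IsScalarTower K (twK B k) Ω := by
    refine IsScalarTower.of_algebraMap_eq fun a => ?_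
    rw [IsScalarTower.algebraMap_apply K (LL H θ ν r) Ω]
    rfl
  have hΩ : ∀ σ : Ω ≃ₐ[twK B k] Ω, ∃ j : ℕ, σ ^ (2 ^ j) = 1 := by
    intro σ
    set σ' : Ω ≃ₐ[K] Ω := σ.restrictScalars K with hσ'
    set γ : LL H θ ν r ≃ₐ[K] LL H θ ν r := σ'.restrictNormal (LL H θ ν r) with hγ
    have hγc : ∀ x : LL H θ ν r, algebraMap (LL H θ ν r) Ω (γ x) =
        σ' (algebraMap (LL H θ ν r) Ω x) := fun x =>
      AlgEquiv.restrictNormal_commutes σ' (LL H θ ν r) x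
    have h1 : ∀ x ∈ B, act γ x = x := by
      intro x hx
      have hxE : x ∈ twK B k := le_twK B k hx
      have hxL : x ∈ LL H θ ν r := hle (hEF hxE)
      rw [act_of_mem γ hxL]
      have h2 : γ ⟨x, hxL⟩ = ⟨x, hxL⟩ := by
        apply (algebraMap (LL H θ ν r) Ω).injective
        rw [hγc]
        exact σ.commutes ⟨x, hxE⟩
      rw [h2]
    obtain ⟨j, hj⟩ := two_power_LL hC hB hr h1
    have h2 : (σ' ^ (2 ^ j)) ^ 2 = 1 := by
      apply hsq2
      intro x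
      have h3 : (σ' ^ (2 ^ j)).restrictNormal (LL H θ ν r) = 1 := by
        have h4 : AlgEquiv.restrictNormalHom (LL H θ ν r) (σ' ^ (2 ^ j)) =
            (AlgEquiv.restrictNormalHom (LL H θ ν r) σ') ^ (2 ^ j) := map_pow _ _ _
        exact h4.trans hj
      have h5 := AlgEquiv.restrictNormal_commutes (σ' ^ (2 ^ j)) (LL H θ ν r) x
      rw [h3] at h5
      exact h5.symm
    refine ⟨j + 1, ?_⟩
    have h3 : σ' ^ (2 ^ (j + 1)) = 1 := by rw [pow_succ, pow_mul, h2]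
    have h4 : ∀ n : ℕ, ∀ x, (σ ^ n) x = (σ' ^ n) x := by
      intro n
      induction n with
      | zero => intro x; rfl
      | succ n ih =>
        intro x
        rw [pow_succ, pow_succ, AlgEquiv.mul_apply, AlgEquiv.mul_apply, ih]
        rfl
    ext x
    rw [h4, h3]; rfl
  have hτ : ∀ q ∈ r, -d q ≠ 0 ∧ ¬ SqAt q (-d q) := by
    intro q hq
    have hf := hC.fine q (hr hq)
    exact ⟨neg_ne_zero.2 hf.ne, fun h => hf.odd (sqAt_neg.1 h)⟩
  have hDr : Disjoint D r := by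
    rw [Finset.disjoint_left]
    intro q hqD hqr
    exact (hC.fine q (hr hqr)).ndvd ((hD q).1 hqD)
  have hTR : ∀ (φ : twK B k →+* ℂ) (x : twK B k), (φ x).im = 0 := by
    intro φ x
    obtain ⟨ψ, hψ⟩ := ST.exists_extend φ hEF
    have h2 := hψ (x : ℝ) x.2
    rw [emb_of_mem _ (hEF x.2), emb_of_mem _ x.2] at h2
    have h3 := hF.tr ψ ⟨(x : ℝ), hEF x.2⟩
    rw [h2] at h3
    exact h3
  have hrs : ∀ u : PrI (twK B k), und K u ∈ r →
      pn u = pn (und K u) ∧ Algebra.IsUnramifiedAt (𝓞 K) u.asIdeal := by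
    intro u hu
    have hs : Spl (und K u) (LL H θ ν ∅) := hadm _ hu ∅ (by simp) (by simp)
    have hn := hC.sys.unr ν ∅ (by simp) _ (hC.fine _ (hr hu)).ndvd (by simp)
    exact ⟨pn_eq_of_isFrob_one ((hs.mono (hEF.trans hle0)) u rfl),
      (hn.mono (hEF.trans hle0)) u rfl⟩
  have hodds : (Finset.univ.filter fun g : twK B k ≃ₐ[K] twK B k => Odd (orderOf g)) =
      odds (twK B k ≃ₐ[K] twK B k) := rfl
  refine thmV (K := K) (E := twK B k) (Ω := Ω) (fun σ τ => mul_comm' σ τ) hab hΩ hC.h2 hTR D r hDr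
    (fun q hq => (hD q).2 (hC.hm2 q hq)) hrs (fun q => -d q) hτ b
    (att_inH hC hF hEF hD hr hadm hx hbb fun r₀ hr₀ x₀ hx₀ =>
      hb r₀ (fun v hv => hr (hr₀ hv)) (hadm.mono hr₀) x₀ hx₀) ?_
    ({w : PrI Ω | und K w ∈ (X ∪ ↑r ∪ ↑D : Set (PrI K))} ∪
      {w : PrI Ω | ¬ Algebra.IsUnramifiedAt (𝓞 K) w.asIdeal})
    ((finite_over_set ((hXf.union (Finset.finite_toSet r)).union (Finset.finite_toSet D))).union
      (finite_ramified K)) ?_ T hT hcard
  · rwa [hodds]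
  · intro w hw hpn
    simp only [Set.mem_union, Set.mem_ofPred_eq, not_or, not_not, Finset.mem_coe] at hw
    obtain ⟨⟨⟨hwX, hwr⟩, hwD⟩, hun⟩ := hw
    have h2 : (2 : 𝓞 K) ∉ (und K w).asIdeal := fun h => hwD ((hD _).2 (hC.hm2 _ h))
    obtain ⟨hQ, hadm', hsp⟩ := new_prime hC hr hadm h𝔅 hQX (fun q hq => hβ q hq)
      (fun b hb => hroots b (Finset.mem_union_left _ hb))
      (fun q hq => hroots _ (Finset.mem_union_right _ (Finset.mem_image_of_mem _ hq)))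
      hun hwX hwr h2 hpn
    set q := und K w with hq
    have hr' : (↑(insert q r) : Set (PrI K)) ⊆ Q := by
      intro v hv
      rcases Finset.mem_insert.1 (Finset.mem_coe.1 hv) with rfl | h
      · exact hQ
      · exact hr h
    have hrr' : r ⊆ insert q r := Finset.subset_insert q r
    have hx' : kap y ν (insert q r) ∈ F := hF.kap _ hr' hadm'
    obtain ⟨b', hb'⟩ := hb _ hr' hadm' ⟨_, hx'⟩ rfl
    have hin := att_inH hC hF hEF hD hr' hadm' rfl hb' fun r₀ hr₀ x₀ hx₀ =>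
      hb r₀ (fun v hv => hr' (hr₀ hv)) (hadm'.mono hr₀) x₀ hx₀
    refine ⟨b', ⟨hin.ne_zero, hin.pos, fun u hu => hin.trv u (hrr' hu)⟩, fun u hu => ?_,
      fun u hu huD hur => hin.even u huD ?_⟩
    · have hrel := att_rel hC hF hEF hrr' hr' hadm' hwr (fun v => Finset.mem_insert) hx
        rfl hbb hb' u hu
      apply hrel.sqAt_iff
      have hf := hC.fine q hQ
      have hn := (hC.sys.unr ν r hr q hf.ndvd hwr).mono (hEF.trans hle)
      have hun' := hn u hu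
      rw [sqAt_iff_unr u hun', hu, sqAt_neg]
      exact hf.odd
    · rw [Finset.mem_insert, not_or]
      exact ⟨hu, hur⟩

end stepV

end Pool.Agent.STc
end
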