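import Pool.Agent.Lib.MP_1ef7cf_nt_c.Mg.G002
import Pool.Agent.Lib.MP_1ef7cf_nt_c.Est
import Pool.Agent.Lib.MP_1ef7cf_nt_c.Fine
import Pool.Agent.Lib.MP_1ef7cf_nt_c.EndSq
import Pool.Agent.Lib.MP_1ef7cf_nt_c.FinalZ

section

/-!
# The ideal of the elements killing the classes
-/

set_option linter.unusedSectionVars false

open NumberField IsDedekindDomain nonZeroDivisors IntermediateField

namespace Pool.Agent.STc

open Pool.Agent.ST Pool.Agent.STb

variable {K : Type*} [Field K] [NumberField K] [Algebra K ℝ]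

attribute [local instance] numberField_of_fd

/-- the ideal of the elements killing the classes -/
noncomputable def ida (H : IntermediateField K ℝ) (θ : PrI K → ℝ) (Q : Set (PrI K))
    (y : ℕ → Finset (PrI K) → ℝ) (ν : ℕ) (F : IntermediateField K ℝ) [FiniteDimensional K F] :
    Ideal (MonoidAlgebra (ZMod 2) (F ≃ₐ[K] F)) where
  carrier := {w | ∀ r : Finset (PrI K), ↑r ⊆ Q → Adm H θ ν r → ∀ x : F, (x : ℝ) = kap y ν r →
    x ≠ 0 → IsSquare (prd w (xx (K := K) x))}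
  zero_mem' := by
    intro r _ _ x _ _
    rw [prd_zero]
    exact ⟨1, by ring⟩
  add_mem' := by
    intro a b ha hb r hr hadm x hx hx0
    have h1 := prd_add a b (xx (K := K) x)
    have h2 := ha r hr hadm x hx hx0
    have h3 := hb r hr hadm x hx hx0
    have hX := xx_ne_zero (K := K) hx0
    exact (isSq_congr (prd_ne_zero hX) (mul_ne_zero (prd_ne_zero hX) (prd_ne_zero hX)) h1).2
      (h2.mul h3)
  smul_mem' := by
    intro c a ha r hr hadm x hx hx0
    have hX := xx_ne_zero (K := K) hx0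
    have h1 := prd_mul c a hX
    rw [smul_eq_mul]
    exact (isSq_congr (prd_ne_zero hX) (prd_ne_zero (prd_ne_zero hX)) h1).2
      (IsSquare.prd (ha r hr hadm x hx hx0))

section step

variable {σ₂ : K →+* ℝ} {m : Ideal (𝓞 K)} {H : IntermediateField K ℝ} {θ : PrI K → ℝ}
  {d : PrI K → K} {Q : Set (PrI K)} {y : ℕ → Finset (PrI K) → ℝ} {ν : ℕ}
  {F : IntermediateField K ℝ} {B : IntermediateField K ℝ} {k : ℕ}

lemma mem_ida [FiniteDimensional K F] {w : MonoidAlgebra (ZMod 2) (F ≃ₐ[K] F)} :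
    w ∈ ida H θ Q y ν F ↔ ∀ r : Finset (PrI K), ↑r ⊆ Q → Adm H θ ν r → ∀ x : F,
      (x : ℝ) = kap y ν r → x ≠ 0 → IsSquare (prd w (xx (K := K) x)) := Iff.rfl

/-- automorphisms of `F` fixing `B` have 2-power order -/
lemma two_power_F (hC : Ctx σ₂ m H θ d Q y) [FiniteDimensional K H] [IsAbelianGalois K H]
    (hB : ∀ x, x ∈ B ↔ x ∈ H ∧ ∀ σ : H ≃ₐ[K] H, (∃ j : ℕ, σ ^ (2 ^ j) = 1) → act σ x = x)
    (hF : F ≤ twK H ν) (hBF : B ≤ F) [FiniteDimensional K F] [IsAbelianGalois K F]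
    {γ : F ≃ₐ[K] F} (hγ : ∀ x ∈ B, act γ x = x) : ∃ j : ℕ, γ ^ (2 ^ j) = 1 := by
  have := hC.sys.fd ν ∅ (by simp)
  have := hC.sys.ab ν ∅ (by simp)
  have hle : F ≤ LL H θ ν ∅ := hF.trans (twK_le_LL H θ ν ∅)
  obtain ⟨δ, rfl⟩ := res_surjective hle γ
  have h1 : ∀ x ∈ B, act δ x = x := by
    intro x hx
    rw [← act_res hle δ (hBF hx)]
    exact hγ x hx
  obtain ⟨j, hj⟩ := two_power_LL hC hB (by simp) h1
  exact ⟨j, by rw [← map_pow, hj, map_one]⟩

/-- automorphisms of `F` of 2-power order fix `B` -/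
lemma fix_of_two_power (hC : Ctx σ₂ m H θ d Q y) [FiniteDimensional K H] [IsAbelianGalois K H]
    (hB : ∀ x, x ∈ B ↔ x ∈ H ∧ ∀ σ : H ≃ₐ[K] H, (∃ j : ℕ, σ ^ (2 ^ j) = 1) → act σ x = x)
    (hF : F ≤ twK H ν) (hBF : B ≤ F) [FiniteDimensional K F] [IsAbelianGalois K F]
    {γ : F ≃ₐ[K] F} (hγ : ∃ j : ℕ, γ ^ (2 ^ j) = 1) : ∀ x ∈ B, act γ x = x := by
  have := hC.sys.fd ν ∅ (by simp)
  have := hC.sys.ab ν ∅ (by simp)
  have hle : F ≤ LL H θ ν ∅ := hF.trans (twK_le_LL H θ ν ∅)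
  obtain ⟨δ, rfl⟩ := res_surjective hle γ
  obtain ⟨j, hj⟩ := hγ
  have h1 : ∀ x ∈ B, act (δ ^ 2 ^ j) x = x := by
    intro x hx
    rw [← act_res hle _ (hBF hx), map_pow, hj, act_one_left (hBF hx)]
  obtain ⟨i, hi⟩ := two_power_LL hC hB (by simp) h1
  have h2 : ∃ j : ℕ, (ST.res (le_LL H θ ν ∅) δ) ^ (2 ^ j) = 1 := by
    refine ⟨j + i, ?_⟩
    rw [pow_add, pow_mul, ← map_pow, ← map_pow, hi, map_one]
  intro x hx
  have h3 := ((hB x).1 hx).2 _ h2
  rw [act_res _ δ ((hB x).1 hx).1] at h3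
  rw [act_res hle δ (hBF hx)]
  exact h3

/-- descent of the classes to `E` -/
theorem exists_att (hC : Ctx σ₂ m H θ d Q y) [FiniteDimensional K H] [IsAbelianGalois K H]
    (hF : F ≤ twK H ν)
    (hB : ∀ x, x ∈ B ↔ x ∈ H ∧ ∀ σ : H ≃ₐ[K] H, (∃ j : ℕ, σ ^ (2 ^ j) = 1) → act σ x = x)
    (hEF : twK B k ≤ F) [FiniteDimensional K (twK B k)] [IsAbelianGalois K (twK B k)]
    [FiniteDimensional K F] [IsAbelianGalois K F] {w : MonoidAlgebra (ZMod 2) (F ≃ₐ[K] F)}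
    (h1 : ∀ σ : F ≃ₐ[K] F, (∀ x ∈ twK B k, act σ x = x) →
      (1 + MonoidAlgebra.single σ 1) * w ∈ ida H θ Q y ν F)
    {r : Finset (PrI K)} (hr : ↑r ⊆ Q) (hadm : Adm H θ ν r) {x : F} (hx : (x : ℝ) = kap y ν r)
    (hx0 : x ≠ 0) : ∃ b : twK B k, Att hEF (w * estar) x b ∧
      IsSquare (∏ g ∈ odds (twK B k ≃ₐ[K] twK B k), g b) := by
  have habF : ∀ σ τ : F ≃ₐ[K] F, σ * τ = τ * σ := fun σ τ => mul_comm' σ τ
  have hX := xx_ne_zero (K := K) hx0
  have hN : Normal K (restrict hEF) := Normal.of_algEquiv (restrictAlgEquiv hEF)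
  have hP : prd w (xx (K := K) x) ≠ 0 := prd_ne_zero hX
  obtain ⟨b, hbE, hb0, hsq, c, hcE, hc0, hbc⟩ := descent habF (restrict hEF) hP (fun σ hσ => by
    rw [IntermediateField.mem_fixingSubgroup_iff] at hσ
    have h2 := h1 σ (fun v hv => by
      have h3 := hσ ⟨v, hEF hv⟩ ((mem_restrict hEF _).2 hv)
      rw [act_of_mem σ (hEF hv)]
      exact congrArg Subtype.val h3) r hr hadm x hx hx0
    have h4 := prd_mul (1 + MonoidAlgebra.single σ 1) w hX
    have h5 := prd_add (1 : MonoidAlgebra (ZMod 2) (F ≃ₐ[K] F)) (MonoidAlgebra.single σ 1)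
      (prd w (xx (K := K) x))
    rw [prd_one, prd_single] at h5
    have hσP : σ (prd w (xx (K := K) x)) ≠ 0 := by rw [Ne, map_eq_zero]; exact hP
    have h6 := (isSq_congr (prd_ne_zero hX) (prd_ne_zero hP) h4).1 h2
    exact (isSq_congr (prd_ne_zero hP) (mul_ne_zero hP hσP) h5).1 h6)
    (prod_odds_prd habF w x)
  have hb' : (b : ℝ) ∈ twK B k := (mem_restrict hEF b).1 hbE
  have hc' : (c : ℝ) ∈ twK B k := (mem_restrict hEF c).1 hcE
  refine ⟨⟨(b : ℝ), hb'⟩, ⟨?_, ?_⟩, ⟨⟨(c : ℝ), hc'⟩, ?_⟩⟩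
  · intro h
    apply hb0
    apply Subtype.ext
    exact congrArg (fun v : twK B k => (v : ℝ)) h
  · have h2 : inclusion hEF ⟨(b : ℝ), hb'⟩ = b := rfl
    rw [h2]
    refine isSq_trans hP (b := prd w (xx (K := K) x)) (by rw [mul_comm]; exact hsq) ?_
    rw [mul_comm]
    exact prd_mul_estar w hx0
  · have h2 := prod_odds_map (G := F ≃ₐ[K] F) (H := twK B k ≃ₐ[K] twK B k)
      (fun a b => mul_comm' a b) (ST.res hEF) (res_surjective hEF) (fun g hg => by
        rw [res_eq_one_iff] at hg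
        exact two_power_F hC hB hF ((le_twK B k).trans hEF)
          (fun v hv => hg v (le_twK B k hv)))
      (fun g => g (⟨(b : ℝ), hb'⟩ : twK B k))
    rw [← h2]
    have hinj : Function.Injective (inclusion hEF) := (inclusion hEF).toRingHom.injective
    apply hinj
    rw [map_prod, map_mul]
    have h3 : ∀ g : F ≃ₐ[K] F, inclusion hEF ((ST.res hEF g) ⟨(b : ℝ), hb'⟩) = g b := by
      intro g
      apply Subtype.ext
      have h4 : ((inclusion hEF ((ST.res hEF g) ⟨(b : ℝ), hb'⟩) : F) : ℝ) =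
          act (ST.res hEF g) (b : ℝ) := by
        rw [act_of_mem _ hb']; rfl
      rw [h4, act_res hEF g hb', act_of_mem g (hEF hb')]
    have h5 : inclusion hEF (⟨(c : ℝ), hc'⟩ : twK B k) = c := rfl
    rw [h5, ← pow_two, ← hbc]
    exact Finset.prod_congr rfl fun g _ => h3 g

open Classical in
/-- **The step of the devissage.** -/
theorem step_ida (hC : Ctx σ₂ m H θ d Q y) {Art : RayClassGroup σ₂ m ≃* (H ≃ₐ[K] H)}
    (hrcf : IsRayClassField σ₂ m H Art) [FiniteDimensional K H] [IsAbelianGalois K H]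
    (hF : FData H θ Q y ν F)
    (hB : ∀ x, x ∈ B ↔ x ∈ H ∧ ∀ σ : H ≃ₐ[K] H, (∃ j : ℕ, σ ^ (2 ^ j) = 1) → act σ x = x)
    (hEF : twK B k ≤ F) [FiniteDimensional K (twK B k)] [IsAbelianGalois K (twK B k)]
    [FiniteDimensional K F] [IsAbelianGalois K F]
    {D : Finset (PrI K)} (hD : ∀ q, q ∈ D ↔ q.asIdeal ∣ m)
    {𝔅 : Finset K} (h𝔅 : ∀ b ∈ 𝔅, b ≠ 0) {X : Set (PrI K)} (hXf : X.Finite)
    (hQX : ∀ q, q ∉ X → (∀ b ∈ 𝔅, LSq q b) → q ∈ Q)
    (hcard : Set.ncard {u : PrI (twK B k) | und K u ∈ D} <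
      Nat.card {g : twK B k ≃ₐ[K] twK B k // ∃ j : ℕ, g ^ (2 ^ j) = 1})
    {w : MonoidAlgebra (ZMod 2) (F ≃ₐ[K] F)}
    (h1 : ∀ σ : F ≃ₐ[K] F, (∀ x ∈ twK B k, act σ x = x) →
      (1 + MonoidAlgebra.single σ 1) * w ∈ ida H θ Q y ν F)
    (𝒯 : Finset (F ≃ₐ[K] F)) (h2 : ∀ t ∈ 𝒯, ∀ x ∈ B, act t x = x)
    (h3 : ∀ g : F ≃ₐ[K] F, (∀ x ∈ B, act g x = x) →
      ∃! t, t ∈ 𝒯 ∧ ∀ x ∈ twK B k, act (t⁻¹ * g) x = x) :
    (∑ t ∈ 𝒯, MonoidAlgebra.single t 1) * w ∈ ida H θ Q y ν F := by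
  have hBF : B ≤ F := (le_twK B k).trans hEF
  intro r hr hadm x hx hx0
  have hX := xx_ne_zero (K := K) hx0
  have hP : prd w (xx (K := K) x) ≠ 0 := prd_ne_zero hX
  have hpos : ∀ r : Finset (PrI K), ↑r ⊆ Q → ∀ x : F, (x : ℝ) = kap y ν r → x ≠ 0 := by
    intro r hr x hx h
    have := kap_pos hC.sys hr (ν := ν)
    rw [← hx, h] at this
    exact lt_irrefl _ this
  obtain ⟨b, hb, hΔ⟩ := exists_att hC hF.le hB hEF h1 hr hadm hx hx0
  -- the subgroup `T`
  let T : Subgroup (twK B k ≃ₐ[K] twK B k) :=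
    { carrier := {g | ∃ j : ℕ, g ^ (2 ^ j) = 1}
      one_mem' := ⟨0, by simp⟩
      mul_mem' := by
        rintro a b ⟨i, hi⟩ ⟨j, hj⟩
        refine ⟨i + j, ?_⟩
        have hc : Commute a b := mul_comm' a b
        rw [hc.mul_pow]
        have e1 : a ^ 2 ^ (i + j) = 1 := by rw [pow_add, pow_mul, hi, one_pow]
        have e2 : b ^ 2 ^ (i + j) = 1 := by rw [pow_add, mul_comm, pow_mul, hj, one_pow]
        rw [e1, e2, one_mul]
      inv_mem' := by
        rintro a ⟨i, hi⟩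
        exact ⟨i, by rw [inv_pow, hi, inv_one]⟩ }
  have hT : ∀ g, g ∈ T ↔ ∃ j : ℕ, g ^ (2 ^ j) = 1 := fun g => Iff.rfl
  have hV := stepV hC hrcf hF hB hEF hD h𝔅 hXf hQX (z := w * estar)
    (fun r hr hadm x hx => by
      obtain ⟨b, hb, -⟩ := exists_att hC hF.le hB hEF h1 hr hadm hx (hpos r hr x hx)
      exact ⟨b, hb⟩) T hT hcard hr hadm hx hb hΔ
  -- transfer
  have hres : ∀ t ∈ 𝒯, ST.res hEF t ∈ T := by
    intro t ht
    refine ⟨k, NK_pow B k _ fun v hv => ?_⟩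
    rw [act_res hEF t (le_twK B k hv)]
    exact h2 t ht v hv
  have hbij : ∏ t ∈ 𝒯, (ST.res hEF t) b = ∏ t : T, (t : twK B k ≃ₐ[K] twK B k) b := by
    refine Finset.prod_bij (fun t ht => ⟨ST.res hEF t, hres t ht⟩) (fun t ht => Finset.mem_univ _)
      ?_ ?_ (fun t ht => rfl)
    · intro t ht t' ht' heq
      have heq' : ST.res hEF t = ST.res hEF t' := congrArg Subtype.val heq
      obtain ⟨t₀, -, h4⟩ := h3 t' (h2 t' ht')
      have e1 := h4 t ⟨ht, fun v hv => by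
        have : ST.res hEF (t⁻¹ * t') = 1 := by rw [map_mul, map_inv, heq', inv_mul_cancel]
        exact (res_eq_one_iff hEF _).1 this v hv⟩
      have e2 := h4 t' ⟨ht', fun v hv => by
        rw [inv_mul_cancel, act_one_left (hEF hv)]⟩
      rw [e1, e2]
    · rintro ⟨s, hs⟩ -
      obtain ⟨g, rfl⟩ := res_surjective hEF s
      have hgB : ∀ v ∈ B, act g v = v := by
        have h4 := fix_of_two_power hC hB (hEF.trans hF.le) (le_twK B k) ((hT _).1 hs)
        intro v hv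
        rw [← act_res hEF g (le_twK B k hv)]
        exact h4 v hv
      obtain ⟨t, ⟨ht, ht'⟩, -⟩ := h3 g hgB
      refine ⟨t, ht, ?_⟩
      apply Subtype.ext
      have h5 : ST.res hEF (t⁻¹ * g) = 1 := (res_eq_one_iff hEF _).2 ht'
      rw [map_mul, map_inv, inv_mul_eq_one] at h5
      exact h5
  have hinc : ∀ g : F ≃ₐ[K] F, inclusion hEF ((ST.res hEF g) b) = g (inclusion hEF b) := by
    intro g
    apply Subtype.ext
    have h4 : ((inclusion hEF ((ST.res hEF g) b) : F) : ℝ) = act (ST.res hEF g) (b : ℝ) := by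
      rw [act_of_mem _ b.2]; rfl
    rw [h4, act_res hEF g b.2, act_of_mem g (hEF b.2)]
    rfl
  have hbs : IsSquare (∏ t ∈ 𝒯, t (inclusion hEF b)) := by
    rw [← hbij] at hV
    have h4 := hV.map (inclusion hEF)
    rw [map_prod] at h4
    rwa [Finset.prod_congr rfl fun t _ => hinc t] at h4
  have hb0 : inclusion hEF b ≠ 0 := by
    rw [Ne, map_eq_zero]; exact hb.1
  -- `P b` is a square
  have hPb : IsSquare (prd w (xx (K := K) x) * inclusion hEF b) := by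
    have h4 := prd_mul_estar w hx0
    refine isSq_trans (prd_ne_zero hx0) (b := prd (w * estar) x) ?_ ?_
    · rw [mul_comm]; exact h4
    · rw [mul_comm]; exact hb.2
  have hPT : IsSquare (∏ t ∈ 𝒯, t (prd w (xx (K := K) x))) := by
    have h4 : IsSquare ((∏ t ∈ 𝒯, t (prd w (xx (K := K) x))) * ∏ t ∈ 𝒯, t (inclusion hEF b)) := by
      rw [← Finset.prod_mul_distrib]
      refine Finset.isSquare_prod _ fun t _ => ?_
      rw [← map_mul]
      exact hPb.map t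
    have h5 : ∏ t ∈ 𝒯, t (inclusion hEF b) ≠ 0 := Finset.prod_ne_zero_iff.2 fun t _ => by
      rw [Ne, map_eq_zero]; exact hb0
    exact (isSq_mul_iff h5 hbs).1 h4
  have h4 := prd_mul (∑ t ∈ 𝒯, MonoidAlgebra.single t 1) w hX
  have h5 := prd_sum 𝒯 (fun t => t) hP
  have h6 : ∏ t ∈ 𝒯, t (prd w (xx (K := K) x)) ≠ 0 := Finset.prod_ne_zero_iff.2 fun t _ => by
    rw [Ne, map_eq_zero]; exact hP
  have h7 := (isSq_congr (prd_ne_zero hP) h6 h5).2 hPT
  exact (isSq_congr (prd_ne_zero hX) (prd_ne_zero hP) h4).2 h7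

end step

end Pool.Agent.STc
end

section

/-!
# The square root condition follows from the conditions 1-3
-/

set_option linter.unusedSectionVars false

open NumberField IsDedekindDomain nonZeroDivisors IntermediateField

namespace Pool.Agent.STc

open Pool.Agent.ST Pool.Agent.STb

variable {K : Type*} [Field K] [NumberField K] [Algebra K ℝ]

attribute [local instance] numberField_of_fd

section fixb

/-- the fixed field of the automorphisms of 2-power order -/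
noncomputable def fixB (H : IntermediateField K ℝ) : IntermediateField K ℝ :=
  H ⊓ ⨅ σ : {σ : H ≃ₐ[K] H // ∃ j : ℕ, σ ^ (2 ^ j) = 1}, eqField σ.1 1

lemma mem_fixB (H : IntermediateField K ℝ) (x : ℝ) : x ∈ fixB H ↔ x ∈ H ∧
    ∀ σ : H ≃ₐ[K] H, (∃ j : ℕ, σ ^ (2 ^ j) = 1) → act σ x = x := by
  unfold fixB
  rw [IntermediateField.mem_inf]
  constructor
  · rintro ⟨h1, h2⟩
    refine ⟨h1, fun σ hσ => ?_⟩
    have h3 := (iInf_le (fun σ : {σ : H ≃ₐ[K] H // ∃ j : ℕ, σ ^ (2 ^ j) = 1} => eqField σ.1 1)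
      ⟨σ, hσ⟩) h2
    exact (eqField_iff.1 h3).2
  · rintro ⟨h1, h2⟩
    refine ⟨h1, ?_⟩
    have h3 : K⟮x⟯ ≤ ⨅ σ : {σ : H ≃ₐ[K] H // ∃ j : ℕ, σ ^ (2 ^ j) = 1}, eqField σ.1 1 := by
      refine le_iInf fun σ => ?_
      rw [adjoin_simple_le_iff]
      exact eqField_iff.2 ⟨h1, h2 σ.1 σ.2⟩
    exact h3 (mem_adjoin_simple_self K x)

lemma fixB_le (H : IntermediateField K ℝ) : fixB H ≤ H := inf_le_left

end fixb

section main

variable {σ₂ : K →+* ℝ} {m : Ideal (𝓞 K)} {H : IntermediateField K ℝ}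

lemma twK_mono' {A A' : IntermediateField K ℝ} (h : A ≤ A') (n : ℕ) : twK A n ≤ twK A' n :=
  twK_le (h.trans (le_twK A' n)) (cc_mem_twK A' n)

/-- the maximal real subfield of `H(cc ν)` -/
lemma exists_FData {θ : PrI K → ℝ} {d : PrI K → K} {Q : Set (PrI K)}
    {y : ℕ → Finset (PrI K) → ℝ} (hC : Ctx σ₂ m H θ d Q y) [FiniteDimensional K H]
    [IsAbelianGalois K H] (ν : ℕ) :
    ∃ F : IntermediateField K ℝ, FData H θ Q y ν F ∧ (∀ k ≤ ν, twK (fixB H) k ≤ F) ∧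
      ∀ σ : twK H ν ≃ₐ[K] twK H ν, (∀ x ∈ F, act σ x = x) → σ * σ = 1 := by
  have := hC.sys.fd_tw ν
  have := hC.sys.ab_tw ν
  obtain ⟨c, hc⟩ := exists_isConj (L := twK H ν) σ₂
  have hTR := TR_fixed hC.h2 hC.hσ hc
  refine ⟨eqField c 1, ⟨fun x hx => hx.1, ?_, ?_⟩, ?_, ?_⟩
  · intro φ x
    let ι : rs (eqField c 1) →+* eqField c 1 :=
      { toFun := fun x => ⟨x.1, x.2⟩
        map_one' := rfl
        map_mul' := fun _ _ => rfl
        map_zero' := rfl
        map_add' := fun _ _ => rfl }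
    exact hTR (φ.comp ι) ⟨x.1, x.2⟩
  · intro r hr hadm
    exact kap_mem hC.sys hC.fine hr hadm hc
  · intro k hk
    apply twK_le
    · intro x hx
      obtain ⟨h1, h2⟩ := (mem_fixB H x).1 hx
      refine eqField_iff.2 ⟨le_twK H ν h1, ?_⟩
      have h3 := h2 (ST.res (le_twK H ν) c) ⟨1, by
        rw [pow_one, pow_two, ← map_mul, hc.sq, map_one]⟩
      rwa [act_res _ c h1] at h3
    · have h1 : cc k ∈ twK H ν := cc_mem_of_le (cc_mem_twK H ν) hk
      exact eqField_iff.2 ⟨h1, hc.fix_cc h1⟩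
  · -- the kernel has two elements
    intro σ hσ
    classical
    have hgal : IsGalois K (twK H ν) := inferInstance
    -- the fixed field of `{1, c}`
    let S : Subgroup (twK H ν ≃ₐ[K] twK H ν) := Subgroup.zpowers c
    have h1 : σ ∈ (IntermediateField.fixedField S).fixingSubgroup := by
      rw [IntermediateField.mem_fixingSubgroup_iff]
      intro x hx
      have h2 : c x = x := by
        have h3 := (IntermediateField.mem_fixedField_iff S x).1 hx c (Subgroup.mem_zpowers c)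
        exact h3
      have h3 : (x : ℝ) ∈ eqField c 1 := eqField_iff.2 ⟨x.2, by rw [act_coe, h2]⟩
      have h4 := hσ _ h3
      rw [act_coe] at h4
      exact Subtype.ext h4
    rw [IntermediateField.fixingSubgroup_fixedField] at h1
    obtain ⟨n, rfl⟩ := Subgroup.mem_zpowers_iff.1 h1
    have h2 : c * c = 1 := hc.sq
    rw [← zpow_add, ← two_mul, zpow_mul, zpow_ofNat, pow_two, h2, one_zpow]

open Classical in
/-- **The square root condition follows from the conditions 1-3.** -/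
theorem sqrt_full (h2 : Module.finrank ℚ K = 2) (hσ : σ₂ ≠ sg1 K) (hm : m ≠ ⊥) (hm1 : m ≠ ⊤)
    (hm2 : ∀ v : PrI K, (2 : 𝓞 K) ∈ v.asIdeal → v.asIdeal ∣ m)
    (hS : ∀ n : Ideal (𝓞 K), n ≠ ⊥ → n ≤ m → ∃ (H : IntermediateField K ℝ)
      (Art : RayClassGroup σ₂ n ≃* (H ≃ₐ[K] H)) (u : ℝ), SData σ₂ n H Art u)
    {Art : RayClassGroup σ₂ m ≃* (H ≃ₐ[K] H)} {u : ℝ} (hd : SData σ₂ m H Art u) :
    IsAbelianGalois K (sqrtExt H u) := by
  have hfin := hd.rcf.finite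
  have hgal := hd.rcf.galois
  have habH : IsAbelianGalois K H := hd.rcf.isRCF.abelian
  obtain ⟨𝔅, h𝔅, X, hXf, hfine⟩ := exists_fine h2 hσ hm hm2 (fun n hn hnm => by
    obtain ⟨H, Art, u, h⟩ := hS n hn hnm
    exact ⟨H, Art, h.rcf⟩)
  let Q : Set (PrI K) := {q | q ∉ X ∧ ∀ b ∈ 𝔅, LSq q b}
  have hex : ∀ q : PrI K, ∃ (t : ℝ) (e : K), q ∈ Q → Fine σ₂ m q t e := by
    intro q
    by_cases hq : q ∈ Q
    · obtain ⟨t, e, h⟩ := hfine q hq.1 hq.2
      exact ⟨t, e, fun _ => h⟩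
    · exact ⟨0, 0, fun h => absurd h hq⟩
  choose θ d hQ using hex
  obtain ⟨y, hsys, hyu⟩ := exists_sys h2 hσ hm hm1 hm2 hS hd (θ := θ) (d := d) (Q := Q)
    (fun q hq => hQ q hq)
  have hC : Ctx σ₂ m H θ d Q y := ⟨h2, hσ, hm2, hsys, fun q hq => hQ q hq⟩
  have hfdT : ∀ n, FiniteDimensional K (twK H n) := hsys.fd_tw
  have habT : ∀ n, IsAbelianGalois K (twK H n) := hsys.ab_tw
  set B := fixB H with hBdef
  have hB := mem_fixB H
  have hfdB : ∀ n, FiniteDimensional K (twK B n) := fun n => by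
    have := hfdT n
    exact fd_of_le (twK_mono' (fixB_le H) n)
  have habB : ∀ n, IsAbelianGalois K (twK B n) := fun n => by
    have := hfdT n
    have := habT n
    exact isAbelianGalois_of_le (twK_mono' (fixB_le H) n)
  let D : Finset (PrI K) := (Ideal.finite_factors hm).toFinset
  have hD : ∀ q, q ∈ D ↔ q.asIdeal ∣ m := fun q => by
    simp only [D, Set.Finite.mem_toFinset, Set.mem_ofPred_eq]
  obtain ⟨k, hk⟩ := exists_k B hfdB habB D
  obtain ⟨ν₀, hν₀⟩ := devGal H B hfdT habT hB k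
  set ν := max ν₀ k with hν
  obtain ⟨F, hF, hEF, hker⟩ := exists_FData hC ν
  have := hfdT ν
  have := habT ν
  have hFfd : FiniteDimensional K F := fd_of_le hF.le
  have hFab : IsAbelianGalois K F := isAbelianGalois_of_le hF.le
  have := hfdB k
  have := habB k
  have hEFk : twK B k ≤ F := hEF k (le_max_right _ _)
  have hmem := hν₀ ν (le_max_left _ _) F hF.le (hEF ν le_rfl) (ida H θ Q y ν F)
    (fun w h1 𝒯 h2 h3 => step_ida hC hd.rcf hF hB hEFk hD h𝔅 hXf (fun q h h' => ⟨h, h'⟩) hk h1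
      𝒯 h2 h3)
  have hκ : kap y ν ∅ ∈ F := hF.kap ∅ (by simp) adm_empty
  have hκ0 : (⟨kap y ν ∅, hκ⟩ : F) ≠ 0 := by
    intro h
    have h3 := kap_pos hsys (r := ∅) (ν := ν) (by simp)
    have h4 : kap y ν ∅ = 0 := congrArg (fun v : F => (v : ℝ)) h
    rw [h4] at h3
    exact lt_irrefl _ h3
  have hsq := hmem ∅ (by simp) adm_empty ⟨kap y ν ∅, hκ⟩ rfl hκ0
  have hpre := hsys.pre ν ∅ (by simp)
  rw [LL_empty] at hpre
  obtain ⟨s, hs, hss⟩ := end_sq H ν hF.le hker hpre.mem hpre.pos rfl hsq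
  rw [hyu ν] at hss
  refine final_full h2 hσ hm hm1 hm2 (fun k => hS _ ?_ Ideal.mul_le_left) hd ν hs hss
  exact mul_ne_zero hm (pow_ne_zero _ span_two_ne)

end main

end Pool.Agent.STc
end
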